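import Pool.Agent.Lib.MP_216314_pr.CC
import Pool.Agent.Lib.MP_216314_pr.D.Lst

/-!
# Square-tiled surfaces: darts, gluing, the loops of a configuration
-/

set_option autoImplicit false

noncomputable section

namespace FKR

open Finset FKD

/-- every vertex has four darts (half-edges), in cyclic (counterclockwise) order -/
abbrev Dart (X : Type) := X × ZMod 4

/-- the next dart at the same vertex -/
def rot {X : Type} (z : Dart X) : Dart X := (z.1, z.2 + 1)

/-- A finite graph drawn on a surface: the vertices `S`, the edges `E` (an edge is represented by one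
of its two darts), `opp z` is the other dart of the edge of the dart `z`. -/
structure Glue (X : Type) [DecidableEq X] where
  /-- the vertices -/
  S : Finset X
  /-- the other dart of the edge of a dart -/
  opp : Dart X → Dart X
  /-- the edges -/
  E : Finset (Dart X)
  inv : ∀ z, opp (opp z) = z
  rep : ∀ e ∈ E, opp e ∉ E
  left : ∀ e ∈ E, e.1 ∈ S
  right : ∀ e ∈ E, (opp e).1 ∈ S

namespace Glue

variable {X : Type} [DecidableEq X] (G : Glue X)

/-- the edge of the dart `z` is in `ω` -/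
def op (ω : Finset (Dart X)) (z : Dart X) : Prop := z ∈ ω ∨ G.opp z ∈ ω

instance (ω : Finset (Dart X)) (z : Dart X) : Decidable (G.op ω z) :=
  inferInstanceAs (Decidable (z ∈ ω ∨ G.opp z ∈ ω))

/-- the loops: along an open edge, or around the vertex -/
def nx (ω : Finset (Dart X)) (z : Dart X) : Dart X := if G.op ω z then rot (G.opp z) else rot z

/-- left turn `1` at a closed edge, right turn `-1` at an open edge -/
def dlt (ω : Finset (Dart X)) (z : Dart X) : ℤ := if G.op ω z then -1 else 1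

/-- the graph of the open edges -/
def gph (ω : Finset (Dart X)) : SimpleGraph X :=
  SimpleGraph.fromRel (fun u v => ∃ e ∈ ω, e.1 = u ∧ (G.opp e).1 = v)

/-- number of clusters -/
def clus (ω : Finset (Dart X)) : ℕ := Set.ncard ((G.gph ω).connectedComponentMk '' (G.S : Set X))

/-- the critical weight, `s = √q` -/
def wgt (s : ℝ) (ω : Finset (Dart X)) : ℝ := s ^ ω.card * (s ^ 2) ^ G.clus ω

/-- total turning of the loop through `z` -/
def T (ω : Finset (Dart X)) (z : Dart X) : ℤ := osum (G.nx ω) (G.dlt ω) z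

/-- the darts of the vertices -/
def dS : Finset (Dart X) := G.S ×ˢ univ

variable {G}

theorem mem_dS {z : Dart X} : z ∈ G.dS ↔ z.1 ∈ G.S := by
  unfold dS
  simp

theorem rot_inj : Function.Injective (rot : Dart X → Dart X) := by
  intro x y h
  unfold rot at h
  have h1 := congrArg Prod.fst h
  have h2 := congrArg Prod.snd h
  simp only at h1 h2
  exact Prod.ext h1 (add_right_cancel h2)

theorem op_opp {ω : Finset (Dart X)} {z : Dart X} : G.op ω (G.opp z) ↔ G.op ω z := by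
  unfold op
  rw [G.inv, or_comm]

theorem nx_op {ω : Finset (Dart X)} {z : Dart X} (h : G.op ω z) : G.nx ω z = rot (G.opp z) := by
  unfold nx; rw [if_pos h]

theorem nx_cl {ω : Finset (Dart X)} {z : Dart X} (h : ¬ G.op ω z) : G.nx ω z = rot z := by
  unfold nx; rw [if_neg h]

theorem nx_inj (ω : Finset (Dart X)) : Function.Injective (G.nx ω) := by
  intro x y h
  by_cases h1 : G.op ω x <;> by_cases h2 : G.op ω y
  · rw [nx_op h1, nx_op h2] at h
    have := congrArg G.opp (rot_inj h)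
    rwa [G.inv, G.inv] at this
  · rw [nx_op h1, nx_cl h2] at h
    have := rot_inj h
    exact absurd (this ▸ op_opp.2 h1) h2
  · rw [nx_cl h1, nx_op h2] at h
    have := rot_inj h
    exact absurd (this ▸ op_opp.2 h2) h1
  · rw [nx_cl h1, nx_cl h2] at h
    exact rot_inj h

theorem op_mem {ω : Finset (Dart X)} (hω : ω ⊆ G.E) {z : Dart X} (h : G.op ω z) :
    z.1 ∈ G.S ∧ (G.opp z).1 ∈ G.S := by
  rcases h with h | h
  · exact ⟨G.left _ (hω h), G.right _ (hω h)⟩
  · have h1 := G.left _ (hω h)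
    have h2 := G.right _ (hω h)
    rw [G.inv] at h2
    exact ⟨h2, h1⟩

theorem nx_mem {ω : Finset (Dart X)} (hω : ω ⊆ G.E) {z : Dart X} (hz : z ∈ G.dS) :
    G.nx ω z ∈ G.dS := by
  rw [mem_dS] at hz ⊢
  by_cases h : G.op ω z
  · rw [nx_op h]; exact (op_mem hω h).2
  · rw [nx_cl h]; exact hz

theorem per_nx {ω : Finset (Dart X)} (hω : ω ⊆ G.E) : Per (G.nx ω) := by
  apply per_of_closed (nx_inj ω) (fun p => if p ∈ G.dS then G.dS else {p.1} ×ˢ univ)
  · intro p
    by_cases h : p ∈ G.dS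
    · simp only [if_pos h]; exact h
    · simp only [if_neg h]; simp
  · intro p z hz
    by_cases h : p ∈ G.dS
    · simp only [if_pos h] at hz ⊢
      exact nx_mem hω hz
    · simp only [if_neg h] at hz ⊢
      simp only [mem_product, mem_singleton, mem_univ, and_true] at hz ⊢
      have h1 : ¬ G.op ω z := by
        intro h2
        have := (op_mem hω h2).1
        rw [hz] at this
        exact h (mem_dS.2 this)
      rw [nx_cl h1]
      exact hz

theorem swp {ω : Finset (Dart X)} {e : Dart X} (hi : insert e ω ⊆ G.E) (he : e ∉ ω) :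
    Swp (G.nx ω) (G.nx (insert e ω)) e (G.opp e) := by
  have hω : ω ⊆ G.E := (subset_insert _ _).trans hi
  have hE : e ∈ G.E := hi (mem_insert_self _ _)
  have ho : G.opp e ∉ ω := fun h => G.rep e hE (hω h)
  have hne : e ≠ G.opp e := fun h => G.rep e hE (h ▸ hE)
  have n1 : ¬ G.op ω e := by
    rintro (h | h)
    · exact he h
    · exact ho h
  have n2 : ¬ G.op ω (G.opp e) := fun h => n1 (op_opp.1 h)
  have p1 : G.op (insert e ω) e := Or.inl (mem_insert_self _ _)
  have p2 : G.op (insert e ω) (G.opp e) := op_opp.2 p1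
  refine ⟨nx_inj _, nx_inj _, per_nx hω, per_nx hi, hne, ?_, ?_, ?_⟩
  · rw [nx_op p1, nx_cl n2]
  · rw [nx_op p2, nx_cl n1, G.inv]
  · intro p h1 h2
    have h3 : G.op (insert e ω) p ↔ G.op ω p := by
      unfold op
      rw [mem_insert, mem_insert]
      have h4 : G.opp p ≠ e := by
        intro h
        apply h2
        rw [← h, G.inv]
      tauto
    unfold nx
    by_cases h4 : G.op ω p
    · rw [if_pos h4, if_pos (h3.2 h4)]
    · rw [if_neg h4, if_neg (fun h => h4 (h3.1 h))]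

theorem not_op {ω : Finset (Dart X)} {e : Dart X} (hi : insert e ω ⊆ G.E) (he : e ∉ ω) :
    ¬ G.op ω e := by
  have hω : ω ⊆ G.E := (subset_insert _ _).trans hi
  have hE : e ∈ G.E := hi (mem_insert_self _ _)
  rintro (h | h)
  · exact he h
  · exact G.rep e hE (hω h)

theorem op_ins {ω : Finset (Dart X)} {e p : Dart X} (h1 : p ≠ e) (h2 : p ≠ G.opp e) :
    G.op (insert e ω) p ↔ G.op ω p := by
  unfold op
  rw [mem_insert, mem_insert]
  have h4 : G.opp p ≠ e := by
    intro h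
    apply h2
    rw [← h, G.inv]
  tauto

theorem dlt_ins {ω : Finset (Dart X)} {e : Dart X} (hi : insert e ω ⊆ G.E) (he : e ∉ ω)
    (z : Dart X) : G.dlt (insert e ω) z =
      G.dlt ω z + (if e = z then -2 else 0) + (if G.opp e = z then -2 else 0) := by
  have n1 := not_op hi he
  have hne := (swp hi he).ne
  have p1 : G.op (insert e ω) e := Or.inl (mem_insert_self _ _)
  unfold dlt
  by_cases h1 : e = z
  · subst h1
    rw [if_pos p1, if_neg n1, if_pos rfl, if_neg hne.symm]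
    norm_num
  · by_cases h2 : G.opp e = z
    · subst h2
      rw [if_pos (op_opp.2 p1), if_neg (fun h => n1 (op_opp.1 h)), if_neg h1, if_pos rfl]
      norm_num
    · have h3 := op_ins (G := G) (ω := ω) (e := e) (p := z) (fun h => h1 h.symm) (fun h => h2 h.symm)
      rw [if_neg h1, if_neg h2]
      by_cases h4 : G.op ω z
      · rw [if_pos h4, if_pos (h3.2 h4)]; ring
      · rw [if_neg h4, if_neg (fun h => h4 (h3.1 h))]; ring

open Classical in
theorem T_ins {ω : Finset (Dart X)} {e : Dart X} (hi : insert e ω ⊆ G.E) (he : e ∉ ω)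
    (p : Dart X) : G.T (insert e ω) p = osum (G.nx (insert e ω)) (G.dlt ω) p +
      (if Orb (G.nx (insert e ω)) p e then -2 else 0) +
      (if Orb (G.nx (insert e ω)) p (G.opp e) then -2 else 0) := by
  unfold T
  rw [osum_eq, osum_eq, Finset.sum_congr rfl (fun z _ => dlt_ins hi he z), Finset.sum_add_distrib,
    Finset.sum_add_distrib, Finset.sum_ite_eq, Finset.sum_ite_eq]
  simp only [List.mem_toFinset, mem_cyc (per_nx hi)]

theorem T_same {ω : Finset (Dart X)} {e : Dart X} (hi : insert e ω ⊆ G.E) (he : e ∉ ω)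
    (h : Orb (G.nx ω) e (G.opp e)) :
    G.T (insert e ω) e + G.T (insert e ω) (G.opp e) = G.T ω e - 4 := by
  obtain ⟨h1, h2, h3⟩ := (swp hi he).same h
  rw [T_ins hi he, T_ins hi he, if_pos (orb_refl _ _), if_neg h1, if_pos (orb_refl _ _),
    if_neg (fun h4 => h1 (orb_symm (per_nx hi) h4))]
  have h5 : G.T ω e = osum (G.nx ω) (G.dlt ω) e := rfl
  rw [h5, h3 (G.dlt ω)]
  ring

theorem T_diff {ω : Finset (Dart X)} {e : Dart X} (hi : insert e ω ⊆ G.E) (he : e ∉ ω)
    (h : ¬ Orb (G.nx ω) e (G.opp e)) :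
    G.T (insert e ω) e = G.T ω e + G.T ω (G.opp e) - 4 := by
  have h0 := (swp hi he).diff h
  obtain ⟨h1, h2, h3⟩ := (swp hi he).flip.same h0
  rw [T_ins hi he, if_pos (orb_refl _ _), if_pos h0, h3 (G.dlt ω)]
  show osum (G.nx ω) (G.dlt ω) e + osum (G.nx ω) (G.dlt ω) (G.opp e) + -2 + -2 =
    osum (G.nx ω) (G.dlt ω) e + osum (G.nx ω) (G.dlt ω) (G.opp e) - 4
  ring

theorem T_free {ω : Finset (Dart X)} {e : Dart X} (hi : insert e ω ⊆ G.E) (he : e ∉ ω)
    {p : Dart X} (n1 : ¬ Orb (G.nx ω) p e) (n2 : ¬ Orb (G.nx ω) p (G.opp e)) :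
    G.T (insert e ω) p = G.T ω p := by
  obtain ⟨h1, h2⟩ := (swp hi he).free n1 n2
  rw [T_ins hi he, if_neg (fun h => n1 ((h2 _).1 h)), if_neg (fun h => n2 ((h2 _).1 h))]
  unfold T osum
  rw [h1]
  ring

theorem T_orb {ω : Finset (Dart X)} (hω : ω ⊆ G.E) {p z : Dart X} (h : Orb (G.nx ω) p z) :
    G.T ω p = G.T ω z := osum_orb (per_nx hω) _ h

/-- the loop through `p`, before and after the edge `e` is opened -/
theorem loop_cases {ω : Finset (Dart X)} {e : Dart X} (hi : insert e ω ⊆ G.E) (he : e ∉ ω)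
    (p : Dart X) :
    (¬ Orb (G.nx ω) p e ∧ ¬ Orb (G.nx ω) p (G.opp e)) ∨
    (Orb (G.nx ω) e (G.opp e) ∧ Orb (G.nx ω) e p ∧
      (Orb (G.nx (insert e ω)) e p ∨ Orb (G.nx (insert e ω)) (G.opp e) p)) ∨
    (¬ Orb (G.nx ω) e (G.opp e) ∧ Orb (G.nx (insert e ω)) e p ∧
      (Orb (G.nx ω) e p ∨ Orb (G.nx ω) (G.opp e) p)) := by
  have hP := per_nx ((subset_insert _ _).trans hi)
  by_cases h0 : Orb (G.nx ω) e (G.opp e)
  · by_cases h1 : Orb (G.nx ω) p e
    · right; left
      exact ⟨h0, orb_symm hP h1, (((swp hi he).same h0).2.1 p).1 (orb_symm hP h1)⟩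
    · left
      exact ⟨h1, fun h2 => h1 (orb_trans h2 (orb_symm hP h0))⟩
  · have h3 := (swp hi he).diff h0
    have h4 := ((swp hi he).flip.same h3).2.1 p
    by_cases h1 : Orb (G.nx ω) p e
    · right; right
      exact ⟨h0, h4.2 (Or.inl (orb_symm hP h1)), Or.inl (orb_symm hP h1)⟩
    · by_cases h2 : Orb (G.nx ω) p (G.opp e)
      · right; right
        exact ⟨h0, h4.2 (Or.inr (orb_symm hP h2)), Or.inr (orb_symm hP h2)⟩
      · left
        exact ⟨h1, h2⟩

theorem gph_insert (ω : Finset (Dart X)) (e : Dart X) (x y : X) :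
    (G.gph (insert e ω)).Adj x y ↔
      (G.gph ω).Adj x y ∨ (x ≠ y ∧ ((x = e.1 ∧ y = (G.opp e).1) ∨ (x = (G.opp e).1 ∧ y = e.1))) := by
  simp only [gph, SimpleGraph.fromRel_adj, mem_insert]
  constructor
  · rintro ⟨hne, ⟨f, rfl | hf, h1, h2⟩ | ⟨f, rfl | hf, h1, h2⟩⟩
    · exact Or.inr ⟨hne, Or.inl ⟨h1.symm, h2.symm⟩⟩
    · exact Or.inl ⟨hne, Or.inl ⟨f, hf, h1, h2⟩⟩
    · exact Or.inr ⟨hne, Or.inr ⟨h2.symm, h1.symm⟩⟩
    · exact Or.inl ⟨hne, Or.inr ⟨f, hf, h1, h2⟩⟩
  · rintro (⟨hne, ⟨f, hf, h1, h2⟩ | ⟨f, hf, h1, h2⟩⟩ | ⟨hne, ⟨h1, h2⟩ | ⟨h1, h2⟩⟩)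
    · exact ⟨hne, Or.inl ⟨f, Or.inr hf, h1, h2⟩⟩
    · exact ⟨hne, Or.inr ⟨f, Or.inr hf, h1, h2⟩⟩
    · exact ⟨hne, Or.inl ⟨e, Or.inl rfl, h1.symm, h2.symm⟩⟩
    · exact ⟨hne, Or.inr ⟨e, Or.inl rfl, h2.symm, h1.symm⟩⟩

theorem reach_op {ω : Finset (Dart X)} {z : Dart X} (h : G.op ω z) :
    (G.gph ω).Reachable z.1 (G.opp z).1 := by
  by_cases h1 : z.1 = (G.opp z).1
  · rw [← h1]
  · apply SimpleGraph.Adj.reachable
    unfold gph
    rw [SimpleGraph.fromRel_adj]
    refine ⟨h1, ?_⟩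
    rcases h with h | h
    · exact Or.inl ⟨z, h, rfl, rfl⟩
    · refine Or.inr ⟨G.opp z, h, rfl, ?_⟩
      rw [G.inv]

theorem reach_nx (ω : Finset (Dart X)) (z : Dart X) : (G.gph ω).Reachable z.1 (G.nx ω z).1 := by
  by_cases h : G.op ω z
  · rw [nx_op h]; exact reach_op h
  · rw [nx_cl h]; exact SimpleGraph.Reachable.refl _

theorem reach_orb {ω : Finset (Dart X)} {p z : Dart X} (h : Orb (G.nx ω) p z) :
    (G.gph ω).Reachable p.1 z.1 := by
  obtain ⟨i, rfl⟩ := h
  induction i with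
  | zero => exact SimpleGraph.Reachable.refl _
  | succ i ih => rw [Function.iterate_succ_apply']; exact ih.trans (reach_nx ω _)

theorem gph_mono {ω ω' : Finset (Dart X)} (h : ω ⊆ ω') : G.gph ω ≤ G.gph ω' := by
  intro u v huv
  unfold gph at huv ⊢
  rw [SimpleGraph.fromRel_adj] at huv ⊢
  obtain ⟨h1, ⟨e, he, h2⟩ | ⟨e, he, h2⟩⟩ := huv
  · exact ⟨h1, Or.inl ⟨e, h he, h2⟩⟩
  · exact ⟨h1, Or.inr ⟨e, h he, h2⟩⟩

theorem gph_empty_reach {x y : X} (h : (G.gph ∅).Reachable x y) : x = y := by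
  obtain ⟨w⟩ := h
  cases w with
  | nil => rfl
  | cons hadj _ =>
    unfold gph at hadj
    rw [SimpleGraph.fromRel_adj] at hadj
    obtain ⟨_, ⟨e, he, _⟩ | ⟨e, he, _⟩⟩ := hadj
    · exact absurd he (notMem_empty _)
    · exact absurd he (notMem_empty _)

/-- at an isolated vertex the loop goes around the vertex -/
theorem iso_iter {ω : Finset (Dart X)} {x : X} (h : ∀ k, ¬ G.op ω (x, k)) (k : ZMod 4) (i : ℕ) :
    (G.nx ω)^[i] (x, k) = (x, k + i) := by
  induction i with
  | zero => simp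
  | succ i ih =>
    rw [Function.iterate_succ_apply', ih, nx_cl (h _)]
    unfold rot
    push_cast
    rw [add_assoc]

theorem iso_per {ω : Finset (Dart X)} {x : X} (h : ∀ k, ¬ G.op ω (x, k)) (k : ZMod 4) :
    Function.minimalPeriod (G.nx ω) (x, k) = 4 := by
  apply Nat.dvd_antisymm
  · apply Function.IsPeriodicPt.minimalPeriod_dvd
    show (G.nx ω)^[4] (x, k) = (x, k)
    rw [iso_iter h]
    have : ((4 : ℕ) : ZMod 4) = 0 := by decide
    rw [this, add_zero]
  · have h1 := iter_per (G.nx ω) (x, k)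
    rw [iso_iter h] at h1
    have h2 := congrArg Prod.snd h1
    simp only [add_eq_left] at h2
    exact (ZMod.natCast_eq_zero_iff _ _).1 h2

theorem iso_T {ω : Finset (Dart X)} {x : X} (h : ∀ k, ¬ G.op ω (x, k)) (k : ZMod 4) :
    G.T ω (x, k) = 4 := by
  unfold T
  rw [osum_range, iso_per h, Finset.sum_congr rfl (g := fun _ => (1 : ℤ))]
  · simp
  · intro i _
    rw [iso_iter h]
    unfold dlt
    rw [if_neg (h _)]

theorem iso_orb {ω : Finset (Dart X)} {x : X} (h : ∀ k, ¬ G.op ω (x, k)) (k l : ZMod 4) :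
    Orb (G.nx ω) (x, k) (x, l) := by
  refine ⟨(l - k).val, ?_⟩
  rw [iso_iter h, ZMod.natCast_zmod_val]
  simp

end Glue

end FKR
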