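import Pool.Agent.Lib.MP_216314_pr.R.Base

/-!
# Counting the loops
-/

set_option autoImplicit false

noncomputable section

namespace FKR

open Finset FKD

/-! ### Abstract orbits in a finite set -/

section abs

variable {α : Type} [DecidableEq α]

open Classical in
/-- the orbit as a finite set -/
def orbF (C : Finset α) (f : α → α) (z : α) : Finset α := C.filter (fun w => Orb f z w)

/-- the set of orbits -/
def orbs (C : Finset α) (f : α → α) : Finset (Finset α) := C.image (orbF C f)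

theorem mem_orbF {C : Finset α} {f : α → α} {z w : α} : w ∈ orbF C f z ↔ w ∈ C ∧ Orb f z w := by
  classical
  exact Finset.mem_filter

theorem orbF_eq {C : Finset α} {f : α → α} (hP : Per f) {z w : α} (h : Orb f z w) :
    orbF C f z = orbF C f w := by
  ext x
  rw [mem_orbF, mem_orbF]
  constructor
  · rintro ⟨h1, h2⟩
    exact ⟨h1, orb_trans (orb_symm hP h) h2⟩
  · rintro ⟨h1, h2⟩
    exact ⟨h1, orb_trans h h2⟩

theorem orbF_inj {C : Finset α} {f : α → α} {z w : α} (hw : w ∈ C)
    (h : orbF C f z = orbF C f w) : Orb f z w := by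
  have h1 : w ∈ orbF C f w := mem_orbF.2 ⟨hw, orb_refl _ _⟩
  rw [← h] at h1
  exact (mem_orbF.1 h1).2

theorem sum_orbs {C : Finset α} {f : α → α} (hP : Per f) (φ : α → ℤ) :
    ∑ z ∈ C, φ z = ∑ O ∈ orbs C f, ∑ z ∈ O, φ z := by
  have h1 : C = (orbs C f).biUnion id := by
    ext x
    simp only [orbs, mem_biUnion, mem_image, id]
    constructor
    · intro hx
      exact ⟨orbF C f x, ⟨x, hx, rfl⟩, mem_orbF.2 ⟨hx, orb_refl _ _⟩⟩
    · rintro ⟨O, ⟨y, _, rfl⟩, hx⟩
      exact (mem_orbF.1 hx).1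
  conv_lhs => rw [h1]
  rw [Finset.sum_biUnion]
  · rfl
  · intro O hO O' hO' hne
    simp only [orbs, coe_image, Set.mem_image, mem_coe] at hO hO'
    obtain ⟨y, _, rfl⟩ := hO
    obtain ⟨y', _, rfl⟩ := hO'
    show Disjoint (orbF C f y) (orbF C f y')
    rw [Finset.disjoint_left]
    intro x hx hx'
    apply hne
    rw [orbF_eq hP (mem_orbF.1 hx).2, orbF_eq hP (mem_orbF.1 hx').2]

theorem split_card {C : Finset α} {f f' : α → α} {c1 c2 : α} (h : Swp f f' c1 c2)
    (m1 : c1 ∈ C) (m2 : c2 ∈ C) (ho : Orb f c1 c2) :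
    (orbs C f').card = (orbs C f).card + 1 := by
  obtain ⟨s1, s2, -⟩ := h.same ho
  have key : orbs C f' = insert (orbF C f' c1) (insert (orbF C f' c2) ((orbs C f).erase (orbF C f c1))) := by
    ext O
    simp only [mem_insert, mem_erase]
    constructor
    · intro hO
      obtain ⟨z, hz, rfl⟩ := mem_image.1 hO
      by_cases hc : Orb f c1 z
      · rcases (s2 z).1 hc with h1 | h1
        · left; exact (orbF_eq h.per' h1).symm
        · right; left; exact (orbF_eq h.per' h1).symm
      · right; right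
        have n1 : ¬ Orb f z c1 := fun h1 => hc (orb_symm h.per h1)
        have n2 : ¬ Orb f z c2 := fun h1 => n1 (orb_trans h1 (orb_symm h.per ho))
        have e1 : orbF C f' z = orbF C f z := by
          ext w
          rw [mem_orbF, mem_orbF, (h.free n1 n2).2]
        rw [e1]
        refine ⟨?_, mem_image.2 ⟨z, hz, rfl⟩⟩
        intro h1
        exact n1 (orbF_inj m1 h1)
    · rintro (rfl | rfl | ⟨h1, h2⟩)
      · exact mem_image.2 ⟨c1, m1, rfl⟩
      · exact mem_image.2 ⟨c2, m2, rfl⟩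
      · obtain ⟨z, hz, rfl⟩ := mem_image.1 h2
        have n1 : ¬ Orb f z c1 := fun h3 => h1 (orbF_eq h.per h3)
        have n2 : ¬ Orb f z c2 := fun h3 => n1 (orb_trans h3 (orb_symm h.per ho))
        refine mem_image.2 ⟨z, hz, ?_⟩
        ext w
        rw [mem_orbF, mem_orbF, (h.free n1 n2).2]
  have a1 : orbF C f' c2 ∉ (orbs C f).erase (orbF C f c1) := by
    rw [mem_erase]
    rintro ⟨h1, h2⟩
    obtain ⟨z, hz, hz2⟩ := mem_image.1 h2
    apply h1
    have h3 : c2 ∈ orbF C f z := by rw [hz2]; exact mem_orbF.2 ⟨m2, orb_refl _ _⟩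
    rw [← hz2, orbF_eq h.per (mem_orbF.1 h3).2, orbF_eq h.per ho]
  have a2 : orbF C f' c1 ∉ insert (orbF C f' c2) ((orbs C f).erase (orbF C f c1)) := by
    rw [mem_insert, mem_erase]
    rintro (h1 | ⟨h1, h2⟩)
    · exact s1 (orbF_inj m2 h1)
    · obtain ⟨z, hz, hz2⟩ := mem_image.1 h2
      apply h1
      have h3 : c1 ∈ orbF C f z := by rw [hz2]; exact mem_orbF.2 ⟨m1, orb_refl _ _⟩
      rw [← hz2, orbF_eq h.per (mem_orbF.1 h3).2]
  have a3 : orbF C f c1 ∈ orbs C f := mem_image.2 ⟨c1, m1, rfl⟩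
  rw [key, card_insert_of_notMem a2, card_insert_of_notMem a1, card_erase_of_mem a3]
  have : 0 < (orbs C f).card := card_pos.2 ⟨_, a3⟩
  omega

end abs

namespace Glue

variable {X : Type} [DecidableEq X] {G : Glue X}

/-- number of loops -/
def no (G : Glue X) (ω : Finset (Dart X)) : ℕ := (orbs G.dS (G.nx ω)).card

/-- the genus defect -/
def gd (G : Glue X) (ω : Finset (Dart X)) : ℤ := 2 * G.clus ω + ω.card - G.S.card - G.no ω

theorem clus_ins {ω : Finset (Dart X)} {e : Dart X} (hi : insert e ω ⊆ G.E) :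
    ((G.gph ω).Reachable e.1 (G.opp e).1 → G.clus (insert e ω) = G.clus ω) ∧
    (¬ (G.gph ω).Reachable e.1 (G.opp e).1 → G.clus (insert e ω) + 1 = G.clus ω) := by
  have hE : e ∈ G.E := hi (mem_insert_self _ _)
  exact FKI.ncard_cc (gph_insert ω e) G.S.finite_toSet (Finset.mem_coe.2 (G.left e hE))
    (Finset.mem_coe.2 (G.right e hE))

theorem gd_ins {ω : Finset (Dart X)} {e : Dart X} (hi : insert e ω ⊆ G.E) (he : e ∉ ω) :
    G.gd ω ≤ G.gd (insert e ω) ∧
    ((G.gph ω).Reachable e.1 (G.opp e).1 → ¬ Orb (G.nx ω) e (G.opp e) →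
      G.gd ω + 2 ≤ G.gd (insert e ω)) := by
  have hE : e ∈ G.E := hi (mem_insert_self _ _)
  have m1 : e ∈ G.dS := mem_dS.2 (G.left e hE)
  have m2 : G.opp e ∈ G.dS := mem_dS.2 (G.right e hE)
  have hc := card_insert_of_notMem he
  have k := clus_ins hi
  by_cases ho : Orb (G.nx ω) e (G.opp e)
  · have h1 := split_card (swp hi he) m1 m2 ho
    have h2 := k.1 (reach_orb ho)
    unfold gd no
    rw [h1, h2, hc]
    push_cast
    refine ⟨by linarith, fun _ h => absurd ho h⟩
  · have h1 := split_card (swp hi he).flip m1 m2 ((swp hi he).diff ho)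
    by_cases hr : (G.gph ω).Reachable e.1 (G.opp e).1
    · have h2 := k.1 hr
      unfold gd no
      rw [h1, h2, hc]
      push_cast
      exact ⟨by linarith, fun _ _ => by linarith⟩
    · have h2 := k.2 hr
      unfold gd no
      rw [h1, ← h2, hc]
      push_cast
      exact ⟨by linarith, fun h => absurd h hr⟩

/-- induction from the larger to the smaller configuration -/
theorem down_ind {α : Type} [DecidableEq α] {ω ω' : Finset α} (h : ω ⊆ ω') {P : Finset α → Prop}
    (h0 : P ω')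
    (h1 : ∀ ω1 e, ω ⊆ ω1 → e ∉ ω1 → insert e ω1 ⊆ ω' → P (insert e ω1) → P ω1) : P ω := by
  have key : ∀ n, ∀ ω1, ω ⊆ ω1 → ω1 ⊆ ω' → (ω' \ ω1).card = n → P ω1 := by
    intro n
    induction n with
    | zero =>
      intro ω1 _ h3 h4
      rw [card_eq_zero, sdiff_eq_empty_iff_subset] at h4
      rw [subset_antisymm h3 h4]
      exact h0
    | succ n ih =>
      intro ω1 h2 h3 h4
      obtain ⟨e, he⟩ : (ω' \ ω1).Nonempty := by
        rw [← card_pos, h4]; omega
      rw [mem_sdiff] at he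
      have h5 : insert e ω1 ⊆ ω' := insert_subset he.1 h3
      refine h1 ω1 e h2 he.2 h5 (ih _ (h2.trans (subset_insert _ _)) h5 ?_)
      have h6 : ω' \ insert e ω1 = (ω' \ ω1).erase e := by
        ext x; simp only [mem_sdiff, mem_insert, mem_erase]; tauto
      rw [h6, card_erase_of_mem (mem_sdiff.2 he), h4]
      rfl
  exact key _ ω subset_rfl h rfl

/-- induction from the smaller to the larger configuration -/
theorem up_ind {α : Type} [DecidableEq α] {ω ω' : Finset α} (h : ω ⊆ ω') {P : Finset α → Prop}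
    (h0 : P ω)
    (h1 : ∀ ω1 e, ω ⊆ ω1 → e ∉ ω1 → insert e ω1 ⊆ ω' → P ω1 → P (insert e ω1)) : P ω' := by
  have := down_ind (P := fun ω1 => ¬ P ω1) h (ω' := ω')
  by_contra hc
  exact this hc (fun ω1 e h2 h3 h4 h5 h6 => h5 (h1 ω1 e h2 h3 h4 h6)) h0

theorem gd_mono {ω ω' : Finset (Dart X)} (h : ω ⊆ ω') (h' : ω' ⊆ G.E) : G.gd ω ≤ G.gd ω' := by
  refine up_ind (P := fun ω1 => G.gd ω ≤ G.gd ω1) h le_rfl ?_
  intro ω1 e _ h2 h3 h4
  exact h4.trans (gd_ins (h3.trans h') h2).1

theorem gd_empty : 0 ≤ G.gd ∅ := by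
  have h1 : G.clus ∅ = G.S.card := by
    unfold clus
    rw [Set.ncard_image_of_injOn, Set.ncard_coe_finset]
    intro x _ y _ hxy
    exact gph_empty_reach (SimpleGraph.ConnectedComponent.eq.1 hxy)
  have h2 : G.no ∅ ≤ G.S.card := by
    unfold no
    have : orbs G.dS (G.nx ∅) = G.S.image (fun x => orbF G.dS (G.nx ∅) (x, 0)) := by
      ext O
      constructor
      · intro hO
        obtain ⟨z, hz, rfl⟩ := mem_image.1 hO
        refine mem_image.2 ⟨z.1, mem_dS.1 hz, ?_⟩
        apply orbF_eq (per_nx (empty_subset _))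
        have := iso_orb (G := G) (ω := ∅) (x := z.1) (fun k => by simp [op]) 0 z.2
        exact this
      · intro hO
        obtain ⟨x, hx, rfl⟩ := mem_image.1 hO
        exact mem_image.2 ⟨(x, 0), mem_dS.2 hx, rfl⟩
    rw [this]
    exact card_image_le
  unfold gd
  rw [h1, card_empty]
  push_cast
  have h3 : (G.no ∅ : ℤ) ≤ G.S.card := by exact_mod_cast h2
  linarith

variable (G) in
/-- `G` is a disc tiled by squares with the dart `z0` on its boundary: it is connected, the walk
along the boundary from `z0` turns by `+4` quarter turns and passes at every dart without an edge,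
every other loop of the full configuration (face) turns by `-4` -/
structure Disc (z0 : Dart X) : Prop where
  mem : z0.1 ∈ G.S
  conn : ∀ u ∈ G.S, ∀ v ∈ G.S, (G.gph G.E).Reachable u v
  out : G.T G.E z0 = 4
  inn : ∀ z ∈ G.dS, ¬ Orb (G.nx G.E) z0 z → G.T G.E z = -4
  mis : ∀ z ∈ G.dS, ¬ G.op G.E z → Orb (G.nx G.E) z0 z

theorem sum_dlt : ∑ z ∈ G.dS, G.dlt G.E z = 4 * G.S.card - 4 * G.E.card := by
  have h1 : G.dS.filter (fun z => G.op G.E z) = G.E ∪ G.E.image G.opp := by
    ext z
    simp only [mem_filter, mem_union, mem_image]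
    constructor
    · rintro ⟨_, h | h⟩
      · exact Or.inl h
      · exact Or.inr ⟨_, h, G.inv z⟩
    · rintro (h | ⟨e, he, rfl⟩)
      · exact ⟨mem_dS.2 (G.left z h), Or.inl h⟩
      · exact ⟨mem_dS.2 (G.right e he), op_opp.2 (Or.inl he)⟩
  have h2 : (G.E ∪ G.E.image G.opp).card = 2 * G.E.card := by
    rw [card_union_of_disjoint, card_image_of_injective]
    · ring
    · intro x y h
      have := congrArg G.opp h
      rwa [G.inv, G.inv] at this
    · rw [Finset.disjoint_left]
      intro z hz hz'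
      obtain ⟨e, he, rfl⟩ := mem_image.1 hz'
      exact G.rep e he hz
  have h3 : ∀ z ∈ G.dS, G.dlt G.E z = 1 - 2 * (if G.op G.E z then 1 else 0) := by
    intro z _
    unfold dlt
    by_cases h : G.op G.E z
    · rw [if_pos h, if_pos h]; norm_num
    · rw [if_neg h, if_neg h]; norm_num
  have h4 : G.dS.card = 4 * G.S.card := by
    unfold dS
    rw [card_product, card_univ, ZMod.card]
    ring
  rw [Finset.sum_congr rfl h3, Finset.sum_sub_distrib, ← Finset.mul_sum, ← Finset.sum_filter, h1]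
  simp only [sum_const, nsmul_eq_mul, mul_one]
  rw [h2, h4]
  push_cast
  ring

theorem sum_orbF {ω : Finset (Dart X)} (hω : ω ⊆ G.E) {z : Dart X} (hz : z ∈ G.dS) :
    ∑ w ∈ orbF G.dS (G.nx ω) z, G.dlt ω w = G.T ω z := by
  unfold T
  rw [osum_eq]
  congr 1
  ext w
  rw [mem_orbF, List.mem_toFinset, mem_cyc (per_nx hω)]
  constructor
  · exact fun h => h.2
  · intro h
    refine ⟨?_, h⟩
    obtain ⟨i, rfl⟩ := h
    induction i with
    | zero => exact hz
    | succ i ih => rw [Function.iterate_succ_apply']; exact nx_mem hω ih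

theorem Disc.gd {z0 : Dart X} (h : G.Disc z0) : G.gd G.E = 0 := by
  have hz0 : z0 ∈ G.dS := mem_dS.2 h.mem
  have h1 : G.clus G.E = 1 := by
    unfold clus
    rw [Set.ncard_eq_one]
    refine ⟨(G.gph G.E).connectedComponentMk z0.1, ?_⟩
    ext c
    simp only [Set.mem_image, Set.mem_singleton_iff]
    constructor
    · rintro ⟨x, hx, rfl⟩
      exact SimpleGraph.ConnectedComponent.eq.2 (h.conn x hx z0.1 h.mem)
    · rintro rfl
      exact ⟨z0.1, h.mem, rfl⟩
  have h2 := sum_orbs (C := G.dS) (per_nx (G := G) subset_rfl) (G.dlt G.E)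
  rw [sum_dlt] at h2
  have h3 : orbF G.dS (G.nx G.E) z0 ∈ orbs G.dS (G.nx G.E) := mem_image.2 ⟨z0, hz0, rfl⟩
  rw [← Finset.add_sum_erase _ _ h3, sum_orbF subset_rfl hz0, h.out,
    Finset.sum_congr rfl (g := fun _ => (-4 : ℤ))] at h2
  · rw [sum_const, card_erase_of_mem h3, nsmul_eq_mul] at h2
    have h4 : 0 < (orbs G.dS (G.nx G.E)).card := card_pos.2 ⟨_, h3⟩
    unfold Glue.gd no
    rw [h1]
    push_cast [Nat.cast_sub (show 1 ≤ (orbs G.dS (G.nx G.E)).card from h4)] at h2 ⊢
    linarith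
  · intro O hO
    rw [mem_erase] at hO
    obtain ⟨h5, h6⟩ := hO
    obtain ⟨z, hz, rfl⟩ := mem_image.1 h6
    rw [sum_orbF subset_rfl hz]
    apply h.inn z hz
    intro h7
    exact h5 (orbF_eq (per_nx subset_rfl) h7).symm

/-- planarity -/
theorem Disc.planar {z0 : Dart X} (h : G.Disc z0) {ω : Finset (Dart X)} {e : Dart X}
    (hi : insert e ω ⊆ G.E) (he : e ∉ ω) (hr : (G.gph ω).Reachable e.1 (G.opp e).1) :
    Orb (G.nx ω) e (G.opp e) := by
  by_contra hc
  have h1 := (gd_ins hi he).2 hr hc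
  have h2 := gd_mono hi subset_rfl
  have h3 := gd_mono (empty_subset ω) ((subset_insert _ _).trans hi)
  have h4 := gd_empty (G := G)
  have h5 := h.gd
  linarith

end Glue

end FKR
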