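import Pool.Agent.Lib.MP_216314_pr.R.Main

/-!
# A criterion for discs; expectations
-/

set_option autoImplicit false

noncomputable section

namespace FKR

open Finset FKD FKI

namespace Glue

variable {X : Type} [DecidableEq X] {G : Glue X}

theorem wd_self {ω : Finset (Dart X)} (hω : ω ⊆ G.E) (z0 : Dart X) : G.wd ω z0 z0 = 0 := by
  have h := wd_iter (G := G) ω z0 (i := 0) (per_pos (per_nx hω) z0)
  rw [Function.iterate_zero, id] at h
  rw [h]
  unfold wind
  simp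

theorem wd_next {ω : Finset (Dart X)} (hω : ω ⊆ G.E) {z0 p : Dart X} (h : Orb (G.nx ω) z0 p)
    (hne : G.nx ω p ≠ z0) : G.wd ω z0 (G.nx ω p) = G.wd ω z0 p + G.dlt ω p := by
  have h1 := (mem_lp hω).2 h
  have h2 : p ∈ run (G.nx ω) z0 (G.len ω z0) := h1
  obtain ⟨i, hi, rfl⟩ := mem_run.1 h2
  have h3 : i + 1 < G.len ω z0 := by
    rcases Nat.lt_or_ge (i + 1) (G.len ω z0) with h3 | h3
    · exact h3
    · exfalso
      apply hne
      have h4 : i + 1 = G.len ω z0 := by omega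
      rw [← Function.iterate_succ_apply' (G.nx ω), show i.succ = G.len ω z0 from h4]
      exact iter_per _ _
  rw [← Function.iterate_succ_apply' (G.nx ω), wd_iter ω z0 hi, wd_iter ω z0 h3]
  unfold wind
  rw [Finset.sum_range_succ]

theorem T_last {ω : Finset (Dart X)} (hω : ω ⊆ G.E) {z0 p : Dart X} (h : Orb (G.nx ω) z0 p)
    (hne : G.nx ω p = z0) : G.T ω z0 = G.wd ω z0 p + G.dlt ω p := by
  have h1 := (mem_lp hω).2 h
  have h2 : p ∈ run (G.nx ω) z0 (G.len ω z0) := h1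
  obtain ⟨i, hi, rfl⟩ := mem_run.1 h2
  have h3 : G.len ω z0 = i + 1 := by
    have h4 : Function.IsPeriodicPt (G.nx ω) (i + 1) z0 := by
      show (G.nx ω)^[i + 1] z0 = z0
      rw [Function.iterate_succ_apply']
      exact hne
    have h5 := h4.minimalPeriod_le (by omega)
    have h6 : G.len ω z0 ≤ i + 1 := h5
    omega
  rw [wd_iter ω z0 hi]
  unfold T wind
  rw [osum_range]
  have h7 : Function.minimalPeriod (G.nx ω) z0 = i + 1 := h3
  rw [h7, Finset.sum_range_succ]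

/-- a face with four sides -/
theorem T_face {ω : Finset (Dart X)} {z z1 z2 z3 : Dart X} (o : G.op ω z)
    (o1 : G.op ω z1) (o2 : G.op ω z2) (o3 : G.op ω z3) (h1 : rot (G.opp z) = z1)
    (h2 : rot (G.opp z1) = z2) (h3 : rot (G.opp z2) = z3) (h4 : rot (G.opp z3) = z)
    (hne : z2 ≠ z) : G.T ω z = -4 := by
  have n1 : G.nx ω z = z1 := by rw [nx_op o]; exact h1
  have n2 : G.nx ω z1 = z2 := by rw [nx_op o1]; exact h2
  have n3 : G.nx ω z2 = z3 := by rw [nx_op o2]; exact h3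
  have n4 : G.nx ω z3 = z := by rw [nx_op o3]; exact h4
  have i1 : (G.nx ω)^[1] z = z1 := n1
  have i2 : (G.nx ω)^[2] z = z2 := by rw [Function.iterate_succ_apply', i1, n2]
  have i3 : (G.nx ω)^[3] z = z3 := by rw [Function.iterate_succ_apply', i2, n3]
  have i4 : (G.nx ω)^[4] z = z := by rw [Function.iterate_succ_apply', i3, n4]
  have hd : Function.minimalPeriod (G.nx ω) z ∣ 4 := Function.IsPeriodicPt.minimalPeriod_dvd i4
  have hle := Nat.le_of_dvd (by norm_num) hd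
  have hit := iter_per (G.nx ω) z
  have hmp : Function.minimalPeriod (G.nx ω) z = 4 := by
    generalize Function.minimalPeriod (G.nx ω) z = k at *
    interval_cases k
    · omega
    · exfalso
      apply hne
      have e : z1 = z := by rw [← i1]; exact hit
      rw [← n2, e, n1, e]
    · exfalso
      apply hne
      rw [← i2]; exact hit
    · omega
    · rfl
  have dd : ∀ y, G.op ω y → G.dlt ω y = -1 := fun y h => by unfold dlt; rw [if_pos h]
  unfold T
  rw [osum_range, hmp]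
  simp only [Finset.sum_range_succ, Finset.sum_range_zero, Function.iterate_zero, id]
  rw [i1, i2, i3, dd _ o, dd _ o1, dd _ o2, dd _ o3]
  norm_num

/-- following a walk backwards -/
theorem walk {z0 : Dart X} {B : Dart X → Prop} {h ρ : Dart X → ℤ}
    (h0 : h z0 = 0) (hρ : ∀ z, B z → 0 ≤ ρ z)
    (hB : ∀ z, B z → z ≠ z0 → ∃ p, B p ∧ G.nx G.E p = z ∧ ρ p < ρ z ∧ h z = h p + G.dlt G.E p) :
    ∀ z, B z → Orb (G.nx G.E) z0 z ∧ G.wd G.E z0 z = h z := by
  have key : ∀ n : ℕ, ∀ z, B z → ρ z < n → Orb (G.nx G.E) z0 z ∧ G.wd G.E z0 z = h z := by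
    intro n
    induction n with
    | zero =>
      intro z hz hn
      have := hρ z hz
      push_cast at hn
      omega
    | succ n ih =>
      intro z hz hn
      by_cases h1 : z = z0
      · subst h1
        exact ⟨orb_refl _ _, by rw [wd_self subset_rfl, h0]⟩
      · obtain ⟨p, hp, hpz, hpρ, hph⟩ := hB z hz h1
        obtain ⟨i1, i2⟩ := ih p hp (by push_cast at hn; omega)
        refine ⟨?_, ?_⟩
        · rw [← hpz]
          exact orb_trans i1 (orb_step _ _)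
        · rw [← hpz, wd_next subset_rfl i1 (by rw [hpz]; exact h1), i2, hpz, hph]
  intro z hz
  exact key ((ρ z).toNat + 1) z hz (by have := hρ z hz; omega)

/-! ### Expectations -/

/-- the critical random-cluster weight `(√q)^(open edges) q^(clusters)` -/
def wt (G : Glue X) (q : ℝ) (ω : Finset (Dart X)) : ℝ := √q ^ ω.card * q ^ G.clus ω

/-- expectation for the critical random-cluster model on `G` with the wired set `A` -/
def Ex (G : Glue X) (q : ℝ) (A : Finset (Dart X)) (F : Finset (Dart X) → ℝ) : ℝ :=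
  (∑ ω ∈ G.cfg A, G.wt q ω * F ω) / ∑ ω ∈ G.cfg A, G.wt q ω

open Classical in
/-- probability for the critical random-cluster model on `G` with the wired set `A` -/
def Pr (G : Glue X) (q : ℝ) (A : Finset (Dart X)) (P : Finset (Dart X) → Prop) : ℝ :=
  G.Ex q A (fun ω => if P ω then 1 else 0)

theorem wgt_sqrt {q : ℝ} (hq : 0 < q) (ω : Finset (Dart X)) : G.wgt (√q) ω = G.wt q ω := by
  unfold wgt wt
  rw [Real.sq_sqrt hq.le]

theorem wt_pos {q : ℝ} (hq : 0 < q) (ω : Finset (Dart X)) : 0 < G.wt q ω := by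
  unfold wt
  have : 0 < √q := Real.sqrt_pos.2 hq
  positivity

theorem Z_pos {q : ℝ} (hq : 0 < q) {A : Finset (Dart X)} (hA : A ⊆ G.E) :
    0 < ∑ ω ∈ G.cfg A, G.wt q ω := by
  apply Finset.sum_pos (fun ω _ => wt_pos hq ω)
  exact ⟨A, mem_cfg.2 ⟨hA, subset_rfl⟩⟩

theorem Ex_add (q : ℝ) (A : Finset (Dart X)) (F F' : Finset (Dart X) → ℝ) :
    G.Ex q A (fun ω => F ω + F' ω) = G.Ex q A F + G.Ex q A F' := by
  unfold Ex
  rw [← add_div, ← Finset.sum_add_distrib]
  congr 1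
  exact Finset.sum_congr rfl (fun ω _ => by ring)

theorem Ex_smul (q : ℝ) (A : Finset (Dart X)) (c : ℝ) (F : Finset (Dart X) → ℝ) :
    G.Ex q A (fun ω => c * F ω) = c * G.Ex q A F := by
  unfold Ex
  rw [mul_div_assoc', Finset.mul_sum]
  congr 1
  exact Finset.sum_congr rfl (fun ω _ => by ring)

theorem Ex_sum {ι : Type} (q : ℝ) (A : Finset (Dart X)) (s : Finset ι)
    (F : ι → Finset (Dart X) → ℝ) :
    G.Ex q A (fun ω => ∑ i ∈ s, F i ω) = ∑ i ∈ s, G.Ex q A (F i) := by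
  unfold Ex
  rw [← Finset.sum_div]
  congr 1
  rw [Finset.sum_comm]
  exact Finset.sum_congr rfl (fun ω _ => by rw [Finset.mul_sum])

theorem Ex_congr {q : ℝ} {A : Finset (Dart X)} {F F' : Finset (Dart X) → ℝ}
    (h : ∀ ω ∈ G.cfg A, F ω = F' ω) : G.Ex q A F = G.Ex q A F' := by
  unfold Ex
  congr 1
  exact Finset.sum_congr rfl (fun ω hω => by rw [h ω hω])

theorem Ex_nonneg {q : ℝ} (hq : 0 < q) {A : Finset (Dart X)} {F : Finset (Dart X) → ℝ}
    (h : ∀ ω ∈ G.cfg A, 0 ≤ F ω) : 0 ≤ G.Ex q A F := by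
  unfold Ex
  apply div_nonneg
  · exact Finset.sum_nonneg (fun ω hω => mul_nonneg (wt_pos hq ω).le (h ω hω))
  · exact Finset.sum_nonneg (fun ω _ => (wt_pos hq ω).le)

theorem Ex_mono {q : ℝ} (hq : 0 < q) {A : Finset (Dart X)} {F F' : Finset (Dart X) → ℝ}
    (h : ∀ ω ∈ G.cfg A, F ω ≤ F' ω) : G.Ex q A F ≤ G.Ex q A F' := by
  unfold Ex
  apply div_le_div_of_nonneg_right
  · exact Finset.sum_le_sum (fun ω hω => mul_le_mul_of_nonneg_left (h ω hω) (wt_pos hq ω).le)
  · exact Finset.sum_nonneg (fun ω _ => (wt_pos hq ω).le)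

theorem Ex_const {q : ℝ} (hq : 0 < q) {A : Finset (Dart X)} (hA : A ⊆ G.E) (c : ℝ) :
    G.Ex q A (fun _ => c) = c := by
  unfold Ex
  rw [← Finset.sum_mul]
  have := Z_pos (G := G) hq hA
  field_simp

open Classical in
theorem Pr_eq (q : ℝ) (A : Finset (Dart X)) (P : Finset (Dart X) → Prop) :
    G.Pr q A P = (∑ ω ∈ G.cfg A, if P ω then G.wt q ω else 0) / ∑ ω ∈ G.cfg A, G.wt q ω := by
  unfold Pr Ex
  congr 1
  apply Finset.sum_congr rfl
  intro ω _
  by_cases h : P ω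
  · simp only [if_pos h, mul_one]
  · simp only [if_neg h, mul_zero]

theorem Pr_W {q : ℝ} (hq : 0 < q) {A : Finset (Dart X)} {z0 z : Dart X}
    {P : Finset (Dart X) → Prop} (h : ∀ ω ∈ G.cfg A, (z ∈ G.lp ω z0 ↔ P ω)) :
    G.Pr q A P = G.W (√q) A z0 z / ∑ ω ∈ G.cfg A, G.wt q ω := by
  classical
  rw [Pr_eq]
  unfold W
  congr 1
  apply Finset.sum_congr rfl
  intro ω hω
  rw [wgt_sqrt hq]
  by_cases h5 : z ∈ G.lp ω z0
  · rw [if_pos h5, if_pos ((h ω hω).1 h5)]
  · rw [if_neg h5, if_neg (fun h6 => h5 ((h ω hω).2 h6))]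

/-- the sum rule for probabilities -/
theorem Disc.rule_Pr {z0 : Dart X} (H : G.Disc z0) {A : Finset (Dart X)} (hAE : A ⊆ G.E)
    (hc : ∀ e ∈ A, (G.gph A).Reachable z0.1 e.1) {g : ℤ → ℝ} {q : ℝ} (hq : 0 < q)
    (hg : ∀ w, g (w + 1) + g (w - 1) = √q * g w) :
    ∑ z ∈ G.dS.filter (fun z => ¬ G.op G.E z), g (G.wd G.E z0 z) *
        G.Pr q A (fun ω => (G.gph ω).Reachable z0.1 z.1) -
      ∑ z ∈ G.dS.filter (fun z => G.op A z), g (G.wd A z0 z - 1) *
        G.Pr q A (fun ω => Orb (G.nx ω) z0 z) =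
      g 0 + g 1 + g 2 + g 3 := by
  have h := H.rule hAE hc hg
  have hZ := Z_pos (G := G) hq hAE
  have hZe : ∑ ω ∈ G.cfg A, G.wgt (√q) ω = ∑ ω ∈ G.cfg A, G.wt q ω :=
    Finset.sum_congr rfl (fun ω _ => wgt_sqrt hq ω)
  rw [hZe] at h
  have e1 : ∀ (s : Finset (Dart X)) (u v : Dart X → ℝ) (Z : ℝ),
      ∑ z ∈ s, u z * (v z / Z) = (∑ z ∈ s, u z * v z) / Z := by
    intro s u v Z
    rw [Finset.sum_div]
    exact Finset.sum_congr rfl (fun z _ => by ring)
  have s1 : ∑ z ∈ G.dS.filter (fun z => ¬ G.op G.E z), g (G.wd G.E z0 z) *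
        G.Pr q A (fun ω => (G.gph ω).Reachable z0.1 z.1) =
      (∑ z ∈ G.dS.filter (fun z => ¬ G.op G.E z), g (G.wd G.E z0 z) * G.W (√q) A z0 z) /
        ∑ ω ∈ G.cfg A, G.wt q ω := by
    rw [← e1]
    apply Finset.sum_congr rfl
    intro z hz
    obtain ⟨h2, h3⟩ := mem_filter.1 hz
    rw [Pr_W hq (fun ω hω => H.mem_iff (mem_cfg.1 hω).1 h2 h3)]
  have s2 : ∑ z ∈ G.dS.filter (fun z => G.op A z), g (G.wd A z0 z - 1) *
        G.Pr q A (fun ω => Orb (G.nx ω) z0 z) =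
      (∑ z ∈ G.dS.filter (fun z => G.op A z), g (G.wd A z0 z - 1) * G.W (√q) A z0 z) /
        ∑ ω ∈ G.cfg A, G.wt q ω := by
    rw [← e1]
    apply Finset.sum_congr rfl
    intro z _
    rw [Pr_W hq (fun ω hω => mem_lp (mem_cfg.1 hω).1)]
  rw [s1, s2, ← sub_div, h]
  field_simp

end Glue

end FKR
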