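import Pool.Agent.Lib.MP_216314_pr.CC
import Pool.Agent.Lib.MP_216314_pr.R.Base

/-!
# FKG inequality and monotonicity in the domain (for graphs given by darts)
-/

set_option autoImplicit false
set_option linter.unusedSectionVars false

noncomputable section

namespace FKQ

open Finset FKR

variable {X : Type} [DecidableEq X] {o : Dart X → Dart X}

/-- the graph of the open edges -/
def gro (o : Dart X → Dart X) (ω : Finset (Dart X)) : SimpleGraph X :=
  SimpleGraph.fromRel (fun u v => ∃ e ∈ ω, e.1 = u ∧ (o e).1 = v)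

/-- number of clusters of `ω` among the vertices of `W` -/
def kc (o : Dart X → Dart X) (W : Finset X) (ω : Finset (Dart X)) : ℕ :=
  Set.ncard ((gro o ω).connectedComponentMk '' (W : Set X))

/-- the critical weight of a configuration -/
def wk (o : Dart X → Dart X) (s : ℝ) (W : Finset X) (ω : Finset (Dart X)) : ℝ :=
  s ^ ω.card * (s ^ 2) ^ kc o W ω

/-- the partition function -/
def ZZ (o : Dart X → Dart X) (s : ℝ) (W : Finset X) (E : Finset (Dart X)) : ℝ :=
  ∑ ω ∈ E.powerset, wk o s W ω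

/-- the expectation -/
def ex (o : Dart X → Dart X) (s : ℝ) (W : Finset X) (E : Finset (Dart X))
    (F : Finset (Dart X) → ℝ) : ℝ :=
  (∑ ω ∈ E.powerset, wk o s W ω * F ω) / ZZ o s W E

/-- all end points of the edges of `E` are in `W` -/
def Ends (o : Dart X → Dart X) (W : Finset X) (E : Finset (Dart X)) : Prop :=
  ∀ e ∈ E, e.1 ∈ W ∧ (o e).1 ∈ W

open Classical in
/-- indicator of a connection -/
def con (o : Dart X → Dart X) (u v : X) (ω : Finset (Dart X)) : ℝ :=
  if (gro o ω).Reachable u v then 1 else 0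

/-- the two point function -/
def tau (o : Dart X → Dart X) (s : ℝ) (W : Finset X) (E : Finset (Dart X)) (u v : X) : ℝ :=
  ex o s W E (con o u v)

theorem gro_insert (ω : Finset (Dart X)) (e : Dart X) (x y : X) :
    (gro o (insert e ω)).Adj x y ↔
      (gro o ω).Adj x y ∨ (x ≠ y ∧ ((x = e.1 ∧ y = (o e).1) ∨ (x = (o e).1 ∧ y = e.1))) := by
  simp only [gro, SimpleGraph.fromRel_adj, mem_insert]
  constructor
  · rintro ⟨hne, ⟨f, rfl | hf, h1, h2⟩ | ⟨f, rfl | hf, h1, h2⟩⟩
    · exact Or.inr ⟨hne, Or.inl ⟨h1.symm, h2.symm⟩⟩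
    · exact Or.inl ⟨hne, Or.inl ⟨f, hf, h1, h2⟩⟩
    · exact Or.inr ⟨hne, Or.inr ⟨h2.symm, h1.symm⟩⟩
    · exact Or.inl ⟨hne, Or.inr ⟨f, hf, h1, h2⟩⟩
  · rintro (⟨hne, ⟨f, hf, h1, h2⟩ | ⟨f, hf, h1, h2⟩⟩ | ⟨hne, ⟨h1, h2⟩ | ⟨h1, h2⟩⟩)
    · exact ⟨hne, Or.inl ⟨f, Or.inr hf, h1, h2⟩⟩
    · exact ⟨hne, Or.inr ⟨f, Or.inr hf, h1, h2⟩⟩
    · exact ⟨hne, Or.inl ⟨e, Or.inl rfl, h1.symm, h2.symm⟩⟩
    · exact ⟨hne, Or.inr ⟨e, Or.inl rfl, h2.symm, h1.symm⟩⟩


theorem gr_mono {A B : Finset (Dart X)} (h : A ⊆ B)   : gro o A ≤ gro o B := by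
  intro x y hxy
  rw [gro, SimpleGraph.fromRel_adj] at hxy ⊢
  obtain ⟨hne, ⟨e, he, h1⟩ | ⟨e, he, h1⟩⟩ := hxy
  · exact ⟨hne, Or.inl ⟨e, h he, h1⟩⟩
  · exact ⟨hne, Or.inr ⟨e, h he, h1⟩⟩

theorem kc_insert_reach {W : Finset X} {ω : Finset (Dart X)} {e : Dart X} (ha : e.1 ∈ W)
    (hb : (o e).1 ∈ W) (h : (gro o ω).Reachable (e.1) ((o e).1)) : kc o W (insert e ω) = kc o W ω :=
  (FKI.ncard_cc (gro_insert ω e) W.finite_toSet (mem_coe.2 ha) (mem_coe.2 hb)).1 h

theorem kc_insert_not {W : Finset X} {ω : Finset (Dart X)} {e : Dart X} (ha : e.1 ∈ W)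
    (hb : (o e).1 ∈ W) (h : ¬ (gro o ω).Reachable (e.1) ((o e).1)) : kc o W (insert e ω) + 1 = kc o W ω :=
  (FKI.ncard_cc (gro_insert ω e) W.finite_toSet (mem_coe.2 ha) (mem_coe.2 hb)).2 h

theorem qsup_step {W : Finset X} {E : Finset (Dart X)} (hE : Ends o W E) {A C : Finset (Dart X)}
    (hCA : C ⊆ A) (D : Finset (Dart X)) (hD : D ⊆ E) :
    kc o W A + kc o W (C ∪ D) ≤ kc o W C + kc o W (A ∪ D) := by
  induction D using Finset.induction_on with
  | empty => rw [union_empty, union_empty, add_comm]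
  | insert e D' he ih =>
    have hD' : D' ⊆ E := (subset_insert e D').trans hD
    have ih' := ih hD'
    have heE : e ∈ E := hD (mem_insert_self e D')
    obtain ⟨ha, hb⟩ := hE e heE
    have h1 : C ∪ insert e D' = insert e (C ∪ D') := union_insert e C D'
    have h2 : A ∪ insert e D' = insert e (A ∪ D') := union_insert e A D'
    rw [h1, h2]
    by_cases hr : (gro o (C ∪ D')).Reachable (e.1) ((o e).1)
    · have hr' : (gro o (A ∪ D')).Reachable (e.1) ((o e).1) :=
        hr.mono (gr_mono (union_subset_union_left hCA))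
      rw [kc_insert_reach ha hb hr, kc_insert_reach ha hb hr']
      exact ih'
    · have g1 := kc_insert_not ha hb hr
      by_cases hr' : (gro o (A ∪ D')).Reachable (e.1) ((o e).1)
      · rw [kc_insert_reach ha hb hr']
        omega
      · have g2 := kc_insert_not ha hb hr'
        omega

theorem kc_super {W : Finset X} {E : Finset (Dart X)} (hE : Ends o W E) {A B : Finset (Dart X)}
    (hA : A ⊆ E) (hB : B ⊆ E) : kc o W A + kc o W B ≤ kc o W (A ∩ B) + kc o W (A ∪ B) := by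
  have _ := hA
  have h := qsup_step hE (A := A) (C := A ∩ B) inter_subset_left B hB
  rwa [union_eq_right.2 inter_subset_right] at h

theorem wk_lattice {s : ℝ} (hs : 1 ≤ s) {W : Finset X} {E : Finset (Dart X)} (hE : Ends o W E)
    {A B : Finset (Dart X)} (hA : A ⊆ E) (hB : B ⊆ E) :
    wk o s W A * wk o s W B ≤ wk o s W (A ∩ B) * wk o s W (A ∪ B) := by
  have h0 : (0 : ℝ) ≤ s := by linarith
  have h1 : 1 ≤ s ^ 2 := one_le_pow₀ hs
  have hk := kc_super hE hA hB
  have hc : (A ∩ B).card + (A ∪ B).card = A.card + B.card := card_inter_add_card_union A B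
  have e1 : wk o s W A * wk o s W B = s ^ (A.card + B.card) * (s ^ 2) ^ (kc o W A + kc o W B) := by
    rw [wk, wk, pow_add, pow_add]
    ring
  have e2 : wk o s W (A ∩ B) * wk o s W (A ∪ B)
      = s ^ ((A ∩ B).card + (A ∪ B).card) * (s ^ 2) ^ (kc o W (A ∩ B) + kc o W (A ∪ B)) := by
    rw [wk, wk, pow_add, pow_add]
    ring
  rw [e1, e2, hc]
  exact mul_le_mul_of_nonneg_left (pow_le_pow_right₀ h1 hk) (pow_nonneg h0 _)



theorem wk_pos {s : ℝ} (hs : 0 < s) (W : Finset X) (ω : Finset (Dart X)) : 0 < wk o s W ω := by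
  unfold wk
  positivity

theorem ZZ_pos {s : ℝ} (hs : 0 < s) (W : Finset X) (E : Finset (Dart X)) : 0 < ZZ o s W E :=
  Finset.sum_pos (fun ω _ => wk_pos hs W ω) ⟨∅, Finset.empty_mem_powerset E⟩

theorem four {E : Finset (Dart X)} {f₁ f₂ f₃ f₄ : Finset (Dart X) → ℝ} (h₁ : ∀ A, 0 ≤ f₁ A)
    (h₂ : ∀ A, 0 ≤ f₂ A) (h₃ : ∀ A, 0 ≤ f₃ A) (h₄ : ∀ A, 0 ≤ f₄ A)
    (h : ∀ A ⊆ E, ∀ B ⊆ E, f₁ A * f₂ B ≤ f₃ (A ∩ B) * f₄ (A ∪ B)) :
    (∑ A ∈ E.powerset, f₁ A) * ∑ A ∈ E.powerset, f₂ A ≤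
      (∑ A ∈ E.powerset, f₃ A) * ∑ A ∈ E.powerset, f₄ A := by
  have h1 := Finset.four_functions_theorem (f₁ := f₁) (f₂ := f₂) (f₃ := f₃) (f₄ := f₄) E
    h₁ h₂ h₃ h₄ (fun A hA B hB => h A hA B hB) (Finset.Subset.refl E.powerset)
    (Finset.Subset.refl E.powerset)
  refine h1.trans (mul_le_mul ?_ ?_ (Finset.sum_nonneg fun A _ => h₄ A)
    (Finset.sum_nonneg fun A _ => h₃ A))
  · refine Finset.sum_le_sum_of_subset_of_nonneg (fun A hA => ?_) (fun A _ _ => h₃ A)
    obtain ⟨B, hB, C, hC, rfl⟩ := Finset.mem_infs.1 hA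
    rw [Finset.mem_powerset] at hB ⊢
    exact Finset.inter_subset_left.trans hB
  · refine Finset.sum_le_sum_of_subset_of_nonneg (fun A hA => ?_) (fun A _ _ => h₄ A)
    obtain ⟨B, hB, C, hC, rfl⟩ := Finset.mem_sups.1 hA
    rw [Finset.mem_powerset] at hB hC ⊢
    exact Finset.union_subset hB hC

theorem ex_fkg {s : ℝ} (hs : 1 ≤ s) {W : Finset X} {E : Finset (Dart X)} (hE : Ends o W E)
    {f g : Finset (Dart X) → ℝ} (hf0 : ∀ A, 0 ≤ f A) (hg0 : ∀ A, 0 ≤ g A)
    (hf : ∀ A B, A ⊆ B → f A ≤ f B) (hg : ∀ A B, A ⊆ B → g A ≤ g B) :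
    ex o s W E f * ex o s W E g ≤ ex o s W E (fun ω => f ω * g ω) := by
  have hs0 : 0 < s := zero_lt_one.trans_le hs
  have hw := fun ω => wk_pos (o := o) hs0 W ω
  have hZ := ZZ_pos (o := o) hs0 W E
  have h1 := four (E := E) (f₁ := fun A => wk o s W A * f A) (f₂ := fun A => wk o s W A * g A)
    (f₃ := wk o s W) (f₄ := fun A => wk o s W A * (f A * g A))
    (fun A => mul_nonneg (hw A).le (hf0 A)) (fun A => mul_nonneg (hw A).le (hg0 A))
    (fun A => (hw A).le) (fun A => mul_nonneg (hw A).le (mul_nonneg (hf0 A) (hg0 A)))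
    (fun A hA B hB => by
      have e1 := wk_lattice hs hE hA hB
      have e2 : f A * g B ≤ f (A ∪ B) * g (A ∪ B) :=
        mul_le_mul (hf _ _ Finset.subset_union_left) (hg _ _ Finset.subset_union_right)
          (hg0 B) (hf0 _)
      calc wk o s W A * f A * (wk o s W B * g B) = (wk o s W A * wk o s W B) * (f A * g B) := by ring
        _ ≤ (wk o s W (A ∩ B) * wk o s W (A ∪ B)) * (f (A ∪ B) * g (A ∪ B)) :=
            mul_le_mul e1 e2 (mul_nonneg (hf0 A) (hg0 B))
              (mul_nonneg (hw _).le (hw _).le)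
        _ = _ := by ring)
  unfold ex
  rw [div_mul_div_comm, div_le_div_iff₀ (mul_pos hZ hZ) hZ]
  have h2 : (∑ A ∈ E.powerset, wk o s W A) = ZZ o s W E := rfl
  rw [h2] at h1
  calc _ ≤ (ZZ o s W E * ∑ A ∈ E.powerset, wk o s W A * (f A * g A)) * ZZ o s W E :=
        mul_le_mul_of_nonneg_right h1 hZ.le
    _ = _ := by ring

theorem ex_fkg_dec {s : ℝ} (hs : 1 ≤ s) {W : Finset X} {E : Finset (Dart X)} (hE : Ends o W E)
    {f g : Finset (Dart X) → ℝ} (hf0 : ∀ A, 0 ≤ f A) (hg0 : ∀ A, 0 ≤ g A)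
    (hf : ∀ A B, A ⊆ B → f A ≤ f B) (hg : ∀ A B, A ⊆ B → g B ≤ g A) :
    ex o s W E (fun ω => f ω * g ω) ≤ ex o s W E f * ex o s W E g := by
  have hs0 : 0 < s := zero_lt_one.trans_le hs
  have hw := fun ω => wk_pos (o := o) hs0 W ω
  have hZ := ZZ_pos (o := o) hs0 W E
  have h1 := four (E := E) (f₁ := fun A => wk o s W A * (f A * g A)) (f₂ := wk o s W)
    (f₃ := fun A => wk o s W A * g A) (f₄ := fun A => wk o s W A * f A)
    (fun A => mul_nonneg (hw A).le (mul_nonneg (hf0 A) (hg0 A))) (fun A => (hw A).le)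
    (fun A => mul_nonneg (hw A).le (hg0 A)) (fun A => mul_nonneg (hw A).le (hf0 A))
    (fun A hA B hB => by
      have e1 := wk_lattice hs hE hA hB
      have e2 : f A * g A ≤ f (A ∪ B) * g (A ∩ B) :=
        mul_le_mul (hf _ _ Finset.subset_union_left) (hg _ _ Finset.inter_subset_left)
          (hg0 A) (hf0 _)
      calc wk o s W A * (f A * g A) * wk o s W B = (wk o s W A * wk o s W B) * (f A * g A) := by ring
        _ ≤ (wk o s W (A ∩ B) * wk o s W (A ∪ B)) * (f (A ∪ B) * g (A ∩ B)) :=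
            mul_le_mul e1 e2 (mul_nonneg (hf0 A) (hg0 A))
              (mul_nonneg (hw _).le (hw _).le)
        _ = _ := by ring)
  unfold ex
  rw [div_mul_div_comm, div_le_div_iff₀ hZ (mul_pos hZ hZ)]
  have h2 : (∑ A ∈ E.powerset, wk o s W A) = ZZ o s W E := rfl
  rw [h2] at h1
  calc _ = ((∑ A ∈ E.powerset, wk o s W A * (f A * g A)) * ZZ o s W E) * ZZ o s W E := by ring
    _ ≤ ((∑ A ∈ E.powerset, wk o s W A * g A) * ∑ A ∈ E.powerset, wk o s W A * f A) * ZZ o s W E :=
        mul_le_mul_of_nonneg_right h1 hZ.le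
    _ = _ := by ring



theorem qdom_iso {W : Finset X} {ω : Finset (Dart X)} (hω : Ends o W ω) {x y : X} (hx : x ∉ W)
    (h : (gro o ω).Reachable x y) : x = y := by
  obtain ⟨p⟩ := h
  cases p with
  | nil => rfl
  | cons h p =>
    exfalso
    apply hx
    rw [gro, SimpleGraph.fromRel_adj] at h
    obtain ⟨-, ⟨e, he, h1, -⟩ | ⟨e, he, -, h2⟩⟩ := h
    · rw [← h1]
      exact (hω e he).1
    · rw [← h2]
      exact (hω e he).2

theorem kc_larger {W W' : Finset X} {ω : Finset (Dart X)} (h : W ⊆ W') (hω : Ends o W ω) :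
    kc o W' ω = kc o W ω + (W' \ W).card := by
  have e1 : (W' : Set X) = (W : Set X) ∪ ((W' \ W : Finset X) : Set X) := by
    rw [← Finset.coe_union, Finset.union_sdiff_of_subset h]
  unfold kc
  rw [e1, Set.image_union]
  have hfin1 : ((gro o ω).connectedComponentMk '' (W : Set X)).Finite := W.finite_toSet.image _
  have hfin2 : ((gro o ω).connectedComponentMk '' ((W' \ W : Finset X) : Set X)).Finite :=
    (W' \ W).finite_toSet.image _
  have hdisj : Disjoint ((gro o ω).connectedComponentMk '' (W : Set X))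
      ((gro o ω).connectedComponentMk '' ((W' \ W : Finset X) : Set X)) := by
    rw [Set.disjoint_left]
    rintro c ⟨x, hx, rfl⟩ ⟨y, hy, hxy⟩
    have h1 : (gro o ω).Reachable y x := SimpleGraph.ConnectedComponent.eq.1 hxy
    have hy' := Finset.mem_sdiff.1 (Finset.mem_coe.1 hy)
    have h2 := qdom_iso hω hy'.2 h1
    rw [h2] at hy'
    exact hy'.2 (Finset.mem_coe.1 hx)
  rw [Set.ncard_union_eq hdisj hfin1 hfin2]
  congr 1
  rw [Set.InjOn.ncard_image, Set.ncard_coe_finset]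
  intro x hx y hy hxy
  have h1 : (gro o ω).Reachable x y := SimpleGraph.ConnectedComponent.eq.1 hxy
  exact qdom_iso hω (Finset.mem_sdiff.1 (Finset.mem_coe.1 hx)).2 h1

theorem wk_larger {s : ℝ} {W W' : Finset X} {ω : Finset (Dart X)} (h : W ⊆ W') (hω : Ends o W ω) :
    wk o s W' ω = (s ^ 2) ^ (W' \ W).card * wk o s W ω := by
  unfold wk
  rw [kc_larger h hω, pow_add]
  ring

theorem qdom_sum {s : ℝ} {W W' : Finset X} {E E' : Finset (Dart X)} (hW : W ⊆ W')
    (hEE : E ⊆ E') (hE : Ends o W E) (f : Finset (Dart X) → ℝ) :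
    ∑ ω ∈ E'.powerset, wk o s W' ω * (f ω * (if ω ⊆ E then 1 else 0))
      = (s ^ 2) ^ (W' \ W).card * ∑ ω ∈ E.powerset, wk o s W ω * f ω := by
  have h1 : ∑ ω ∈ E.powerset, wk o s W' ω * (f ω * (if ω ⊆ E then 1 else 0))
      = ∑ ω ∈ E'.powerset, wk o s W' ω * (f ω * (if ω ⊆ E then 1 else 0)) := by
    refine Finset.sum_subset (Finset.powerset_mono.2 hEE) fun ω _ hω => ?_
    rw [Finset.mem_powerset] at hω
    rw [if_neg hω, mul_zero, mul_zero]
  rw [← h1, Finset.mul_sum]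
  refine Finset.sum_congr rfl fun ω hω => ?_
  rw [Finset.mem_powerset] at hω
  rw [if_pos hω, mul_one, wk_larger hW (fun e he => hE e (hω he))]
  ring

theorem ex_mono {s : ℝ} (hs : 1 ≤ s) {W W' : Finset X} {E E' : Finset (Dart X)} (hW : W ⊆ W')
    (hEE : E ⊆ E') (hE : Ends o W E) (hE' : Ends o W' E') {f : Finset (Dart X) → ℝ}
    (hf0 : ∀ A, 0 ≤ f A) (hf : ∀ A B, A ⊆ B → f A ≤ f B) : ex o s W E f ≤ ex o s W' E' f := by
  have hs0 : 0 < s := zero_lt_one.trans_le hs
  have hZ := ZZ_pos (o := o) hs0 W E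
  have hZ' := ZZ_pos (o := o) hs0 W' E'
  have hc : 0 < (s ^ 2) ^ (W' \ W).card := by positivity
  have h1 := ex_fkg_dec hs hE' (f := f) (g := fun ω => if ω ⊆ E then 1 else 0) hf0
    (fun A => by positivity) hf (fun A B hAB => by
      by_cases hB : B ⊆ E
      · rw [if_pos hB, if_pos (hAB.trans hB)]
      · rw [if_neg hB]
        positivity)
  have h2 := qdom_sum (o := o) (s := s) hW hEE hE f
  have h3 := qdom_sum (o := o) (s := s) hW hEE hE (fun _ => 1)
  simp only [one_mul, mul_one] at h3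
  have h4 : ex o s W' E' (fun ω => f ω * if ω ⊆ E then 1 else 0)
      = (s ^ 2) ^ (W' \ W).card * (∑ ω ∈ E.powerset, wk o s W ω * f ω) / ZZ o s W' E' := by
    unfold ex
    rw [h2]
  have h5 : ex o s W' E' (fun ω => if ω ⊆ E then 1 else 0)
      = (s ^ 2) ^ (W' \ W).card * ZZ o s W E / ZZ o s W' E' := by
    unfold ex
    rw [h3]
    rfl
  rw [h4, h5] at h1
  have h6 : (∑ ω ∈ E.powerset, wk o s W ω * f ω) ≤ ex o s W' E' f * ZZ o s W E := by
    have h7 : ((s ^ 2) ^ (W' \ W).card / ZZ o s W' E') * (∑ ω ∈ E.powerset, wk o s W ω * f ω)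
        ≤ ((s ^ 2) ^ (W' \ W).card / ZZ o s W' E') * (ex o s W' E' f * ZZ o s W E) := by
      calc _ = (s ^ 2) ^ (W' \ W).card * (∑ ω ∈ E.powerset, wk o s W ω * f ω) / ZZ o s W' E' := by
            ring
        _ ≤ ex o s W' E' f * ((s ^ 2) ^ (W' \ W).card * ZZ o s W E / ZZ o s W' E') := h1
        _ = _ := by ring
    exact le_of_mul_le_mul_left h7 (div_pos hc hZ')
  unfold ex at h6 ⊢
  rw [div_le_iff₀ hZ]
  exact h6



theorem con_nonneg (u v : X) (ω : Finset (Dart X)) : 0 ≤ con o u v ω := by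
  unfold con
  split_ifs
  · exact zero_le_one
  · exact le_rfl

theorem qtau_con_le_one (u v : X) (ω : Finset (Dart X)) : con o u v ω ≤ 1 := by
  unfold con
  split_ifs
  · exact le_rfl
  · exact zero_le_one

theorem con_mono (u v : X) : ∀ A B : Finset (Dart X), A ⊆ B → con o u v A ≤ con o u v B := by
  intro A B hAB
  by_cases h : (gro o A).Reachable u v
  · have h' : (gro o B).Reachable u v := h.mono (gr_mono hAB)
    unfold con
    rw [if_pos h, if_pos h']
  · unfold con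
    rw [if_neg h]
    exact con_nonneg u v B

/-- monotonicity of the expectation -/
theorem qtau_ex_le {s : ℝ} (hs : 0 < s) (W : Finset X) (E : Finset (Dart X))
    {f g : Finset (Dart X) → ℝ} (h : ∀ ω, f ω ≤ g ω) : ex o s W E f ≤ ex o s W E g := by
  unfold ex
  refine div_le_div_of_nonneg_right ?_ (ZZ_pos (o := o) hs W E).le
  exact Finset.sum_le_sum fun ω _ => mul_le_mul_of_nonneg_left (h ω) (wk_pos hs W ω).le

theorem qtau_ex_one {s : ℝ} (hs : 0 < s) (W : Finset X) (E : Finset (Dart X)) :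
    ex o s W E (fun _ => 1) = 1 := by
  unfold ex
  simp only [mul_one]
  exact div_self (ZZ_pos (o := o) hs W E).ne'

theorem qtau_ex_zero (s : ℝ) (W : Finset X) (E : Finset (Dart X)) :
    ex o s W E (fun _ => 0) = 0 := by
  unfold ex
  simp only [mul_zero, Finset.sum_const_zero, zero_div]

theorem tau_nonneg {s : ℝ} (hs : 0 < s) (W : Finset X) (E : Finset (Dart X)) (u v : X) :
    0 ≤ tau o s W E u v := by
  have h := qtau_ex_le (o := o) hs W E (f := fun _ => 0) (g := con o u v) (con_nonneg u v)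
  rw [qtau_ex_zero] at h
  exact h

theorem tau_le_one {s : ℝ} (hs : 0 < s) (W : Finset X) (E : Finset (Dart X)) (u v : X) :
    tau o s W E u v ≤ 1 := by
  have h := qtau_ex_le (o := o) hs W E (f := con o u v) (g := fun _ => 1) (qtau_con_le_one u v)
  rw [qtau_ex_one hs] at h
  exact h

theorem tau_self {s : ℝ} (hs : 0 < s) (W : Finset X) (E : Finset (Dart X)) (u : X) :
    tau o s W E u u = 1 := by
  have h : con o u u = fun _ => 1 := by
    funext ω
    unfold con
    rw [if_pos (SimpleGraph.Reachable.refl u)]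
  unfold tau
  rw [h, qtau_ex_one hs]

theorem tau_comm (s : ℝ) (W : Finset X) (E : Finset (Dart X)) (u v : X) :
    tau o s W E u v = tau o s W E v u := by
  have h : con o u v = con o v u := by
    funext ω
    unfold con
    by_cases h : (gro o ω).Reachable u v
    · rw [if_pos h, if_pos h.symm]
    · rw [if_neg h, if_neg (fun h' => h h'.symm)]
  unfold tau
  rw [h]

theorem tau_mono {s : ℝ} (hs : 1 ≤ s) {W W' : Finset X} {E E' : Finset (Dart X)} (hW : W ⊆ W')
    (hEE : E ⊆ E') (hE : Ends o W E) (hE' : Ends o W' E') (u v : X) :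
    tau o s W E u v ≤ tau o s W' E' u v :=
  ex_mono hs hW hEE hE hE' (con_nonneg u v) (con_mono u v)

theorem tau_tri {s : ℝ} (hs : 1 ≤ s) {W : Finset X} {E : Finset (Dart X)} (hE : Ends o W E)
    (u v w : X) : tau o s W E u v * tau o s W E v w ≤ tau o s W E u w := by
  refine (ex_fkg hs hE (con_nonneg u v) (con_nonneg v w) (con_mono u v) (con_mono v w)).trans ?_
  refine qtau_ex_le (zero_lt_one.trans_le hs) W E fun ω => ?_
  by_cases h1 : (gro o ω).Reachable u v
  · by_cases h2 : (gro o ω).Reachable v w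
    · have h3 : con o u w ω = 1 := by
        unfold con
        rw [if_pos (h1.trans h2)]
      rw [h3]
      exact mul_le_one₀ (qtau_con_le_one u v ω) (con_nonneg v w ω) (qtau_con_le_one v w ω)
    · have h3 : con o v w ω = 0 := by
        unfold con
        rw [if_neg h2]
      rw [h3, mul_zero]
      exact con_nonneg u w ω
  · have h3 : con o u v ω = 0 := by
      unfold con
      rw [if_neg h1]
    rw [h3, zero_mul]
    exact con_nonneg u w ω

theorem tau_edge {s : ℝ} (hs : 1 ≤ s) {W : Finset X} {E : Finset (Dart X)} (hE : Ends o W E)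
    {e : Dart X} (he : e ∈ E) : 1 / (1 + s) ≤ tau o s W E (e.1) ((o e).1) := by
  by_cases hne : e.1 = (o e).1
  · rw [← hne, tau_self (by linarith : 0 < s)]
    rw [div_le_one (by linarith)]
    linarith
  have hends : Ends o ({e.1, (o e).1} : Finset X) {e} := by
    intro e' he'
    rw [mem_singleton] at he'
    subst he'
    simp
  have hW : ({e.1, (o e).1} : Finset X) ⊆ W := by
    intro v hv
    rw [mem_insert, mem_singleton] at hv
    rcases hv with rfl | rfl
    · exact (hE e he).1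
    · exact (hE e he).2
  refine le_trans (le_of_eq ?_) (tau_mono hs hW (singleton_subset_iff.2 he) hends hE (e.1) ((o e).1))
  have hbot : gro o ∅ = ⊥ := by
    ext x y
    simp [gro]
  have hnr : ¬ (gro o ∅).Reachable (e.1) ((o e).1) := by
    rw [hbot, SimpleGraph.reachable_bot]
    exact hne
  have hr : (gro o {e}).Reachable (e.1) ((o e).1) := by
    apply SimpleGraph.Adj.reachable
    unfold gro
    rw [SimpleGraph.fromRel_adj]
    exact ⟨hne, Or.inl ⟨e, mem_singleton_self e, rfl, rfl⟩⟩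
  have hk : kc o ({e.1, (o e).1} : Finset X) {e} + 1 = kc o ({e.1, (o e).1} : Finset X) ∅ := by
    have := kc_insert_not (o := o) (W := {e.1, (o e).1}) (ω := ∅) (e := e) (by simp) (by simp) hnr
    simpa using this
  have hc0 : con o (e.1) ((o e).1) ∅ = 0 := by
    unfold con
    rw [if_neg hnr]
  have hc1 : con o (e.1) ((o e).1) {e} = 1 := by
    unfold con
    rw [if_pos hr]
  have hsum : ∀ F : Finset (Dart X) → ℝ, ∑ ω ∈ ({e} : Finset (Dart X)).powerset, F ω = F ∅ + F {e} := by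
    intro F
    have h1 := sum_powerset_insert (notMem_empty e) F
    simpa using h1
  unfold tau ex ZZ
  rw [hsum, hsum, hc0, hc1]
  unfold wk
  rw [← hk, card_empty, card_singleton]
  set K := kc o ({e.1, (o e).1} : Finset X) {e}
  have hs0 : 0 < s := by linarith
  have hK : 0 < (s ^ 2) ^ K := by positivity
  rw [pow_succ]
  field_simp
  ring

theorem tau_tri' {s : ℝ} (hs : 1 ≤ s) {W : Finset X} {E : Finset (Dart X)} (hE : Ends o W E)
    (u : X) {e : Dart X} (he : e ∈ E) :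
    tau o s W E u e.1 ≤ (1 + s) * tau o s W E u (o e).1 ∧
      tau o s W E u (o e).1 ≤ (1 + s) * tau o s W E u e.1 := by
  have h1 := tau_edge hs hE he
  have h2 := tau_tri hs hE u e.1 (o e).1
  have h3 := tau_tri hs hE u (o e).1 e.1
  rw [tau_comm s W E (o e).1 e.1] at h3
  have hs0 : 0 < s := by linarith
  have n1 : 0 ≤ tau o s W E u e.1 := tau_nonneg hs0 W E u e.1
  have n2 : 0 ≤ tau o s W E u (o e).1 := tau_nonneg hs0 W E u (o e).1
  have h4 : 0 < 1 + s := by linarith
  constructor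
  · have h5 : tau o s W E u e.1 * (1 / (1 + s)) ≤ tau o s W E u (o e).1 :=
      (mul_le_mul_of_nonneg_left h1 n1).trans h2
    rw [mul_one_div, div_le_iff₀ h4] at h5
    linarith
  · have h5 : tau o s W E u (o e).1 * (1 / (1 + s)) ≤ tau o s W E u e.1 :=
      (mul_le_mul_of_nonneg_left h1 n2).trans h3
    rw [mul_one_div, div_le_iff₀ h4] at h5
    linarith

end FKQ
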