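import Pool.Agent.Lib.MP_216314_pr.R.Ind

/-!
# Histogram wedges

`J` rectangles `Q_0, …, Q_{J-1}`, `Q_i = [0, m i] × [0, m (i+1)]`, followed by the part of the quadrant `J` below
the graph of a function `h` on `[0, m J]`.
-/

set_option autoImplicit false

noncomputable section

namespace FKR

open Finset FKD FKI

/-- the vertices -/
def hS (J : ℕ) (m h : ℕ → ℕ) : Finset QV :=
  (range J).biUnion (fun i => {i} ×ˢ (range (m i + 1) ×ˢ range (m (i + 1) + 1))) ∪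
    (range (m J + 1)).biUnion (fun a => {J} ×ˢ ({a} ×ˢ range (h a + 1)))

theorem mem_hS {J : ℕ} {m h : ℕ → ℕ} {i a b : ℕ} : (i, a, b) ∈ hS J m h ↔
    (i < J ∧ a ≤ m i ∧ b ≤ m (i + 1)) ∨ (i = J ∧ a ≤ m J ∧ b ≤ h a) := by
  unfold hS
  simp only [mem_union, mem_biUnion, mem_range, mem_product, mem_singleton, Nat.lt_add_one_iff]
  constructor
  · rintro (⟨i', h1, rfl, h2, h3⟩ | ⟨a', h1, rfl, rfl, h3⟩)
    · exact Or.inl ⟨h1, h2, h3⟩
    · exact Or.inr ⟨rfl, h1, h3⟩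
  · rintro (⟨h1, h2, h3⟩ | ⟨rfl, h2, h3⟩)
    · exact Or.inl ⟨i, h1, rfl, h2, h3⟩
    · exact Or.inr ⟨a, h2, rfl, rfl, h3⟩

section

variable {J : ℕ} {m h : ℕ → ℕ} {i a b : ℕ}

theorem hop0 (hv : (i, a, b) ∈ hS J m h) :
    (ind (hS J m h)).op (ind (hS J m h)).E ((i, a, b), 0) ↔
      (i < J ∧ a < m i) ∨ (i = J ∧ a < m J ∧ b ≤ h (a + 1)) := by
  rw [iop0 hv, mem_hS]
  rw [mem_hS] at hv
  omega

theorem hop1 (hv : (i, a, b) ∈ hS J m h) :
    (ind (hS J m h)).op (ind (hS J m h)).E ((i, a, b), 1) ↔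
      (i < J ∧ b < m (i + 1)) ∨ (i = J ∧ b < h a) := by
  rw [iop1 hv, mem_hS]
  rw [mem_hS] at hv
  omega

theorem hop2 (hv : (i, a, b) ∈ hS J m h) :
    (ind (hS J m h)).op (ind (hS J m h)).E ((i, a, b), 2) ↔
      i < J ∨ (i = J ∧ 0 < a ∧ b ≤ h (a - 1)) := by
  cases a with
  | zero =>
    rw [iop2' hv, mem_hS]
    rw [mem_hS] at hv
    constructor
    · intro h1; omega
    · intro h1
      rcases Nat.lt_or_ge (i + 1) J with h2 | h2
      · left; omega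
      · right
        have h3 : i + 1 = J := by omega
        subst h3
        omega
  | succ a =>
    rw [iop2 hv, mem_hS]
    rw [mem_hS] at hv
    rw [Nat.add_sub_cancel]
    omega

theorem hop3 (hv : (i, a, b) ∈ hS J m h) :
    (ind (hS J m h)).op (ind (hS J m h)).E ((i, a, b), 3) ↔ (0 < b ∨ 0 < i) := by
  cases b with
  | zero =>
    cases i with
    | zero =>
      constructor
      · intro h1; exact absurd h1 iop3''
      · intro h1; omega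
    | succ i =>
      rw [iop3' hv, mem_hS]
      rw [mem_hS] at hv
      constructor
      · intro _; omega
      · intro _
        rcases hv with h1 | h1
        · left; omega
        · obtain ⟨rfl, h2, h3⟩ := h1
          left; omega
  | succ b =>
    rw [iop3 hv, mem_hS]
    rw [mem_hS] at hv
    constructor
    · intro _; omega
    · intro _; omega

end

/-- corners on the outer side -/
def hB (J : ℕ) (m h : ℕ → ℕ) : Dart QV → Prop
  | ((i, a, b), k) => (i, a, b) ∈ hS J m h ∧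
    (k = 0 → (i < J ∧ a = m i) ∨ (i = J ∧ (a = m J ∨ h (a + 1) < b)) ∨ (i = 0 ∧ b = 0)) ∧
    (k = 1 → (i < J ∧ (a = m i ∨ b = m (i + 1))) ∨ (i = J ∧ (a = m J ∨ h a ≤ b ∨ h (a + 1) ≤ b))) ∧
    (k = 2 → (i < J ∧ b = m (i + 1)) ∨ (i = J ∧ (a = 0 ∨ h a ≤ b ∨ h (a - 1) ≤ b))) ∧
    (k = 3 → (i < J ∧ a = 0 ∧ b = 0) ∨ (i = J ∧ (a = 0 ∨ h (a - 1) < b)) ∨ (i = 0 ∧ b = 0))

section

variable {J : ℕ} {m h : ℕ → ℕ} {i a b : ℕ}

theorem hB0 : hB J m h ((i, a, b), 0) ↔ (i, a, b) ∈ hS J m h ∧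
    ((i < J ∧ a = m i) ∨ (i = J ∧ (a = m J ∨ h (a + 1) < b)) ∨ (i = 0 ∧ b = 0)) := by
  unfold hB
  simp only [n01, n02, n03, false_implies, and_true, true_implies]

theorem hB1 : hB J m h ((i, a, b), 1) ↔ (i, a, b) ∈ hS J m h ∧
    ((i < J ∧ (a = m i ∨ b = m (i + 1))) ∨ (i = J ∧ (a = m J ∨ h a ≤ b ∨ h (a + 1) ≤ b))) := by
  unfold hB
  simp only [n10, n12, n13, false_implies, and_true, true_implies, true_and]

theorem hB2 : hB J m h ((i, a, b), 2) ↔ (i, a, b) ∈ hS J m h ∧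
    ((i < J ∧ b = m (i + 1)) ∨ (i = J ∧ (a = 0 ∨ h a ≤ b ∨ h (a - 1) ≤ b))) := by
  unfold hB
  simp only [n20, n21, n23, false_implies, and_true, true_implies, true_and]

theorem hB3 : hB J m h ((i, a, b), 3) ↔ (i, a, b) ∈ hS J m h ∧
    ((i < J ∧ a = 0 ∧ b = 0) ∨ (i = J ∧ (a = 0 ∨ h (a - 1) < b)) ∨ (i = 0 ∧ b = 0)) := by
  unfold hB
  simp only [n30, n31, n32, false_implies, true_implies, true_and]

end

/-- the winding -/
def hh (a0 : ℕ) : Dart QV → ℤ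
  | ((i, a, b), k) => if k = 0 then (if i = 0 ∧ b = 0 ∧ a < a0 then 4 else i) else
    if k = 1 then i + 1 else if k = 2 then i + 2 else (if i = 0 ∧ b = 0 ∧ a0 < a then -1 else i + 3)

/-- the position on the boundary -/
def hρ (J a0 M H mJ : ℕ) : Dart QV → ℤ
  | ((i, a, b), k) =>
    if k = 0 then
      (if i = 0 ∧ b = 0 then (if a < a0 then
          ((4 * M + 4) + J * (4 * M + 4) + (mJ + 1) * (4 * H + 8) + J + 1) + 2 * a + 1
          else 2 * a + 1)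
        else if i < J then (4 * M + 4) + i * (4 * M + 4) + 2 * b - 2 * a - 1
        else (4 * M + 4) + J * (4 * M + 4) + (mJ - a) * (4 * H + 8) + 2 * b)
    else if k = 1 then
      (if i < J then (4 * M + 4) + i * (4 * M + 4) + 2 * b - 2 * a
        else (4 * M + 4) + J * (4 * M + 4) + (mJ - a) * (4 * H + 8) + 2 * b + 1)
    else if k = 2 then
      (if i < J then (4 * M + 4) + i * (4 * M + 4) + 2 * b - 2 * a + 1
        else (4 * M + 4) + J * (4 * M + 4) + (mJ - a) * (4 * H + 8) + (2 * H + 4) + 2 * (H - b))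
    else
      (if i = 0 ∧ b = 0 ∧ 0 < a then (if a0 < a then 2 * a else
          ((4 * M + 4) + J * (4 * M + 4) + (mJ + 1) * (4 * H + 8) + J + 1) + 2 * a)
        else if i < J then (4 * M + 4) + J * (4 * M + 4) + (mJ + 1) * (4 * H + 8) + (J - i)
        else (4 * M + 4) + J * (4 * M + 4) + (mJ - a) * (4 * H + 8) + (2 * H + 4) + 2 * (H - b) + 1)

section

variable {J a0 M H mJ : ℕ} {i a b : ℕ}

theorem hh0 : hh a0 ((i, a, b), 0) = if i = 0 ∧ b = 0 ∧ a < a0 then 4 else (i : ℤ) := rfl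
theorem hh1 : hh a0 ((i, a, b), 1) = i + 1 := rfl
theorem hh2 : hh a0 ((i, a, b), 2) = i + 2 := rfl
theorem hh3 : hh a0 ((i, a, b), 3) = if i = 0 ∧ b = 0 ∧ a0 < a then -1 else (i : ℤ) + 3 := rfl
theorem hρ0 : hρ J a0 M H mJ ((i, a, b), 0) = (if i = 0 ∧ b = 0 then (if a < a0 then
          ((4 * (M : ℤ) + 4) + J * (4 * M + 4) + (mJ + 1) * (4 * H + 8) + J + 1) + 2 * a + 1
          else 2 * a + 1)
        else if i < J then (4 * M + 4) + i * (4 * M + 4) + 2 * b - 2 * a - 1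
        else (4 * M + 4) + J * (4 * M + 4) + (mJ - a) * (4 * H + 8) + 2 * b) := rfl
theorem hρ1 : hρ J a0 M H mJ ((i, a, b), 1) =
      (if i < J then (4 * (M : ℤ) + 4) + i * (4 * M + 4) + 2 * b - 2 * a
        else (4 * M + 4) + J * (4 * M + 4) + (mJ - a) * (4 * H + 8) + 2 * b + 1) := rfl
theorem hρ2 : hρ J a0 M H mJ ((i, a, b), 2) =
      (if i < J then (4 * (M : ℤ) + 4) + i * (4 * M + 4) + 2 * b - 2 * a + 1
        else (4 * M + 4) + J * (4 * M + 4) + (mJ - a) * (4 * H + 8) + (2 * H + 4) + 2 * (H - b)) := rfl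
theorem hρ3 : hρ J a0 M H mJ ((i, a, b), 3) =
      (if i = 0 ∧ b = 0 ∧ 0 < a then (if a0 < a then 2 * (a : ℤ) else
          ((4 * M + 4) + J * (4 * M + 4) + (mJ + 1) * (4 * H + 8) + J + 1) + 2 * a)
        else if i < J then (4 * M + 4) + J * (4 * M + 4) + (mJ + 1) * (4 * H + 8) + (J - i)
        else (4 * M + 4) + J * (4 * M + 4) + (mJ - a) * (4 * H + 8) + (2 * H + 4) + 2 * (H - b) + 1) :=
  rfl

theorem hρ0_a (h : a < a0) : hρ J a0 M H mJ ((0, a, 0), 0) =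
    ((4 * (M : ℤ) + 4) + J * (4 * M + 4) + (mJ + 1) * (4 * H + 8) + J + 1) + 2 * a + 1 := by
  rw [hρ0, if_pos ⟨rfl, rfl⟩, if_pos h]
theorem hρ0_b (h : a0 ≤ a) : hρ J a0 M H mJ ((0, a, 0), 0) = 2 * (a : ℤ) + 1 := by
  rw [hρ0, if_pos ⟨rfl, rfl⟩, if_neg (by omega)]
theorem hρ0_c (h : ¬ (i = 0 ∧ b = 0)) (h' : i < J) : hρ J a0 M H mJ ((i, a, b), 0) =
    (4 * (M : ℤ) + 4) + i * (4 * M + 4) + 2 * b - 2 * a - 1 := by
  rw [hρ0, if_neg h, if_pos h']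
theorem hρ0_d (h : ¬ (i = 0 ∧ b = 0)) (h' : ¬ i < J) : hρ J a0 M H mJ ((i, a, b), 0) =
    (4 * (M : ℤ) + 4) + J * (4 * M + 4) + (mJ - a) * (4 * H + 8) + 2 * b := by
  rw [hρ0, if_neg h, if_neg h']
theorem hρ1_a (h' : i < J) : hρ J a0 M H mJ ((i, a, b), 1) =
    (4 * (M : ℤ) + 4) + i * (4 * M + 4) + 2 * b - 2 * a := by
  rw [hρ1, if_pos h']
theorem hρ1_b (h' : ¬ i < J) : hρ J a0 M H mJ ((i, a, b), 1) =
    (4 * (M : ℤ) + 4) + J * (4 * M + 4) + (mJ - a) * (4 * H + 8) + 2 * b + 1 := by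
  rw [hρ1, if_neg h']
theorem hρ2_a (h' : i < J) : hρ J a0 M H mJ ((i, a, b), 2) =
    (4 * (M : ℤ) + 4) + i * (4 * M + 4) + 2 * b - 2 * a + 1 := by
  rw [hρ2, if_pos h']
theorem hρ2_b (h' : ¬ i < J) : hρ J a0 M H mJ ((i, a, b), 2) =
    (4 * (M : ℤ) + 4) + J * (4 * M + 4) + (mJ - a) * (4 * H + 8) + (2 * H + 4) + 2 * (H - b) := by
  rw [hρ2, if_neg h']
theorem hρ3_a (h : 0 < a) (h' : a0 < a) : hρ J a0 M H mJ ((0, a, 0), 3) = 2 * (a : ℤ) := by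
  rw [hρ3, if_pos ⟨rfl, rfl, h⟩, if_pos h']
theorem hρ3_b (h : 0 < a) (h' : a ≤ a0) : hρ J a0 M H mJ ((0, a, 0), 3) =
    ((4 * (M : ℤ) + 4) + J * (4 * M + 4) + (mJ + 1) * (4 * H + 8) + J + 1) + 2 * a := by
  rw [hρ3, if_pos ⟨rfl, rfl, h⟩, if_neg (by omega)]
theorem hρ3_c (h : ¬ (i = 0 ∧ b = 0 ∧ 0 < a)) (h' : i < J) : hρ J a0 M H mJ ((i, a, b), 3) =
    (4 * (M : ℤ) + 4) + J * (4 * M + 4) + (mJ + 1) * (4 * H + 8) + (J - i) := by
  rw [hρ3, if_neg h, if_pos h']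
theorem hρ3_d (h : ¬ (i = 0 ∧ b = 0 ∧ 0 < a)) (h' : ¬ i < J) : hρ J a0 M H mJ ((i, a, b), 3) =
    (4 * (M : ℤ) + 4) + J * (4 * M + 4) + (mJ - a) * (4 * H + 8) + (2 * H + 4) + 2 * (H - b) + 1 := by
  rw [hρ3, if_neg h, if_neg h']
theorem hh0_a (h : a < a0) : hh a0 ((0, a, 0), 0) = 4 := by rw [hh0, if_pos ⟨rfl, rfl, h⟩]
theorem hh0_b (h : ¬ (i = 0 ∧ b = 0 ∧ a < a0)) : hh a0 ((i, a, b), 0) = i := by rw [hh0, if_neg h]
theorem hh3_a (h : a0 < a) : hh a0 ((0, a, 0), 3) = -1 := by rw [hh3, if_pos ⟨rfl, rfl, h⟩]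
theorem hh3_b (h : ¬ (i = 0 ∧ b = 0 ∧ a0 < a)) : hh a0 ((i, a, b), 3) = i + 3 := by
  rw [hh3, if_neg h]

end

end FKR
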