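import Pool.Agent.Lib.MP_216314_pr.R.Hist

/-!
# The walk around a histogram wedge
-/

set_option autoImplicit false

noncomputable section

namespace FKR

open Finset FKD FKI

theorem cmul {a mJ H : ℕ} (h : a ≤ mJ) : (0 : ℤ) ≤ ((mJ : ℤ) - a) * (4 * H + 8) := by
  have h1 : (a : ℤ) ≤ mJ := by exact_mod_cast h
  have h2 : (0 : ℤ) ≤ (mJ : ℤ) - a := by linarith
  positivity

section

variable {J a0 M H : ℕ} {m h : ℕ → ℕ}

theorem hist_pred0 (hM : ∀ i ≤ J, m i ≤ M) (hH : ∀ a ≤ m J, h a ≤ H) (ha0 : a0 ≤ m 0)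
    {i a b : ℕ} (hz : hB J m h ((i, a, b), 0)) (hne : (((i, a, b), 0) : Dart QV) ≠ ((0, a0, 0), 0)) :
    ∃ p, hB J m h p ∧ (ind (hS J m h)).nx (ind (hS J m h)).E p = ((i, a, b), 0) ∧
      hρ J a0 M H (m J) p < hρ J a0 M H (m J) ((i, a, b), 0) ∧
      hh a0 ((i, a, b), 0) = hh a0 p + (ind (hS J m h)).dlt (ind (hS J m h)).E p := by
  obtain ⟨hv, hc⟩ := hB0.1 hz
  have hv' := mem_hS.1 hv
  have hMJ := hM J le_rfl
  by_cases hb : b = 0 ∧ i = 0
  · obtain ⟨rfl, rfl⟩ := hb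
    have hcl : ¬ (ind (hS J m h)).op (ind (hS J m h)).E ((0, a, 0), 3) := by
      rw [hop3 hv]; omega
    obtain ⟨e1, e2⟩ := pred_cl hcl
    have haa : a ≠ a0 := fun e => hne (by rw [e])
    refine ⟨((0, a, 0), 3), hB3.2 ⟨hv, Or.inr (Or.inr ⟨rfl, rfl⟩)⟩, by rw [e1, rot3], ?_, ?_⟩
    · rcases Nat.lt_or_ge a a0 with h1 | h1
      · rw [hρ0_a h1]
        rcases Nat.eq_zero_or_pos a with h2 | h2
        · subst h2
          by_cases h3 : 0 < J
          · rw [hρ3_c (by omega) h3]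
            push_cast; linarith
          · rw [hρ3_d (by omega) h3]
            have h5 : (0 : ℤ) ≤ J := Nat.cast_nonneg J
            push_cast
            linarith
        · rw [hρ3_b h2 h1.le]
          linarith
      · rw [hρ0_b h1, hρ3_a (by omega) (by omega)]
        linarith
    · rcases Nat.lt_or_ge a a0 with h1 | h1
      · rw [hh0_a h1, hh3_b (by omega), e2]; norm_num
      · rw [hh0_b (by omega), hh3_a (by omega), e2]; norm_num
  · have hop : (ind (hS J m h)).op (ind (hS J m h)).E ((i, a, b), 3) := by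
      rw [hop3 hv]; omega
    rcases Nat.eq_zero_or_pos b with hb0 | hb0
    · subst hb0
      obtain ⟨i, rfl⟩ : ∃ i', i = i' + 1 := ⟨i - 1, by omega⟩
      have ham : a = m (i + 1) := by
        rcases hc with h1 | ⟨h1, h2 | h2⟩ | h1
        · exact h1.2
        · rw [h1]; exact h2
        · omega
        · omega
      have hiJ : i + 1 ≤ J := by omega
      have hp : (ind (hS J m h)).opp ((i + 1, a, 0), 3) = ((i, 0, a), 2) := wopp3' i a
      obtain ⟨e1, e2⟩ := pred_op hop hp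
      have hM1 := hM (i + 1) hiJ
      have hmem : (i, 0, a) ∈ hS J m h := mem_hS.2 (Or.inl ⟨by omega, Nat.zero_le _, by omega⟩)
      refine ⟨((i, 0, a), 2), hB2.2 ⟨hmem, Or.inl ⟨by omega, ham⟩⟩, by rw [e1, rot3], ?_, ?_⟩
      · rw [hρ2_a (by omega)]
        have q1 := wmul (M := M) (show i < J by omega)
        have a1 : (a : ℤ) ≤ M := by rw [ham]; exact_mod_cast hM1
        by_cases h3 : i + 1 < J
        · rw [hρ0_c (by omega) h3]
          push_cast; linarith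
        · rw [hρ0_d (by omega) h3]
          have h4 : a = m J := by rw [ham]; congr 1; omega
          rw [← h4]
          push_cast
          linarith
      · rw [hh0_b (by omega), hh2, e2]; push_cast; ring
    · obtain ⟨b, rfl⟩ : ∃ b', b = b' + 1 := ⟨b - 1, by omega⟩
      have hp : (ind (hS J m h)).opp ((i, a, b + 1), 3) = ((i, a, b), 1) := wopp3 i a b
      obtain ⟨e1, e2⟩ := pred_op hop hp
      have hmem : (i, a, b) ∈ hS J m h := mem_hS.2 (by omega)
      refine ⟨((i, a, b), 1), hB1.2 ⟨hmem, ?_⟩, by rw [e1, rot3], ?_, ?_⟩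
      · rcases hc with h1 | ⟨h1, h2 | h2⟩ | h1
        · exact Or.inl ⟨h1.1, Or.inl h1.2⟩
        · exact Or.inr ⟨h1, Or.inl h2⟩
        · exact Or.inr ⟨h1, Or.inr (Or.inr (by omega))⟩
        · omega
      · by_cases h3 : i < J
        · rw [hρ0_c (by omega) h3, hρ1_a h3]
          push_cast; linarith
        · rw [hρ0_d (by omega) h3, hρ1_b h3]
          push_cast; linarith
      · rw [hh0_b (by omega), hh1, e2]; push_cast; ring

theorem hist_pred1 (hM : ∀ i ≤ J, m i ≤ M) (hH : ∀ a ≤ m J, h a ≤ H) (ha0 : a0 ≤ m 0)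
    {i a b : ℕ} (hz : hB J m h ((i, a, b), 1)) :
    ∃ p, hB J m h p ∧ (ind (hS J m h)).nx (ind (hS J m h)).E p = ((i, a, b), 1) ∧
      hρ J a0 M H (m J) p < hρ J a0 M H (m J) ((i, a, b), 1) ∧
      hh a0 ((i, a, b), 1) = hh a0 p + (ind (hS J m h)).dlt (ind (hS J m h)).E p := by
  obtain ⟨hv, hc⟩ := hB1.1 hz
  have hv' := mem_hS.1 hv
  have hMJ := hM J le_rfl
  have hM0 := hM 0 (Nat.zero_le _)
  by_cases hcl : (ind (hS J m h)).op (ind (hS J m h)).E ((i, a, b), 0)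
  · have hcl' := (hop0 hv).1 hcl
    have hp : (ind (hS J m h)).opp ((i, a, b), 0) = ((i, a + 1, b), 2) := wopp0 i a b
    obtain ⟨e1, e2⟩ := pred_op hcl hp
    have hmem : (i, a + 1, b) ∈ hS J m h := (iop0 hv).1 hcl
    refine ⟨((i, a + 1, b), 2), hB2.2 ⟨hmem, ?_⟩, by rw [e1, rot0], ?_, ?_⟩
    · rcases hc with ⟨h1, h2 | h2⟩ | ⟨h1, h2 | h2 | h2⟩
      · omega
      · exact Or.inl ⟨h1, h2⟩
      · omega
      · exact Or.inr ⟨h1, Or.inr (Or.inr h2)⟩
      · exact Or.inr ⟨h1, Or.inr (Or.inl h2)⟩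
    · by_cases h3 : i < J
      · rw [hρ1_a h3, hρ2_a h3]
        push_cast; linarith
      · rw [hρ1_b h3, hρ2_b h3]
        have hb : (b : ℤ) ≤ H := by
          have : b ≤ H := by
            have := hH a (by omega)
            omega
          exact_mod_cast this
        have hb0 : (0 : ℤ) ≤ b := Nat.cast_nonneg b
        push_cast
        linarith
    · rw [hh1, hh2, e2]; push_cast; ring
  · obtain ⟨e1, e2⟩ := pred_cl hcl
    rw [hop0 hv] at hcl
    have hnb : ¬ (i = 0 ∧ b = 0 ∧ a < a0) := by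
      rintro ⟨rfl, rfl, h3⟩
      rcases Nat.eq_zero_or_pos J with h4 | h4
      · subst h4; omega
      · omega
    refine ⟨((i, a, b), 0), hB0.2 ⟨hv, ?_⟩, by rw [e1, rot0], ?_, ?_⟩
    · rcases hv' with h1 | h1
      · exact Or.inl ⟨h1.1, by omega⟩
      · refine Or.inr (Or.inl ⟨h1.1, ?_⟩)
        by_contra h5
        push Not at h5
        apply hcl
        exact Or.inr ⟨h1.1, lt_of_le_of_ne h1.2.1 h5.1, h5.2⟩
    · by_cases h3 : i = 0 ∧ b = 0
      · obtain ⟨rfl, rfl⟩ := h3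
        rw [hρ0_b (by omega)]
        have q0 := wmul0 J M
        rcases hv' with h1 | h1
        · rw [hρ1_a h1.1]
          have a1 : (a : ℤ) ≤ M := by exact_mod_cast h1.2.1.trans hM0
          push_cast; linarith
        · obtain ⟨rfl, h2, h3⟩ := h1
          have a1 : (a : ℤ) ≤ M := by exact_mod_cast h2.trans hM0
          have c1 := cmul (H := H) h2
          rw [hρ1_b (by omega)]
          push_cast at c1 ⊢
          linarith
      · by_cases h4 : i < J
        · rw [hρ0_c h3 h4, hρ1_a h4]; linarith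
        · rw [hρ0_d h3 h4, hρ1_b h4]; linarith
    · rw [hh0_b hnb, hh1, e2]

theorem hist_pred2 (hM : ∀ i ≤ J, m i ≤ M) (hH : ∀ a ≤ m J, h a ≤ H) (ha0 : a0 ≤ m 0)
    {i a b : ℕ} (hz : hB J m h ((i, a, b), 2)) :
    ∃ p, hB J m h p ∧ (ind (hS J m h)).nx (ind (hS J m h)).E p = ((i, a, b), 2) ∧
      hρ J a0 M H (m J) p < hρ J a0 M H (m J) ((i, a, b), 2) ∧
      hh a0 ((i, a, b), 2) = hh a0 p + (ind (hS J m h)).dlt (ind (hS J m h)).E p := by
  obtain ⟨hv, hc⟩ := hB2.1 hz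
  have hv' := mem_hS.1 hv
  by_cases hcl : (ind (hS J m h)).op (ind (hS J m h)).E ((i, a, b), 1)
  · have hcl' := (hop1 hv).1 hcl
    have hp : (ind (hS J m h)).opp ((i, a, b), 1) = ((i, a, b + 1), 3) := wopp1 i a b
    obtain ⟨e1, e2⟩ := pred_op hcl hp
    have hmem : (i, a, b + 1) ∈ hS J m h := (iop1 hv).1 hcl
    refine ⟨((i, a, b + 1), 3), hB3.2 ⟨hmem, ?_⟩, by rw [e1, rot1], ?_, ?_⟩
    · rcases hc with ⟨h1, h2⟩ | ⟨h1, h2 | h2 | h2⟩
      · omega
      · exact Or.inr (Or.inl ⟨h1, Or.inl h2⟩)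
      · omega
      · exact Or.inr (Or.inl ⟨h1, Or.inr (by omega)⟩)
    · have hiJ : ¬ i < J := by omega
      rw [hρ2_b hiJ, hρ3_d (by omega) hiJ]
      push_cast; linarith
    · rw [hh2, hh3_b (by omega), e2]; ring
  · obtain ⟨e1, e2⟩ := pred_cl hcl
    rw [hop1 hv] at hcl
    refine ⟨((i, a, b), 1), hB1.2 ⟨hv, ?_⟩, by rw [e1, rot1], ?_, ?_⟩
    · rcases hv' with h1 | h1
      · exact Or.inl ⟨h1.1, Or.inr (by omega)⟩
      · exact Or.inr ⟨h1.1, Or.inr (Or.inl (by omega))⟩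
    · by_cases h4 : i < J
      · rw [hρ1_a h4, hρ2_a h4]; linarith
      · rw [hρ1_b h4, hρ2_b h4]
        have hb : (b : ℤ) ≤ H := by
          have : b ≤ H := by
            have := hH a (by omega)
            omega
          exact_mod_cast this
        linarith
    · rw [hh1, hh2, e2]; ring

theorem hist_pred3 (hM : ∀ i ≤ J, m i ≤ M) (hH : ∀ a ≤ m J, h a ≤ H) (ha0 : a0 ≤ m 0)
    {i a b : ℕ} (hz : hB J m h ((i, a, b), 3)) :
    ∃ p, hB J m h p ∧ (ind (hS J m h)).nx (ind (hS J m h)).E p = ((i, a, b), 3) ∧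
      hρ J a0 M H (m J) p < hρ J a0 M H (m J) ((i, a, b), 3) ∧
      hh a0 ((i, a, b), 3) = hh a0 p + (ind (hS J m h)).dlt (ind (hS J m h)).E p := by
  obtain ⟨hv, hc⟩ := hB3.1 hz
  have hv' := mem_hS.1 hv
  by_cases hcl : (ind (hS J m h)).op (ind (hS J m h)).E ((i, a, b), 2)
  · have hcl' := (hop2 hv).1 hcl
    rcases Nat.eq_zero_or_pos a with ha | ha
    · subst ha
      have hiJ : i < J := by omega
      have hb0 : b = 0 := by omega
      subst hb0
      have hp : (ind (hS J m h)).opp ((i, 0, 0), 2) = ((i + 1, 0, 0), 3) := wopp2' i 0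
      obtain ⟨e1, e2⟩ := pred_op hcl hp
      have hmem : (i + 1, 0, 0) ∈ hS J m h := (iop2' hv).1 hcl
      refine ⟨((i + 1, 0, 0), 3), hB3.2 ⟨hmem, ?_⟩, by rw [e1, rot2], ?_, ?_⟩
      · rcases Nat.lt_or_ge (i + 1) J with h1 | h1
        · exact Or.inl ⟨h1, rfl, rfl⟩
        · exact Or.inr (Or.inl ⟨by omega, Or.inl rfl⟩)
      · have h5 : (i : ℤ) + 1 ≤ J := by exact_mod_cast hiJ
        rw [hρ3_c (i := i) (by omega) hiJ]
        by_cases h6 : i + 1 < J
        · rw [hρ3_c (by omega) h6]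
          push_cast; linarith
        · rw [hρ3_d (by omega) h6]
          push_cast; linarith
      · rw [hh3_b (i := i) (by omega), hh3_b (i := i + 1) (by omega), e2]; push_cast; ring
    · obtain ⟨a, rfl⟩ : ∃ a', a = a' + 1 := ⟨a - 1, by omega⟩
      have hb : b = 0 ∧ i = 0 := by
        rw [Nat.add_sub_cancel] at hc hcl'
        omega
      obtain ⟨rfl, rfl⟩ := hb
      have hp : (ind (hS J m h)).opp ((0, a + 1, 0), 2) = ((0, a, 0), 0) := wopp2 0 a 0
      obtain ⟨e1, e2⟩ := pred_op hcl hp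
      have hmem : (0, a, 0) ∈ hS J m h := (iop2 hv).1 hcl
      refine ⟨((0, a, 0), 0), hB0.2 ⟨hmem, Or.inr (Or.inr ⟨rfl, rfl⟩)⟩, by rw [e1, rot2], ?_, ?_⟩
      · rcases Nat.lt_or_ge a a0 with h1 | h1
        · rw [hρ0_a h1, hρ3_b ha (by omega)]; push_cast; linarith
        · rw [hρ0_b h1, hρ3_a ha (by omega)]; push_cast; linarith
      · rcases Nat.lt_or_ge a a0 with h1 | h1
        · rw [hh0_a h1, hh3_b (by omega), e2]; norm_num
        · rw [hh0_b (by omega), hh3_a (by omega), e2]; norm_num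
  · obtain ⟨e1, e2⟩ := pred_cl hcl
    rw [hop2 hv] at hcl
    have hiJ : ¬ i < J := by omega
    have hnb : ¬ (i = 0 ∧ b = 0 ∧ 0 < a) := by
      rintro ⟨rfl, rfl, h3⟩
      omega
    refine ⟨((i, a, b), 2), hB2.2 ⟨hv, ?_⟩, by rw [e1, rot2], ?_, ?_⟩
    · rcases hc with h1 | ⟨h1, h2 | h2⟩ | h1
      · omega
      · exact Or.inr ⟨h1, Or.inl h2⟩
      · exact Or.inr ⟨h1, Or.inr (Or.inr h2.le)⟩
      · exact Or.inr ⟨by omega, Or.inl (by omega)⟩
    · rw [hρ2_b hiJ, hρ3_d hnb hiJ]; linarith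
    · rw [hh2, hh3_b (by omega), e2]; ring

end

end FKR
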