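import Pool.Agent.Lib.MP_216314_pr.R.Hist2

/-!
# Histogram wedges are discs
-/

set_option autoImplicit false

noncomputable section

namespace FKR

open Finset FKD FKI

section

variable {J a0 : ℕ} {m h : ℕ → ℕ}

/-- a bound for the sides -/
theorem le_bd (n : ℕ) (f : ℕ → ℕ) : ∀ i ≤ n, f i ≤ ∑ i ∈ range (n + 1), f i := by
  intro i hi
  exact Finset.single_le_sum (f := f) (fun _ _ => Nat.zero_le _) (mem_range.2 (by omega))

theorem hist_pred {M H : ℕ} (hM : ∀ i ≤ J, m i ≤ M) (hH : ∀ a ≤ m J, h a ≤ H) (ha0 : a0 ≤ m 0) :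
    ∀ z, hB J m h z → z ≠ ((0, a0, 0), 0) → ∃ p, hB J m h p ∧
      (ind (hS J m h)).nx (ind (hS J m h)).E p = z ∧
      hρ J a0 M H (m J) p < hρ J a0 M H (m J) z ∧
      hh a0 z = hh a0 p + (ind (hS J m h)).dlt (ind (hS J m h)).E p := by
  rintro ⟨⟨i, a, b⟩, k⟩ hz hne
  rcases k_cases k with rfl | rfl | rfl | rfl
  · exact hist_pred0 hM hH ha0 hz hne
  · exact hist_pred1 hM hH ha0 hz
  · exact hist_pred2 hM hH ha0 hz
  · exact hist_pred3 hM hH ha0 hz

theorem hist_rho {M H : ℕ} (hM : ∀ i ≤ J, m i ≤ M) (hH : ∀ a ≤ m J, h a ≤ H) (ha0 : a0 ≤ m 0) :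
    ∀ z, hB J m h z → 0 ≤ hρ J a0 M H (m J) z := by
  rintro ⟨⟨i, a, b⟩, k⟩ hz
  have hv : (i, a, b) ∈ hS J m h := hz.1
  have hv' := mem_hS.1 hv
  have hMJ := hM J le_rfl
  have q0 := wmul0 i M
  have q1 := wmul0 J M
  have c0 : (0 : ℤ) ≤ ((m J : ℕ) + 1) * (4 * H + 8) := by positivity
  have a0' : (0 : ℤ) ≤ a := Nat.cast_nonneg a
  have b0' : (0 : ℤ) ≤ b := Nat.cast_nonneg b
  have J0' : (0 : ℤ) ≤ J := Nat.cast_nonneg J
  have M0' : (0 : ℤ) ≤ M := Nat.cast_nonneg M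
  have H0' : (0 : ℤ) ≤ H := Nat.cast_nonneg H
  by_cases hi : i < J
  · have hv1 : a ≤ m i ∧ b ≤ m (i + 1) := by omega
    have a1 : (a : ℤ) ≤ M := by exact_mod_cast hv1.1.trans (hM i hi.le)
    have i1 : (i : ℤ) + 1 ≤ J := by exact_mod_cast hi
    rcases k_cases k with rfl | rfl | rfl | rfl
    · rw [hρ0]; split_ifs <;> linarith
    · rw [hρ1_a hi]; linarith
    · rw [hρ2_a hi]; linarith
    · rw [hρ3]; split_ifs <;> linarith
  · have hv1 : i = J ∧ a ≤ m J ∧ b ≤ h a := by omega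
    have c1 := cmul (H := H) hv1.2.1
    have b1 : (b : ℤ) ≤ H := by exact_mod_cast hv1.2.2.trans (hH a hv1.2.1)
    rcases k_cases k with rfl | rfl | rfl | rfl
    · rw [hρ0]; split_ifs <;> linarith
    · rw [hρ1_b hi]; linarith
    · rw [hρ2_b hi]; linarith
    · rw [hρ3]; split_ifs <;> linarith

theorem hist_walk (ha0 : a0 ≤ m 0) : ∀ z, hB J m h z →
    Orb ((ind (hS J m h)).nx (ind (hS J m h)).E) ((0, a0, 0), 0) z ∧
      (ind (hS J m h)).wd (ind (hS J m h)).E ((0, a0, 0), 0) z = hh a0 z :=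
  Glue.walk (B := hB J m h) (h := hh a0)
    (ρ := hρ J a0 (∑ i ∈ range (J + 1), m i) (∑ i ∈ range (m J + 1), h i) (m J))
    (by rw [hh0_b (by omega)]; rfl)
    (hist_rho (le_bd J m) (le_bd (m J) h) ha0) (hist_pred (le_bd J m) (le_bd (m J) h) ha0)

theorem hist_face {z : Dart QV} (hz : z.1 ∈ hS J m h) (hB' : ¬ hB J m h z) :
    (ind (hS J m h)).T (ind (hS J m h)).E z = -4 := by
  obtain ⟨⟨i, a, b⟩, k⟩ := z
  have hv : (i, a, b) ∈ hS J m h := hz
  have hv' := mem_hS.1 hv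
  rcases k_cases k with rfl | rfl | rfl | rfl
  · -- k = 0
    rw [hB0] at hB'
    have hc : ¬ ((i < J ∧ a = m i) ∨ (i = J ∧ (a = m J ∨ h (a + 1) < b)) ∨ (i = 0 ∧ b = 0)) :=
      fun h' => hB' ⟨hv, h'⟩
    rcases Nat.eq_zero_or_pos b with hb0 | hb0
    · subst hb0
      obtain ⟨i, rfl⟩ : ∃ i', i = i' + 1 := ⟨i - 1, by omega⟩
      have haM : a < m (i + 1) := by
        rcases hv' with h1 | h1
        · omega
        · rw [h1.1]; omega
      exact (gl_face (mem_hS.2 (Or.inl (by omega))) (mem_hS.2 (Or.inl (by omega))) hv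
        (mem_hS.2 (by omega))).2.1
    · obtain ⟨b, rfl⟩ : ∃ b', b = b' + 1 := ⟨b - 1, by omega⟩
      exact (sq_face (mem_hS.2 (by omega)) (mem_hS.2 (by omega)) hv (mem_hS.2 (by omega))).2.1
  · -- k = 1
    rw [hB1] at hB'
    have hc : ¬ ((i < J ∧ (a = m i ∨ b = m (i + 1))) ∨
      (i = J ∧ (a = m J ∨ h a ≤ b ∨ h (a + 1) ≤ b))) := fun h' => hB' ⟨hv, h'⟩
    exact (sq_face hv (mem_hS.2 (by omega)) (mem_hS.2 (by omega)) (mem_hS.2 (by omega))).1
  · -- k = 2
    rw [hB2] at hB'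
    have hc : ¬ ((i < J ∧ b = m (i + 1)) ∨ (i = J ∧ (a = 0 ∨ h a ≤ b ∨ h (a - 1) ≤ b))) :=
      fun h' => hB' ⟨hv, h'⟩
    rcases Nat.eq_zero_or_pos a with ha0 | ha0
    · subst ha0
      have hi : i < J := by omega
      have h1 : b < m (i + 1) := by omega
      rcases Nat.lt_or_ge (i + 1) J with h2 | h2
      · exact (gl_face hv (mem_hS.2 (Or.inl (by omega))) (mem_hS.2 (Or.inl (by omega)))
          (mem_hS.2 (Or.inl (by omega)))).1
      · have h3 : i + 1 = J := by omega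
        subst h3
        exact (gl_face hv (mem_hS.2 (Or.inl (by omega))) (mem_hS.2 (Or.inr (by omega)))
          (mem_hS.2 (Or.inr (by omega)))).1
    · obtain ⟨a, rfl⟩ : ∃ a', a = a' + 1 := ⟨a - 1, by omega⟩
      rw [Nat.add_sub_cancel] at hc
      exact (sq_face (mem_hS.2 (by omega)) hv (mem_hS.2 (by omega)) (mem_hS.2 (by omega))).2.2.2
  · -- k = 3
    rw [hB3] at hB'
    have hc : ¬ ((i < J ∧ a = 0 ∧ b = 0) ∨ (i = J ∧ (a = 0 ∨ h (a - 1) < b)) ∨ (i = 0 ∧ b = 0)) :=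
      fun h' => hB' ⟨hv, h'⟩
    rcases Nat.eq_zero_or_pos a with ha0 | ha0
    · subst ha0
      have hi : i < J := by omega
      obtain ⟨b, rfl⟩ : ∃ b', b = b' + 1 := ⟨b - 1, by omega⟩
      rcases Nat.lt_or_ge (i + 1) J with h2 | h2
      · exact (gl_face (mem_hS.2 (Or.inl (by omega))) hv (mem_hS.2 (Or.inl (by omega)))
          (mem_hS.2 (Or.inl (by omega)))).2.2.2
      · have h3 : i + 1 = J := by omega
        subst h3
        exact (gl_face (mem_hS.2 (Or.inl (by omega))) hv (mem_hS.2 (Or.inr (by omega)))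
          (mem_hS.2 (Or.inr (by omega)))).2.2.2
    · obtain ⟨a, rfl⟩ : ∃ a', a = a' + 1 := ⟨a - 1, by omega⟩
      rw [Nat.add_sub_cancel] at hc
      rcases Nat.eq_zero_or_pos b with hb0 | hb0
      · subst hb0
        obtain ⟨i, rfl⟩ : ∃ i', i = i' + 1 := ⟨i - 1, by omega⟩
        have haM : a + 1 ≤ m (i + 1) := by
          rcases hv' with h1 | h1
          · omega
          · rw [h1.1]; omega
        exact (gl_face (mem_hS.2 (Or.inl (by omega))) (mem_hS.2 (Or.inl (by omega)))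
          (mem_hS.2 (by omega)) hv).2.2.1
      · obtain ⟨b, rfl⟩ : ∃ b', b = b' + 1 := ⟨b - 1, by omega⟩
        exact (sq_face (mem_hS.2 (by omega)) (mem_hS.2 (by omega)) (mem_hS.2 (by omega)) hv).2.2.1

theorem hist_conn : ∀ i a b, (i, a, b) ∈ hS J m h →
    ((ind (hS J m h)).gph (ind (hS J m h)).E).Reachable (0, 0, 0) (i, a, b) := by
  -- along the bottom row
  have ra : ∀ i a, (i, a, 0) ∈ hS J m h →
      ((ind (hS J m h)).gph (ind (hS J m h)).E).Reachable (i, 0, 0) (i, a, 0) := by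
    intro i a
    induction a with
    | zero => intro _; exact SimpleGraph.Reachable.refl _
    | succ a ih =>
      intro hv
      have hv0 : (i, a, 0) ∈ hS J m h := by rw [mem_hS] at hv ⊢; omega
      exact (ih hv0).trans (Glue.reach_op ((iop0 hv0).2 hv))
  have rb : ∀ i a b, (i, a, b) ∈ hS J m h →
      ((ind (hS J m h)).gph (ind (hS J m h)).E).Reachable (i, a, 0) (i, a, b) := by
    intro i a b
    induction b with
    | zero => intro _; exact SimpleGraph.Reachable.refl _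
    | succ b ih =>
      intro hv
      have hv0 : (i, a, b) ∈ hS J m h := by rw [mem_hS] at hv ⊢; omega
      exact (ih hv0).trans (Glue.reach_op ((iop1 hv0).2 hv))
  have ri : ∀ i, i ≤ J → ((ind (hS J m h)).gph (ind (hS J m h)).E).Reachable (0, 0, 0) (i, 0, 0) := by
    intro i
    induction i with
    | zero => intro _; exact SimpleGraph.Reachable.refl _
    | succ i ih =>
      intro hi
      have hv0 : (i, 0, 0) ∈ hS J m h := mem_hS.2 (Or.inl (by omega))
      have hv : (i + 1, 0, 0) ∈ hS J m h := mem_hS.2 (by omega)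
      exact (ih (by omega)).trans (Glue.reach_op ((iop2' hv0).2 hv))
  intro i a b hv
  have hv' := mem_hS.1 hv
  have hv0 : (i, a, 0) ∈ hS J m h := by rw [mem_hS]; omega
  exact (ri i (by omega)).trans ((ra i a hv0).trans (rb i a b hv))

theorem hist_disc (ha0 : a0 ≤ m 0) : (ind (hS J m h)).Disc ((0, a0, 0), 0) where
  mem := by
    show (0, a0, 0) ∈ hS J m h
    rw [mem_hS]
    rcases Nat.eq_zero_or_pos J with h1 | h1
    · subst h1
      right; omega
    · left; omega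
  conn := by
    rintro ⟨i, a, b⟩ h1 ⟨i', a', b'⟩ h2
    exact (hist_conn i a b h1).symm.trans (hist_conn i' a' b' h2)
  out := by
    have hv : (0, a0, 0) ∈ hS J m h := by
      rw [mem_hS]
      rcases Nat.eq_zero_or_pos J with h1 | h1
      · subst h1
        right; omega
      · left; omega
    have hB' : hB J m h ((0, a0, 0), 3) := hB3.2 ⟨hv, Or.inr (Or.inr ⟨rfl, rfl⟩)⟩
    obtain ⟨h1, h2⟩ := hist_walk ha0 _ hB'
    have hcl : ¬ (ind (hS J m h)).op (ind (hS J m h)).E ((0, a0, 0), 3) := by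
      rw [hop3 hv]; omega
    obtain ⟨e1, e2⟩ := pred_cl hcl
    rw [Glue.T_last subset_rfl h1 (by rw [e1, rot3]), h2, e2, hh3_b (by omega)]
    norm_num
  inn := by
    intro z hz ho
    apply hist_face (Glue.mem_dS.1 hz)
    intro hB'
    exact ho (hist_walk ha0 z hB').1
  mis := by
    rintro ⟨⟨i, a, b⟩, k⟩ hz ho
    apply (hist_walk ha0 _ _).1
    have hv : (i, a, b) ∈ hS J m h := Glue.mem_dS.1 hz
    have hv' := mem_hS.1 hv
    rcases k_cases k with rfl | rfl | rfl | rfl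
    · rw [hop0 hv] at ho
      refine hB0.2 ⟨hv, ?_⟩
      omega
    · rw [hop1 hv] at ho
      refine hB1.2 ⟨hv, ?_⟩
      omega
    · rw [hop2 hv] at ho
      refine hB2.2 ⟨hv, ?_⟩
      omega
    · rw [hop3 hv] at ho
      refine hB3.2 ⟨hv, ?_⟩
      omega

end

end FKR
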