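import Pool.Agent.Lib.MP_216314_pr.R.Wedge

/-!
# Finite pieces of the infinite staircase of quadrants

The vertex `(i,a,b)` is the point `(a,b)` of the quadrant number `i`; the point `(0,b)` of the quadrant `i` is
adjacent to the point `(b,0)` of the quadrant `i + 1` (`wopp`, file `Wedge`).
-/

set_option autoImplicit false

noncomputable section

namespace FKR

open Finset FKD FKI

/-- a vertex: the point `(a,b)` of the quadrant `i` -/
abbrev QV := ℕ × ℕ × ℕ

/-- the edges between the vertices of `S`, each one given by one of its darts -/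
def indE (S : Finset QV) : Finset (Dart QV) :=
  (S ×ˢ univ).filter (fun z => (wopp z).1 ∈ S ∧ (z.2 = 0 ∨ z.2 = 1 ∨ (z.2 = 2 ∧ z.1.2.1 = 0)))

theorem mem_indE {S : Finset QV} {v : QV} {k : ZMod 4} : (v, k) ∈ indE S ↔
    v ∈ S ∧ (wopp (v, k)).1 ∈ S ∧ (k = 0 ∨ k = 1 ∨ (k = 2 ∧ v.2.1 = 0)) := by
  unfold indE
  rw [mem_filter, mem_product]
  simp only [mem_univ, and_true]

theorem n01 : ¬ ((0 : ZMod 4) = 1) := by decide
theorem n02 : ¬ ((0 : ZMod 4) = 2) := by decide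
theorem n03 : ¬ ((0 : ZMod 4) = 3) := by decide
theorem n10 : ¬ ((1 : ZMod 4) = 0) := by decide
theorem n12 : ¬ ((1 : ZMod 4) = 2) := by decide
theorem n13 : ¬ ((1 : ZMod 4) = 3) := by decide
theorem n20 : ¬ ((2 : ZMod 4) = 0) := by decide
theorem n21 : ¬ ((2 : ZMod 4) = 1) := by decide
theorem n23 : ¬ ((2 : ZMod 4) = 3) := by decide
theorem n30 : ¬ ((3 : ZMod 4) = 0) := by decide
theorem n31 : ¬ ((3 : ZMod 4) = 1) := by decide
theorem n32 : ¬ ((3 : ZMod 4) = 2) := by decide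

/-- the graph induced on `S` -/
def ind (S : Finset QV) : Glue QV where
  S := S
  opp := wopp
  E := indE S
  inv := wopp_inv
  rep := by
    rintro ⟨⟨i, a, b⟩, k⟩ h h'
    obtain ⟨_, _, rfl | rfl | ⟨rfl, h2⟩⟩ := mem_indE.1 h
    · rw [wopp0] at h'
      obtain ⟨_, _, h3 | h3 | ⟨_, h3⟩⟩ := mem_indE.1 h'
      · exact n20 h3
      · exact n21 h3
      · simp at h3
    · rw [wopp1] at h'
      obtain ⟨_, _, h3 | h3 | ⟨h3, _⟩⟩ := mem_indE.1 h'
      · exact n30 h3
      · exact n31 h3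
      · exact n32 h3
    · simp only at h2
      subst h2
      rw [wopp2'] at h'
      obtain ⟨_, _, h3 | h3 | ⟨h3, _⟩⟩ := mem_indE.1 h'
      · exact n30 h3
      · exact n31 h3
      · exact n32 h3
  left := by
    rintro ⟨v, k⟩ h
    exact (mem_indE.1 h).1
  right := by
    rintro ⟨v, k⟩ h
    exact (mem_indE.1 h).2.1

section

variable {S : Finset QV} {i a b : ℕ}

theorem iop_iff (z : Dart QV) : (ind S).op (ind S).E z ↔ (z ∈ indE S ∨ wopp z ∈ indE S) := Iff.rfl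

theorem iopp (z : Dart QV) : (ind S).opp z = wopp z := rfl

theorem iop0 (h : (i, a, b) ∈ S) : (ind S).op (ind S).E ((i, a, b), 0) ↔ (i, a + 1, b) ∈ S := by
  rw [iop_iff, wopp0, mem_indE, mem_indE, wopp0, wopp2]
  simp only [n20, n21, false_or, true_or, and_true, true_and, or_true]
  simp [h]

theorem iop1 (h : (i, a, b) ∈ S) : (ind S).op (ind S).E ((i, a, b), 1) ↔ (i, a, b + 1) ∈ S := by
  rw [iop_iff, wopp1, mem_indE, mem_indE, wopp1, wopp3]
  simp only [n10, n30, n31, n32, false_or, true_or, and_true, true_and, or_true, false_and, and_false,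
    or_false]
  simp [h]

theorem iop2 (h : (i, a + 1, b) ∈ S) : (ind S).op (ind S).E ((i, a + 1, b), 2) ↔ (i, a, b) ∈ S := by
  rw [iop_iff, wopp2, mem_indE, mem_indE, wopp0, wopp2]
  simp only [n20, n21, false_or, true_or, and_true, true_and, or_true]
  simp [h]

theorem iop2' (h : (i, 0, b) ∈ S) : (ind S).op (ind S).E ((i, 0, b), 2) ↔ (i + 1, b, 0) ∈ S := by
  rw [iop_iff, wopp2', mem_indE, mem_indE, wopp2', wopp3']
  simp only [n20, n21, n30, n31, n32, false_or, true_or, and_true, true_and, or_true, false_and,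
    and_false, or_false]
  simp [h]

theorem iop3 (h : (i, a, b + 1) ∈ S) : (ind S).op (ind S).E ((i, a, b + 1), 3) ↔ (i, a, b) ∈ S := by
  rw [iop_iff, wopp3, mem_indE, mem_indE, wopp1, wopp3]
  simp only [n10, n30, n31, n32, false_or, true_or, and_true, true_and, or_true, false_and, and_false,
    or_false]
  simp [h]

theorem iop3' (h : (i + 1, a, 0) ∈ S) :
    (ind S).op (ind S).E ((i + 1, a, 0), 3) ↔ (i, 0, a) ∈ S := by
  rw [iop_iff, wopp3', mem_indE, mem_indE, wopp2', wopp3']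
  simp only [n20, n21, n30, n31, n32, false_or, true_or, and_true, true_and, or_true, false_and,
    and_false, or_false]
  simp [h]

theorem iop3'' : ¬ (ind S).op (ind S).E ((0, a, 0), 3) := by
  rw [iop_iff, wopp3'', mem_indE]
  simp only [n30, n31, n32, false_or, false_and, and_false, not_false_eq_true]

/-- the four corners of an ordinary square -/
theorem sq_face (h1 : (i, a, b) ∈ S) (h2 : (i, a + 1, b) ∈ S) (h3 : (i, a, b + 1) ∈ S)
    (h4 : (i, a + 1, b + 1) ∈ S) :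
    (ind S).T (ind S).E ((i, a, b), 1) = -4 ∧ (ind S).T (ind S).E ((i, a, b + 1), 0) = -4 ∧
    (ind S).T (ind S).E ((i, a + 1, b + 1), 3) = -4 ∧
    (ind S).T (ind S).E ((i, a + 1, b), 2) = -4 := by
  have o1 := (iop1 h1).2 h3
  have o0 := (iop0 h3).2 h4
  have o3 := (iop3 h4).2 h2
  have o2 := (iop2 h2).2 h1
  have r1 : rot ((ind S).opp ((i, a, b), 1)) = ((i, a, b + 1), 0) := by rw [iopp, wopp1, rot3]
  have r0 : rot ((ind S).opp ((i, a, b + 1), 0)) = ((i, a + 1, b + 1), 3) := by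
    rw [iopp, wopp0, rot2]
  have r3 : rot ((ind S).opp ((i, a + 1, b + 1), 3)) = ((i, a + 1, b), 2) := by
    rw [iopp, wopp3, rot1]
  have r2 : rot ((ind S).opp ((i, a + 1, b), 2)) = ((i, a, b), 1) := by rw [iopp, wopp2, rot0]
  refine ⟨?_, ?_, ?_, ?_⟩
  · exact Glue.T_face o1 o0 o3 o2 r1 r0 r3 r2 (by simp)
  · exact Glue.T_face o0 o3 o2 o1 r0 r3 r2 r1 (by simp)
  · exact Glue.T_face o3 o2 o1 o0 r3 r2 r1 r0 (by simp)
  · exact Glue.T_face o2 o1 o0 o3 r2 r1 r0 r3 (by simp)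

/-- the four corners of a square between two quadrants -/
theorem gl_face (h1 : (i, 0, b) ∈ S) (h2 : (i, 0, b + 1) ∈ S) (h3 : (i + 1, b, 0) ∈ S)
    (h4 : (i + 1, b + 1, 0) ∈ S) :
    (ind S).T (ind S).E ((i, 0, b), 2) = -4 ∧ (ind S).T (ind S).E ((i + 1, b, 0), 0) = -4 ∧
    (ind S).T (ind S).E ((i + 1, b + 1, 0), 3) = -4 ∧
    (ind S).T (ind S).E ((i, 0, b + 1), 3) = -4 := by
  have o2 := (iop2' h1).2 h3
  have o0 := (iop0 h3).2 h4
  have o3 := (iop3' h4).2 h2
  have o3' := (iop3 h2).2 h1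
  have r2 : rot ((ind S).opp ((i, 0, b), 2)) = ((i + 1, b, 0), 0) := by rw [iopp, wopp2', rot3]
  have r0 : rot ((ind S).opp ((i + 1, b, 0), 0)) = ((i + 1, b + 1, 0), 3) := by
    rw [iopp, wopp0, rot2]
  have r3 : rot ((ind S).opp ((i + 1, b + 1, 0), 3)) = ((i, 0, b + 1), 3) := by
    rw [iopp, wopp3', rot2]
  have r3' : rot ((ind S).opp ((i, 0, b + 1), 3)) = ((i, 0, b), 2) := by rw [iopp, wopp3, rot1]
  refine ⟨?_, ?_, ?_, ?_⟩
  · exact Glue.T_face o2 o0 o3 o3' r2 r0 r3 r3' (by simp)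
  · exact Glue.T_face o0 o3 o3' o2 r0 r3 r3' r2 (by simp)
  · exact Glue.T_face o3 o3' o2 o0 r3 r3' r2 r0 (by simp)
  · exact Glue.T_face o3' o2 o0 o3 r3' r2 r0 r3 (by simp)

end

end FKR
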