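import Mathlib

/-!
# Iterated limits of sum rules

`E l x`, `0 ≤ l ≤ n + 1`, `x : ℕ → ℕ` the sizes; the side `l` (`1 ≤ l ≤ n`) is at distance `x (l - 1)`.
-/

set_option autoImplicit false

noncomputable section

namespace FKR

open Finset Filter Topology

/-- the sizes `x i`, `a ≤ i + 1 ≤ b`, vary, the other ones are those of `m` -/
def ext (a b : ℕ) (m y : ℕ → ℕ) : ℕ → ℕ :=
  fun i => if a ≤ i + 1 ∧ i + 1 ≤ b then max (y i) (m i) else m i

theorem le_ext (a b : ℕ) (m y : ℕ → ℕ) : m ≤ ext a b m y := by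
  intro i
  unfold ext
  split_ifs
  · exact le_max_right _ _
  · exact le_rfl

theorem ext_mono (a b : ℕ) (m : ℕ → ℕ) : Monotone (ext a b m) := by
  intro x y h i
  unfold ext
  split_ifs
  · exact max_le_max (h i) le_rfl
  · exact le_rfl

theorem ext_out {a b : ℕ} {m y : ℕ → ℕ} {i : ℕ} (h : ¬ (a ≤ i + 1 ∧ i + 1 ≤ b)) :
    ext a b m y i = m i := by
  unfold ext; rw [if_neg h]

/-- a system of sum rules -/
structure Sys (n : ℕ) where
  /-- the sums over the sides -/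
  E : ℕ → (ℕ → ℕ) → ℝ
  /-- the sum over the finite part -/
  L : (ℕ → ℕ) → ℝ
  /-- the starting point -/
  a0 : ℕ
  nonneg : ∀ l x, 0 ≤ E l x
  mono : ∀ l x y, l ≤ n + 1 → a0 ≤ x 0 → x ≤ y → (1 ≤ l → l ≤ n → x (l - 1) = y (l - 1)) →
    E l x ≤ E l y
  fin : ∀ l x, l ≤ n + 1 → E l x ≤ (if 2 ≤ l then (x (l - 2) : ℝ) + 1 else 0) +
    (if l < n then (x l : ℝ) + 1 else 0)
  Lmono : ∀ x y, a0 ≤ x 0 → x ≤ y → L x ≤ L y
  Lfin : ∀ x, L x ≤ a0
  Lnonneg : ∀ x, 0 ≤ L x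
  /-- one growing size -/
  base : ∀ a m, 1 ≤ a → a ≤ n → a0 ≤ m 0 →
    BddAbove (Set.range (fun y => E (a - 1) (ext a a m y))) →
    Tendsto (fun y => E a (ext a a m y)) atTop (𝓝 0)

namespace Sys

variable {n : ℕ} (Y : Sys n)

/-- `γ` are the coefficients of a sum rule -/
def IsRule (γ : ℕ → ℝ) (γL c : ℝ) : Prop :=
  ∀ x, Y.a0 ≤ x 0 → ∑ l ∈ range (n + 2), γ l * Y.E l x + γL * Y.L x = c

/-- the far sums tend to zero -/
def Z (a b : ℕ) (m : ℕ → ℕ) : Prop :=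
  ∀ l, a ≤ l → l ≤ b → Tendsto (fun y => Y.E l (ext a b m y)) atTop (𝓝 0)

/-- the neighbouring sides are bounded -/
def Bd (a b : ℕ) (m : ℕ → ℕ) : Prop :=
  BddAbove (Set.range (fun y => Y.E (a - 1) (ext a b m y))) ∧
    BddAbove (Set.range (fun y => Y.E (b + 1) (ext a b m y)))

variable {Y}

theorem bdd_out {a b l : ℕ} {m : ℕ → ℕ} (hl : l ≤ n + 1) (h : l + 1 < a ∨ b + 1 < l) :
    BddAbove (Set.range (fun y => Y.E l (ext a b m y))) := by
  refine ⟨(if 2 ≤ l then (m (l - 2) : ℝ) + 1 else 0) + (if l < n then (m l : ℝ) + 1 else 0), ?_⟩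
  rintro _ ⟨y, rfl⟩
  refine (Y.fin l _ hl).trans ?_
  rw [ext_out (i := l) (by omega)]
  by_cases h2 : 2 ≤ l
  · rw [ext_out (i := l - 2) (by omega)]
  · rw [if_neg h2, if_neg h2]

/-- in the regime `a, b` all the other sides are bounded -/
theorem bdd_near {a b l : ℕ} {m : ℕ → ℕ} (hB : Y.Bd a b m) (hl : l ≤ n + 1) (h : l < a ∨ b < l) :
    BddAbove (Set.range (fun y => Y.E l (ext a b m y))) := by
  rcases Nat.lt_or_ge (l + 1) a with h1 | h1
  · exact bdd_out hl (Or.inl h1)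
  · rcases Nat.lt_or_ge (b + 1) l with h2 | h2
    · exact bdd_out hl (Or.inr h2)
    · rcases h with h3 | h3
      · have : l = a - 1 := by omega
        rw [this]; exact hB.1
      · have : l = b + 1 := by omega
        rw [this]; exact hB.2

theorem mono_near {a b l : ℕ} {m : ℕ → ℕ} (hm : Y.a0 ≤ m 0) (hl : l ≤ n + 1) (h : l < a ∨ b < l) :
    Monotone (fun y => Y.E l (ext a b m y)) := by
  intro x y hxy
  apply Y.mono l _ _ hl (hm.trans (le_ext a b m x 0)) (ext_mono a b m hxy)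
  intro h1 _
  rw [ext_out (by omega), ext_out (by omega)]

theorem near_lim {a b l : ℕ} {m : ℕ → ℕ} (hm : Y.a0 ≤ m 0) (hB : Y.Bd a b m) (hl : l ≤ n + 1)
    (h : l < a ∨ b < l) : ∃ c, Tendsto (fun y => Y.E l (ext a b m y)) atTop (𝓝 c) :=
  ⟨_, tendsto_atTop_ciSup (mono_near hm hl h) (bdd_near hB hl h)⟩

theorem L_lim {a b : ℕ} {m : ℕ → ℕ} (hm : Y.a0 ≤ m 0) :
    ∃ c, Tendsto (fun y => Y.L (ext a b m y)) atTop (𝓝 c) := by
  refine ⟨_, tendsto_atTop_ciSup ?_ ⟨Y.a0, ?_⟩⟩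
  · intro x y hxy
    exact Y.Lmono _ _ (hm.trans (le_ext a b m x 0)) (ext_mono a b m hxy)
  · rintro _ ⟨y, rfl⟩
    exact Y.Lfin _

/-- the far part of a sum rule converges -/
theorem far_lim {a b : ℕ} {m : ℕ → ℕ} (hm : Y.a0 ≤ m 0) (hB : Y.Bd a b m)
    {γ : ℕ → ℝ} {γL c : ℝ} (hr : Y.IsRule γ γL c) :
    ∃ d, Tendsto (fun y => ∑ l ∈ (range (n + 2)).filter (fun l => a ≤ l ∧ l ≤ b),
      γ l * Y.E l (ext a b m y)) atTop (𝓝 d) := by
  classical
  obtain ⟨cL, hcL⟩ := L_lim (Y := Y) (a := a) (b := b) hm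
  have h1 : ∀ l, ∃ c, l ∈ (range (n + 2)).filter (fun l => ¬ (a ≤ l ∧ l ≤ b)) →
      Tendsto (fun y => Y.E l (ext a b m y)) atTop (𝓝 c) := by
    intro l
    by_cases hl : l ∈ (range (n + 2)).filter (fun l => ¬ (a ≤ l ∧ l ≤ b))
    · obtain ⟨h2, h3⟩ := mem_filter.1 hl
      rw [mem_range] at h2
      obtain ⟨c, hc⟩ := near_lim (Y := Y) hm hB (l := l) (by omega) (by omega)
      exact ⟨c, fun _ => hc⟩
    · exact ⟨0, fun h => absurd h hl⟩
  choose d hd using h1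
  refine ⟨c - ∑ l ∈ (range (n + 2)).filter (fun l => ¬ (a ≤ l ∧ l ≤ b)), γ l * d l - γL * cL, ?_⟩
  have h2 : (fun y => ∑ l ∈ (range (n + 2)).filter (fun l => a ≤ l ∧ l ≤ b),
      γ l * Y.E l (ext a b m y)) = fun y => c -
      ∑ l ∈ (range (n + 2)).filter (fun l => ¬ (a ≤ l ∧ l ≤ b)), γ l * Y.E l (ext a b m y) -
      γL * Y.L (ext a b m y) := by
    funext y
    have h3 := hr (ext a b m y) (hm.trans (le_ext a b m y 0))
    rw [← sum_filter_add_sum_filter_not (range (n + 2)) (fun l => a ≤ l ∧ l ≤ b)] at h3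
    linarith
  rw [h2]
  refine Tendsto.sub (Tendsto.sub tendsto_const_nhds ?_) (hcL.const_mul _)
  apply tendsto_finsetSum
  intro l hl
  exact (hd l hl).const_mul _

end Sys

end FKR
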