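import Pool.Agent.Lib.MP_216314_pr.R.Lim

/-!
# Iterated limits of sum rules: the induction
-/

set_option autoImplicit false

noncomputable section

namespace FKR

open Finset Filter Topology

theorem le_zero_of_eps {x C : ℝ} (h : ∀ ε : ℝ, 0 < ε → x ≤ ε * C) : x ≤ 0 := by
  by_contra hx
  push Not at hx
  rcases le_or_gt C 0 with h1 | h1
  · have := h 1 one_pos
    linarith
  · have := h (x / (2 * C)) (by positivity)
    have h2 : x / (2 * C) * C = x / 2 := by field_simp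
    rw [h2] at this
    linarith

theorem ext_upd_right {a b N : ℕ} {m y : ℕ → ℕ} (ha : a < b) (h1 : 1 ≤ a) :
    ext a b m (Function.update y (b - 1) N) =
      ext a (b - 1) (Function.update m (b - 1) (max N (m (b - 1)))) y := by
  funext i
  unfold ext
  by_cases hi : i = b - 1
  · subst hi
    rw [if_pos (by omega), if_neg (by omega), Function.update_self, Function.update_self]
  · rw [Function.update_of_ne hi, Function.update_of_ne hi]
    by_cases h2 : a ≤ i + 1 ∧ i + 1 ≤ b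
    · rw [if_pos h2, if_pos (by omega)]
    · rw [if_neg h2, if_neg (by omega)]

theorem ext_upd_left {a b N : ℕ} {m y : ℕ → ℕ} (ha : a < b) (h1 : 1 ≤ a) :
    ext a b m (Function.update y (a - 1) N) =
      ext (a + 1) b (Function.update m (a - 1) (max N (m (a - 1)))) y := by
  funext i
  unfold ext
  by_cases hi : i = a - 1
  · subst hi
    rw [if_pos (by omega), if_neg (by omega), Function.update_self, Function.update_self]
  · rw [Function.update_of_ne hi, Function.update_of_ne hi]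
    by_cases h2 : a ≤ i + 1 ∧ i + 1 ≤ b
    · rw [if_pos h2, if_pos (by omega)]
    · rw [if_neg h2, if_neg (by omega)]

theorem upd_zero {a0 j N : ℕ} {m : ℕ → ℕ} (hm : a0 ≤ m 0) :
    a0 ≤ Function.update m j (max N (m j)) 0 := by
  by_cases h : j = 0
  · subst h
    rw [Function.update_self]
    exact hm.trans (le_max_right _ _)
  · rw [Function.update_of_ne (Ne.symm h)]
    exact hm

namespace Sys

variable {n : ℕ} {Y : Sys n}

theorem freq_right {a b : ℕ} {m : ℕ → ℕ} (hab : a < b) (ha : 1 ≤ a) (hm : Y.a0 ≤ m 0)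
    (hZ : ∀ m', Y.a0 ≤ m' 0 → Y.Z a (b - 1) m') {ε : ℝ} (hε : 0 < ε) :
    ∃ᶠ y in atTop, ∀ l, a ≤ l → l ≤ b - 1 → Y.E l (ext a b m y) < ε := by
  rw [frequently_atTop]
  intro y0
  have h1 := hZ (Function.update m (b - 1) (max (y0 (b - 1)) (m (b - 1)))) (upd_zero hm)
  have h2 : ∀ᶠ y in atTop, ∀ l ∈ Finset.Icc a (b - 1),
      Y.E l (ext a (b - 1) (Function.update m (b - 1) (max (y0 (b - 1)) (m (b - 1)))) y) < ε := by
    rw [Finset.eventually_all]
    intro l hl
    rw [Finset.mem_Icc] at hl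
    exact (h1 l hl.1 hl.2).eventually (gt_mem_nhds hε)
  obtain ⟨y, hy, hy0⟩ := (h2.and (eventually_ge_atTop y0)).exists
  refine ⟨Function.update y (b - 1) (y0 (b - 1)), ?_, ?_⟩
  · intro i
    by_cases hi : i = b - 1
    · subst hi; rw [Function.update_self]
    · rw [Function.update_of_ne hi]; exact hy0 i
  · intro l h3 h4
    rw [ext_upd_right hab ha]
    exact hy l (Finset.mem_Icc.2 ⟨h3, h4⟩)

theorem freq_left {a b : ℕ} {m : ℕ → ℕ} (hab : a < b) (ha : 1 ≤ a) (hm : Y.a0 ≤ m 0)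
    (hZ : ∀ m', Y.a0 ≤ m' 0 → Y.Z (a + 1) b m') {ε : ℝ} (hε : 0 < ε) :
    ∃ᶠ y in atTop, ∀ l, a + 1 ≤ l → l ≤ b → Y.E l (ext a b m y) < ε := by
  rw [frequently_atTop]
  intro y0
  have h1 := hZ (Function.update m (a - 1) (max (y0 (a - 1)) (m (a - 1)))) (upd_zero hm)
  have h2 : ∀ᶠ y in atTop, ∀ l ∈ Finset.Icc (a + 1) b,
      Y.E l (ext (a + 1) b (Function.update m (a - 1) (max (y0 (a - 1)) (m (a - 1)))) y) < ε := by
    rw [Finset.eventually_all]
    intro l hl
    rw [Finset.mem_Icc] at hl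
    exact (h1 l hl.1 hl.2).eventually (gt_mem_nhds hε)
  obtain ⟨y, hy, hy0⟩ := (h2.and (eventually_ge_atTop y0)).exists
  refine ⟨Function.update y (a - 1) (y0 (a - 1)), ?_, ?_⟩
  · intro i
    by_cases hi : i = a - 1
    · subst hi; rw [Function.update_self]
    · rw [Function.update_of_ne hi]; exact hy0 i
  · intro l h3 h4
    rw [ext_upd_left hab ha]
    exact hy l (Finset.mem_Icc.2 ⟨h3, h4⟩)

/-- the induction step -/
theorem step {a b : ℕ} {m : ℕ → ℕ} (hab : a < b) (ha : 1 ≤ a) (hb : b ≤ n) (hm : Y.a0 ≤ m 0)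
    (hB : Y.Bd a b m) (hZ1 : ∀ m', Y.a0 ≤ m' 0 → Y.Z a (b - 1) m')
    (hZ2 : ∀ m', Y.a0 ≤ m' 0 → Y.Z (a + 1) b m')
    {γ1 : ℕ → ℝ} {γL1 c1 : ℝ} (hr1 : Y.IsRule γ1 γL1 c1) (h1b : γ1 b = 0) (h1a : γ1 a ≠ 0)
    {γ2 : ℕ → ℝ} {γL2 c2 : ℝ} (hr2 : Y.IsRule γ2 γL2 c2) (h2 : ∀ l, a ≤ l → l ≤ b → 0 < γ2 l) :
    Y.Z a b m := by
  obtain ⟨d1, hd1⟩ := far_lim hm hB hr1
  obtain ⟨d2, hd2⟩ := far_lim hm hB hr2
  set S := (range (n + 2)).filter (fun l => a ≤ l ∧ l ≤ b) with hS
  have memS : ∀ l, l ∈ S ↔ a ≤ l ∧ l ≤ b := by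
    intro l
    rw [hS, mem_filter, mem_range]
    omega
  have haS : a ∈ S := (memS a).2 ⟨le_rfl, hab.le⟩
  have hbS : b ∈ S := (memS b).2 ⟨hab.le, le_rfl⟩
  -- the first limit is zero
  have z1 : d1 = 0 := by
    have h3 : |d1| ≤ 0 := by
      apply le_zero_of_eps (C := 1 + ∑ l ∈ S, |γ1 l|)
      intro ε hε
      have e1 := hd1.eventually (Metric.ball_mem_nhds d1 hε)
      obtain ⟨y, hy, hy1⟩ := ((freq_right hab ha hm hZ1 hε).and_eventually e1).exists
      rw [Real.dist_eq] at hy1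
      have h4 : |∑ l ∈ S, γ1 l * Y.E l (ext a b m y)| ≤ ε * ∑ l ∈ S, |γ1 l| := by
        refine (abs_sum_le_sum_abs _ _).trans ?_
        rw [mul_sum]
        apply sum_le_sum
        intro l hl
        rw [abs_mul]
        by_cases hlb : l = b
        · subst hlb
          rw [h1b]
          simp
        · rw [abs_of_nonneg (Y.nonneg l _), mul_comm]
          have := hy l ((memS l).1 hl).1 (by have := ((memS l).1 hl).2; omega)
          exact mul_le_mul_of_nonneg_right this.le (abs_nonneg _)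
      have h5 : |d1| ≤ |∑ l ∈ S, γ1 l * Y.E l (ext a b m y) - d1| +
          |∑ l ∈ S, γ1 l * Y.E l (ext a b m y)| := by
        have := abs_sub_abs_le_abs_sub d1 (∑ l ∈ S, γ1 l * Y.E l (ext a b m y))
        rw [abs_sub_comm] at this
        linarith
      linarith
    exact abs_eq_zero.1 (le_antisymm h3 (abs_nonneg _))
  subst z1
  -- the second one as well
  have z2 : d2 = 0 := by
    apply le_antisymm
    · apply le_zero_of_eps (C := 1 + γ2 a * (1 + ∑ l ∈ S.erase a, |γ1 l|) / |γ1 a| +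
        ∑ l ∈ S.erase a, γ2 l)
      intro ε hε
      have e1 := hd1.eventually (Metric.ball_mem_nhds 0 hε)
      have e2 := hd2.eventually (Metric.ball_mem_nhds d2 hε)
      obtain ⟨y, hy, hy1, hy2⟩ := ((freq_left hab ha hm hZ2 hε).and_eventually (e1.and e2)).exists
      rw [Real.dist_eq] at hy1 hy2
      rw [sub_zero] at hy1
      rw [← add_sum_erase S _ haS] at hy1 hy2
      have hE : ∀ l ∈ S.erase a, Y.E l (ext a b m y) < ε := by
        intro l hl
        obtain ⟨h3, h4⟩ := mem_erase.1 hl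
        have h5 := (memS l).1 h4
        exact hy l (by omega) h5.2
      have h4 : |∑ l ∈ S.erase a, γ1 l * Y.E l (ext a b m y)| ≤ ε * ∑ l ∈ S.erase a, |γ1 l| := by
        refine (abs_sum_le_sum_abs _ _).trans ?_
        rw [mul_sum]
        apply sum_le_sum
        intro l hl
        rw [abs_mul, abs_of_nonneg (Y.nonneg l _), mul_comm]
        exact mul_le_mul_of_nonneg_right (hE l hl).le (abs_nonneg _)
      have h5 : ∑ l ∈ S.erase a, γ2 l * Y.E l (ext a b m y) ≤ ε * ∑ l ∈ S.erase a, γ2 l := by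
        rw [mul_sum]
        apply sum_le_sum
        intro l hl
        have h6 := (memS l).1 (mem_erase.1 hl).2
        rw [mul_comm]
        exact mul_le_mul_of_nonneg_right (hE l hl).le (h2 l h6.1 h6.2).le
      have g1 : 0 < |γ1 a| := abs_pos.2 h1a
      have h6 : |γ1 a| * Y.E a (ext a b m y) ≤ ε * (1 + ∑ l ∈ S.erase a, |γ1 l|) := by
        have h7 : |γ1 a * Y.E a (ext a b m y)| ≤
            |γ1 a * Y.E a (ext a b m y) + ∑ l ∈ S.erase a, γ1 l * Y.E l (ext a b m y)| +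
            |∑ l ∈ S.erase a, γ1 l * Y.E l (ext a b m y)| := by
          have := abs_add_le (γ1 a * Y.E a (ext a b m y) +
            ∑ l ∈ S.erase a, γ1 l * Y.E l (ext a b m y))
            (-∑ l ∈ S.erase a, γ1 l * Y.E l (ext a b m y))
          rw [add_neg_cancel_right, abs_neg] at this
          exact this
        rw [abs_mul, abs_of_nonneg (Y.nonneg a _)] at h7
        linarith
      have h8 : γ2 a * Y.E a (ext a b m y) ≤
          ε * (γ2 a * (1 + ∑ l ∈ S.erase a, |γ1 l|) / |γ1 a|) := by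
        have h9 : Y.E a (ext a b m y) ≤ ε * (1 + ∑ l ∈ S.erase a, |γ1 l|) / |γ1 a| := by
          rw [le_div_iff₀ g1]
          linarith
        calc γ2 a * Y.E a (ext a b m y) ≤ γ2 a * (ε * (1 + ∑ l ∈ S.erase a, |γ1 l|) / |γ1 a|) :=
              mul_le_mul_of_nonneg_left h9 (h2 a le_rfl hab.le).le
          _ = _ := by ring
      have h10 := abs_lt.1 hy2
      linarith [h10.1]
    · apply ge_of_tendsto hd2
      filter_upwards with y
      apply sum_nonneg
      intro l hl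
      have h6 := (memS l).1 hl
      exact mul_nonneg (h2 l h6.1 h6.2).le (Y.nonneg l _)
  subst z2
  intro l h3 h4
  have hlS : l ∈ S := (memS l).2 ⟨h3, h4⟩
  have hγ := h2 l h3 h4
  have h5 : Tendsto (fun y => (∑ l ∈ S, γ2 l * Y.E l (ext a b m y)) / γ2 l) atTop (𝓝 (0 / γ2 l)) :=
    hd2.div_const _
  rw [zero_div] at h5
  refine squeeze_zero (fun y => Y.nonneg l _) (fun y => ?_) h5
  rw [le_div_iff₀ hγ, mul_comm]
  exact single_le_sum (f := fun l => γ2 l * Y.E l (ext a b m y)) (fun l' hl' =>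
    mul_nonneg (h2 l' ((memS l').1 hl').1 ((memS l').1 hl').2).le (Y.nonneg l' _)) hlS

/-- boundedness from a positive sum rule -/
theorem bd_of_pos {a b : ℕ} {m : ℕ → ℕ} (hab : a ≤ b) (ha : 1 ≤ a) (hb : b ≤ n) (hm : Y.a0 ≤ m 0)
    {γ : ℕ → ℝ} {γL c : ℝ} (hr : Y.IsRule γ γL c) (h2 : ∀ l, a - 1 ≤ l → l ≤ b + 1 → 0 < γ l) :
    Y.Bd a b m := by
  classical
  have key : ∀ l, a - 1 ≤ l → l ≤ b + 1 →
      BddAbove (Set.range (fun y => Y.E l (ext a b m y))) := by
    intro l hl1 hl2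
    -- the other sides
    have h1 : ∀ l', ∃ C : ℝ, l' ∈ (range (n + 2)).filter (fun l => ¬ (a - 1 ≤ l ∧ l ≤ b + 1)) →
        ∀ y, Y.E l' (ext a b m y) ≤ C := by
      intro l'
      by_cases hl : l' ∈ (range (n + 2)).filter (fun l => ¬ (a - 1 ≤ l ∧ l ≤ b + 1))
      · obtain ⟨h3, h4⟩ := mem_filter.1 hl
        rw [mem_range] at h3
        obtain ⟨C, hC⟩ := bdd_out (Y := Y) (a := a) (b := b) (m := m) (l := l') (by omega) (by omega)
        exact ⟨C, fun _ y => hC ⟨y, rfl⟩⟩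
      · exact ⟨0, fun h => absurd h hl⟩
    choose C hC using h1
    refine ⟨(|c| + |γL| * Y.a0 + ∑ l' ∈ (range (n + 2)).filter (fun l => ¬ (a - 1 ≤ l ∧ l ≤ b + 1)),
      |γ l'| * C l') / γ l, ?_⟩
    rintro _ ⟨y, rfl⟩
    have hγ := h2 l hl1 hl2
    show Y.E l (ext a b m y) ≤ _
    rw [le_div_iff₀ hγ, mul_comm]
    have h3 := hr (ext a b m y) (hm.trans (le_ext a b m y 0))
    rw [← sum_filter_add_sum_filter_not (range (n + 2)) (fun l => a - 1 ≤ l ∧ l ≤ b + 1)] at h3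
    have h4 : γ l * Y.E l (ext a b m y) ≤
        ∑ l ∈ (range (n + 2)).filter (fun l => a - 1 ≤ l ∧ l ≤ b + 1), γ l * Y.E l (ext a b m y) :=
      single_le_sum (f := fun l => γ l * Y.E l (ext a b m y)) (fun l' hl' => by
        obtain ⟨_, h5⟩ := mem_filter.1 hl'
        exact mul_nonneg (h2 l' h5.1 h5.2).le (Y.nonneg l' _))
        (mem_filter.2 ⟨mem_range.2 (by omega), hl1, hl2⟩)
    have h5 : -(∑ l ∈ (range (n + 2)).filter (fun l => ¬ (a - 1 ≤ l ∧ l ≤ b + 1)),
        γ l * Y.E l (ext a b m y)) ≤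
        ∑ l' ∈ (range (n + 2)).filter (fun l => ¬ (a - 1 ≤ l ∧ l ≤ b + 1)), |γ l'| * C l' := by
      rw [← sum_neg_distrib]
      apply sum_le_sum
      intro l' hl'
      have h6 := hC l' hl' y
      have h7 := Y.nonneg l' (ext a b m y)
      have h8 : -(γ l' * Y.E l' (ext a b m y)) ≤ |γ l'| * Y.E l' (ext a b m y) := by
        rw [← neg_mul]
        exact mul_le_mul_of_nonneg_right (neg_le_abs _) h7
      exact h8.trans (mul_le_mul_of_nonneg_left h6 (abs_nonneg _))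
    have h6 : -(γL * Y.L (ext a b m y)) ≤ |γL| * Y.a0 := by
      rw [← neg_mul]
      exact (mul_le_mul_of_nonneg_right (neg_le_abs _) (Y.Lnonneg _)).trans
        (mul_le_mul_of_nonneg_left (Y.Lfin _) (abs_nonneg _))
    have h7 := le_abs_self c
    linarith
  exact ⟨key _ le_rfl (by omega), key _ (by omega) le_rfl⟩

/-- the far sums tend to zero in all the regimes -/
theorem all_Z (hpos : ∀ a b, 1 ≤ a → a ≤ b → b ≤ n → (1 < a ∨ b < n) →
      ∃ γ γL c, Y.IsRule γ γL c ∧ ∀ l, a - 1 ≤ l → l ≤ b + 1 → 0 < γ l)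
    (hsep : ∀ a b, 1 ≤ a → a < b → b ≤ n → ∃ γ γL c, Y.IsRule γ γL c ∧ γ b = 0 ∧ γ a ≠ 0)
    (hall : ∃ γ γL c, Y.IsRule γ γL c ∧ ∀ l, 1 ≤ l → l ≤ n → 0 < γ l) :
    ∀ d a b, b = a + d → 1 ≤ a → b ≤ n → ∀ m, Y.a0 ≤ m 0 → Y.Bd a b m → Y.Z a b m := by
  have hBd : ∀ a b, 1 ≤ a → a ≤ b → b ≤ n → (1 < a ∨ b < n) → ∀ m, Y.a0 ≤ m 0 → Y.Bd a b m := by
    intro a b h1 h2 h3 h4 m hm
    obtain ⟨γ, γL, c, h5, h6⟩ := hpos a b h1 h2 h3 h4
    exact bd_of_pos h2 h1 h3 hm h5 h6
  intro d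
  induction d with
  | zero =>
    intro a b hb ha hbn m hm hB
    have hba : b = a := by omega
    rw [hba] at hB ⊢
    intro l h1 h2
    have hl : l = a := by omega
    rw [hl]
    exact Y.base a m ha (by omega) hm hB.1
  | succ d ih =>
    intro a b hb ha hbn m hm hB
    have hZ1 : ∀ m', Y.a0 ≤ m' 0 → Y.Z a (b - 1) m' := fun m' hm' =>
      ih a (b - 1) (by omega) ha (by omega) m' hm'
        (hBd a (b - 1) ha (by omega) (by omega) (Or.inr (by omega)) m' hm')
    have hZ2 : ∀ m', Y.a0 ≤ m' 0 → Y.Z (a + 1) b m' := fun m' hm' =>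
      ih (a + 1) b (by omega) (by omega) hbn m' hm'
        (hBd (a + 1) b (by omega) (by omega) hbn (Or.inl (by omega)) m' hm')
    obtain ⟨γ1, γL1, c1, hr1, h1b, h1a⟩ := hsep a b ha (by omega) hbn
    obtain ⟨γ2, γL2, c2, hr2, h2⟩ := hall
    exact step (by omega) ha hbn hm hB hZ1 hZ2 hr1 h1b h1a hr2
      (fun l h3 h4 => h2 l (by omega) (by omega))

end Sys

end FKR
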