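import Pool.Agent.Lib.MP_216314_pr.R.Pm

/-!
# Monotonicity of the turning, a cluster has at most one positive loop, windings
-/

set_option autoImplicit false

noncomputable section

namespace FKR

open Finset FKD FKI

namespace Glue

variable {X : Type} [DecidableEq X] {G : Glue X}

theorem Disc.mono {zz : Dart X} (H : G.Disc zz) {ω : Finset (Dart X)} {e : Dart X}
    (hi : insert e ω ⊆ G.E) (he : e ∉ ω) {p : Dart X} (h : G.T (insert e ω) p = 4) :
    G.T ω p = 4 := by
  have hω : ω ⊆ G.E := (subset_insert _ _).trans hi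
  rcases loop_cases hi he p with ⟨n1, n2⟩ | ⟨h0, h1, h2⟩ | ⟨h0, h1, h2⟩
  · rw [← T_free hi he n1 n2]; exact h
  · have e1 := T_same hi he h0
    have e2 := H.pm hi e
    have e3 := H.pm hi (G.opp e)
    have e4 := H.pm hω e
    rw [← T_orb hω h1]
    rcases h2 with h2 | h2
    · rw [← T_orb hi h2] at h
      omega
    · rw [← T_orb hi h2] at h
      omega
  · have e1 := T_diff hi he h0
    rw [← T_orb hi h1] at h
    have e2 := H.pm hω e
    have e3 := H.pm hω (G.opp e)
    rcases h2 with h2 | h2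
    · rw [← T_orb hω h2]; omega
    · rw [← T_orb hω h2]; omega

theorem Disc.anti {zz : Dart X} (H : G.Disc zz) {ω ω' : Finset (Dart X)} (h : ω ⊆ ω')
    (h' : ω' ⊆ G.E) {p : Dart X} (hT : G.T ω' p = 4) : G.T ω p = 4 :=
  down_ind (P := fun ω1 => G.T ω1 p = 4) h hT (fun _ _ _ h3 h4 h5 => H.mono (h4.trans h') h3 h5)

theorem Disc.orb_ins {zz : Dart X} (_H : G.Disc zz) {ω : Finset (Dart X)} {e : Dart X}
    (hi : insert e ω ⊆ G.E) (he : e ∉ ω) {p p' : Dart X}
    (h : Orb (G.nx ω) p p') (hT : G.T (insert e ω) p = 4) (hT' : G.T (insert e ω) p' = 4) :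
    Orb (G.nx (insert e ω)) p p' := by
  have hω : ω ⊆ G.E := (subset_insert _ _).trans hi
  have hP' := per_nx hi
  rcases loop_cases hi he p with ⟨n1, n2⟩ | ⟨h0, h1, h2⟩ | ⟨h0, h1, h2⟩
  · exact (((swp hi he).free n1 n2).2 p').2 h
  · have h3 := (((swp hi he).same h0).2.1 p').1 (orb_trans h1 h)
    have e1 := T_same hi he h0
    have e4 := _H.pm hω e
    rcases h2 with h2 | h2 <;> rcases h3 with h3 | h3
    · exact orb_trans (orb_symm hP' h2) h3
    · rw [← T_orb hi h2] at hT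
      rw [← T_orb hi h3] at hT'
      omega
    · rw [← T_orb hi h2] at hT
      rw [← T_orb hi h3] at hT'
      omega
    · exact orb_trans (orb_symm hP' h2) h3
  · have h3 := (swp hi he).diff h0
    have h4 := ((swp hi he).flip.same h3).2.1 p'
    refine orb_trans (orb_symm hP' h1) (h4.2 ?_)
    rcases h2 with h2 | h2
    · exact Or.inl (orb_trans h2 h)
    · exact Or.inr (orb_trans h2 h)

/-- a cluster has at most one positive loop -/
theorem Disc.uniq {zz : Dart X} (H : G.Disc zz) (ω : Finset (Dart X)) (hω : ω ⊆ G.E) :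
    ∀ p p' : Dart X, G.T ω p = 4 → G.T ω p' = 4 → (G.gph ω).Reachable p.1 p'.1 →
      Orb (G.nx ω) p p' := by
  induction ω using Finset.induction_on with
  | empty =>
    intro p p' _ _ h
    have h1 := gph_empty_reach h
    have h2 := iso_orb (G := G) (ω := ∅) (x := p.1) (fun k => by simp [op]) p.2 p'.2
    have e1 : (p.1, p'.2) = p' := by rw [h1]
    rw [e1] at h2
    exact h2
  | insert e ω he ih =>
    have hi : insert e ω ⊆ G.E := hω
    have hω0 : ω ⊆ G.E := (subset_insert _ _).trans hi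
    have ih' := ih hω0
    intro p p' hp hp' hr
    have hP := per_nx hω0
    have hP' := per_nx hi
    have tp := H.mono hi he hp
    have tp' := H.mono hi he hp'
    have key : (G.gph ω).Reachable p.1 p'.1 → Orb (G.nx (insert e ω)) p p' := fun h =>
      H.orb_ins hi he (ih' p p' tp tp' h) hp hp'
    have main : ∀ p p' : Dart X, G.T (insert e ω) p = 4 → G.T (insert e ω) p' = 4 →
        G.T ω p = 4 → G.T ω p' = 4 →
        (G.gph ω).Reachable p.1 e.1 → (G.gph ω).Reachable (G.opp e).1 p'.1 →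
        ¬ (G.gph ω).Reachable p.1 p'.1 → Orb (G.nx (insert e ω)) p p' := by
      intro p p' hp hp' tp tp' r1 r2 hn
      have h0 : ¬ Orb (G.nx ω) e (G.opp e) := by
        intro h
        exact hn (r1.trans ((reach_orb h).trans r2))
      have e1 := T_diff hi he h0
      have e2 := H.pm hω0 e
      have e3 := H.pm hω0 (G.opp e)
      have e4 := H.pm hi e
      have h3 := (swp hi he).diff h0
      have h4 := ((swp hi he).flip.same h3).2.1
      have a1 : G.T ω e = 4 → Orb (G.nx ω) e p := fun h => ih' _ _ h tp r1.symm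
      have a2 : G.T ω (G.opp e) = 4 → Orb (G.nx ω) (G.opp e) p' := fun h => ih' _ _ h tp' r2
      have b1 : G.T ω e = 4 → Orb (G.nx (insert e ω)) e p := fun h => (h4 p).2 (Or.inl (a1 h))
      have b2 : G.T ω (G.opp e) = 4 → Orb (G.nx (insert e ω)) e p' := fun h =>
        (h4 p').2 (Or.inr (a2 h))
      rcases e2 with e2 | e2
      · rcases e3 with e3 | e3
        · exact orb_trans (orb_symm hP' (b1 e2)) (b2 e3)
        · exfalso
          have := T_orb hi (b1 e2)
          omega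
      · rcases e3 with e3 | e3
        · exfalso
          have := T_orb hi (b2 e3)
          omega
        · exfalso
          omega
    rcases CC_key (gph_insert ω e) hr with h | ⟨h, h'⟩ | ⟨h, h'⟩
    · exact key h
    · by_cases hn : (G.gph ω).Reachable p.1 p'.1
      · exact key hn
      · exact main p p' hp hp' tp tp' h h' hn
    · by_cases hn : (G.gph ω).Reachable p.1 p'.1
      · exact key hn
      · exact orb_symm hP' (main p' p hp' hp tp' tp h'.symm h.symm (fun h => hn h.symm))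

theorem Disc.not_reach {zz : Dart X} (H : G.Disc zz) {ω : Finset (Dart X)} {e : Dart X}
    (hi : insert e ω ⊆ G.E) (he : e ∉ ω)
    (h2 : Orb (G.nx (insert e ω)) e (G.opp e)) :
    ¬ (G.gph ω).Reachable e.1 (G.opp e).1 := by
  intro hr
  have h3 := H.planar hi he hr
  exact ((swp hi he).same h3).1 h2

theorem wgt_reach {ω : Finset (Dart X)} {e : Dart X} (hi : insert e ω ⊆ G.E) (he : e ∉ ω) (s : ℝ)
    (h : (G.gph ω).Reachable e.1 (G.opp e).1) : G.wgt s (insert e ω) = s * G.wgt s ω := by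
  unfold wgt
  rw [(clus_ins hi).1 h, card_insert_of_notMem he, pow_succ]
  ring

theorem wgt_not_reach {ω : Finset (Dart X)} {e : Dart X} (hi : insert e ω ⊆ G.E) (he : e ∉ ω) (s : ℝ)
    (h : ¬ (G.gph ω).Reachable e.1 (G.opp e).1) : G.wgt s ω = s * G.wgt s (insert e ω) := by
  unfold wgt
  rw [← (clus_ins hi).2 h, card_insert_of_notMem he, pow_succ, pow_succ]
  ring

/-! ### Windings -/

/-- the loop through `z0`, starting at `z0` -/
def lp (G : Glue X) (ω : Finset (Dart X)) (z0 : Dart X) : List (Dart X) := cyc (G.nx ω) z0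

theorem mem_lp {ω : Finset (Dart X)} (hω : ω ⊆ G.E) {z0 z : Dart X} :
    z ∈ G.lp ω z0 ↔ Orb (G.nx ω) z0 z := mem_cyc (per_nx hω)

theorem lp_nodup (ω : Finset (Dart X)) (z0 : Dart X) : (G.lp ω z0).Nodup := cyc_nodup _ _

/-- the winding of the loop from its start `z0` to the dart `z` -/
def wd (G : Glue X) (ω : Finset (Dart X)) (z0 z : Dart X) : ℤ :=
  (((G.lp ω z0).takeWhile (fun y => decide (y ≠ z))).map (G.dlt ω)).sum

theorem takeWhile_eq {A B : List (Dart X)} {z : Dart X} (hA : z ∉ A) :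
    (A ++ z :: B).takeWhile (fun y => decide (y ≠ z)) = A := by
  rw [List.takeWhile_append_of_pos]
  · simp
  · intro y hy
    simp only [ne_eq, decide_not, Bool.not_eq_eq_eq_not, Bool.not_true, decide_eq_false_iff_not]
    rintro rfl
    exact hA hy

theorem wd_eq {ω : Finset (Dart X)} {z0 z : Dart X} {A B : List (Dart X)}
    (h : G.lp ω z0 = A ++ z :: B) : G.wd ω z0 z = (A.map (G.dlt ω)).sum := by
  have hnd : (G.lp ω z0).Nodup := cyc_nodup _ _
  rw [h, List.nodup_middle] at hnd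
  have hA : z ∉ A := fun hm => (List.nodup_cons.1 hnd).1 (List.mem_append.2 (Or.inl hm))
  unfold wd
  rw [h, takeWhile_eq hA]

/-- winding of the loop from `z0` after `t` steps -/
def wind (G : Glue X) (ω : Finset (Dart X)) (z0 : Dart X) (t : ℕ) : ℤ :=
  ∑ i ∈ range t, G.dlt ω ((G.nx ω)^[i] z0)

/-- number of steps of the loop through `z0` -/
def len (G : Glue X) (ω : Finset (Dart X)) (z0 : Dart X) : ℕ :=
  Function.minimalPeriod (G.nx ω) z0

theorem wd_iter (ω : Finset (Dart X)) (z0 : Dart X) {i : ℕ} (hi : i < G.len ω z0) :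
    G.wd ω z0 ((G.nx ω)^[i] z0) = G.wind ω z0 i := by
  obtain ⟨m, hm⟩ : ∃ m, G.len ω z0 = i + 1 + m := ⟨G.len ω z0 - (i + 1), by omega⟩
  have h1 : G.lp ω z0 = run (G.nx ω) z0 i ++ (G.nx ω)^[i] z0 ::
      run (G.nx ω) ((G.nx ω)^[i + 1] z0) m := by
    rw [← spl_split]
    show run (G.nx ω) z0 (Function.minimalPeriod (G.nx ω) z0) = _
    unfold len at hm
    rw [hm]
  rw [wd_eq h1]
  unfold run wind
  rw [List.map_map, sum_map_range]
  rfl

/-- the structure of the two loops when `Longer` -/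
theorem longer_wd {a b z : Dart X} {φ φ' : Dart X → ℤ} {D D' : List (Dart X)}
    (hL : Longer a b D D') (hφ : ∀ y, y ≠ a → y ≠ b → φ' y = φ y)
    (hs : (D.map φ).sum = (D'.map φ').sum) (hnd : D'.Nodup) (hz : z ∈ D') :
    ∃ A B A' B', D' = A ++ z :: B ∧ D = A' ++ z :: B' ∧ (A'.map φ).sum = (A.map φ').sum := by
  obtain ⟨P, M, Q, x, y, hxy, e1, e2, hP, hM, hQ⟩ := hL
  have sP : ∀ R : List (Dart X), (∀ a ∈ R, a ∈ P) → (R.map φ').sum = (R.map φ).sum := by
    intro R hR
    rw [List.map_congr_left (fun a ha => hφ a (hP a (hR a ha)).1 (hP a (hR a ha)).2)]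
  have sQ : ∀ R : List (Dart X), (∀ a ∈ R, a ∈ Q) → (R.map φ').sum = (R.map φ).sum := by
    intro R hR
    rw [List.map_congr_left (fun a ha => hφ a (hQ a (hR a ha)).1 (hQ a (hR a ha)).2)]
  have hs' : φ x + (M.map φ).sum + φ y = φ' x := by
    rw [e1, e2] at hs
    simp only [List.map_append, List.map_cons, List.sum_append, List.sum_cons] at hs
    rw [sP P (fun _ h => h), sQ Q (fun _ h => h)] at hs
    linarith
  rw [e2] at hz
  rcases List.mem_append.1 hz with hzP | hzQ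
  · obtain ⟨P1, P2, rfl⟩ := List.append_of_mem hzP
    refine ⟨P1, P2 ++ x :: Q, P1, P2 ++ x :: (M ++ y :: Q), by rw [e2]; simp, by rw [e1]; simp, ?_⟩
    exact (sP P1 (fun a ha => by simp [ha])).symm
  · rcases List.mem_cons.1 hzQ with rfl | hzQ
    · exact ⟨P, Q, P, M ++ y :: Q, e2, e1, (sP P (fun _ h => h)).symm⟩
    · obtain ⟨Q1, Q2, rfl⟩ := List.append_of_mem hzQ
      refine ⟨P ++ x :: Q1, Q2, P ++ x :: (M ++ y :: Q1), Q2, by rw [e2]; simp, by rw [e1]; simp, ?_⟩
      simp only [List.map_append, List.map_cons, List.sum_append, List.sum_cons]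
      rw [sP P (fun _ h => h), sQ Q1 (fun a ha => by simp [ha])]
      linarith

theorem lp_cases {ω : Finset (Dart X)} {e : Dart X} (hi : insert e ω ⊆ G.E) (he : e ∉ ω)
    (z0 : Dart X) :
    (e ∉ G.lp ω z0 ∧ G.opp e ∉ G.lp ω z0 ∧ G.lp (insert e ω) z0 = G.lp ω z0) ∨
    Longer e (G.opp e) (G.lp ω z0) (G.lp (insert e ω) z0) ∨
    Longer e (G.opp e) (G.lp (insert e ω) z0) (G.lp ω z0) :=
  (swp hi he).splice z0

theorem dlt_ne {ω : Finset (Dart X)} {e y : Dart X} (h1 : y ≠ e) (h2 : y ≠ G.opp e) :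
    G.dlt (insert e ω) y = G.dlt ω y := by
  have h3 := op_ins (G := G) (ω := ω) h1 h2
  unfold dlt
  by_cases h4 : G.op ω y
  · rw [if_pos h4, if_pos (h3.2 h4)]
  · rw [if_neg h4, if_neg (fun h => h4 (h3.1 h))]

/-- the winding at a common dart does not change when an edge is opened -/
theorem Disc.wd_step {zz : Dart X} (H : G.Disc zz) {ω : Finset (Dart X)} {e : Dart X}
    (hi : insert e ω ⊆ G.E) (he : e ∉ ω) {z0 z : Dart X}
    (hT : G.T (insert e ω) z0 = 4) (h1 : z ∈ G.lp ω z0) (h2 : z ∈ G.lp (insert e ω) z0) :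
    G.wd (insert e ω) z0 z = G.wd ω z0 z := by
  have hT0 : G.T ω z0 = 4 := H.mono hi he hT
  have ht : ((G.lp ω z0).map (G.dlt ω)).sum =
      ((G.lp (insert e ω) z0).map (G.dlt (insert e ω))).sum := by
    have a1 : ((G.lp ω z0).map (G.dlt ω)).sum = G.T ω z0 := rfl
    have a2 : ((G.lp (insert e ω) z0).map (G.dlt (insert e ω))).sum = G.T (insert e ω) z0 := rfl
    rw [a1, a2, hT0, hT]
  rcases lp_cases hi he z0 with ⟨g1, g2, g3⟩ | hL | hL
  · obtain ⟨A, B, hAB⟩ := List.append_of_mem h1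
    rw [wd_eq hAB, wd_eq (by rw [g3]; exact hAB)]
    rw [List.map_congr_left (f := G.dlt (insert e ω)) (g := G.dlt ω)]
    intro a ha
    have ha' : a ∈ G.lp ω z0 := by rw [hAB]; exact List.mem_append.2 (Or.inl ha)
    exact dlt_ne (fun h => g1 (h ▸ ha')) (fun h => g2 (h ▸ ha'))
  · obtain ⟨A, B, A', B', hA, hA', hs⟩ := longer_wd hL (fun y a b => dlt_ne a b) ht (lp_nodup _ _) h2
    rw [wd_eq hA, wd_eq hA', hs]
  · obtain ⟨A, B, A', B', hA, hA', hs⟩ := longer_wd hL (fun y a b => (dlt_ne a b).symm) ht.symm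
      (lp_nodup _ _) h1
    rw [wd_eq hA, wd_eq hA', hs]

theorem Disc.mem_lp_of_reach {zz : Dart X} (H : G.Disc zz) {ω : Finset (Dart X)} (hω : ω ⊆ G.E)
    {z0 z : Dart X} (h0 : G.T ω z0 = 4) (h1 : G.T ω z = 4)
    (hr : (G.gph ω).Reachable z0.1 z.1) : z ∈ G.lp ω z0 :=
  (mem_lp hω).2 (H.uniq ω hω z0 z h0 h1 hr)

theorem Disc.mem_lp_mid {zz : Dart X} (H : G.Disc zz) {ω ω1 ω' : Finset (Dart X)} (h1 : ω ⊆ ω1)
    (h2 : ω1 ⊆ ω') (h3 : ω' ⊆ G.E) {z0 z : Dart X}
    (hT : G.T ω' z0 = 4) (m : z ∈ G.lp ω z0) (m' : z ∈ G.lp ω' z0) : z ∈ G.lp ω1 z0 := by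
  have hω1 : ω1 ⊆ G.E := h2.trans h3
  apply H.mem_lp_of_reach hω1 (H.anti h2 h3 hT)
  · apply H.anti h2 h3
    rw [← T_orb h3 ((mem_lp h3).1 m')]
    exact hT
  · exact (reach_orb ((mem_lp (h1.trans hω1)).1 m)).mono (gph_mono h1)

/-- the winding at a common dart of the loops of `ω ⊆ ω'` is the same -/
theorem Disc.wd_anti {zz : Dart X} (H : G.Disc zz) {ω ω' : Finset (Dart X)} (h : ω ⊆ ω')
    (h3 : ω' ⊆ G.E) {z0 z : Dart X}
    (hT : G.T ω' z0 = 4) (m : z ∈ G.lp ω z0) (m' : z ∈ G.lp ω' z0) :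
    G.wd ω' z0 z = G.wd ω z0 z := by
  refine up_ind (P := fun ω1 => ω1 ⊆ ω' → G.wd ω1 z0 z = G.wd ω z0 z) h (fun _ => rfl) ?_ subset_rfl
  intro ω1 e h1 h2 h4 h5 _
  have h6 : ω1 ⊆ ω' := (subset_insert _ _).trans h4
  rw [← h5 h6]
  exact H.wd_step (h4.trans h3) h2 (H.anti h4 h3 hT) (H.mem_lp_mid h1 h6 h3 hT m m')
    (H.mem_lp_mid (h1.trans (subset_insert _ _)) h4 h3 hT m m')

end Glue

end FKR
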