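import Pool.Agent.Lib.MP_216314_pr.SumA
import Pool.Agent.Lib.MP_216314_pr.R.Uniq

/-!
# The sum rule for a disc
-/

set_option autoImplicit false

noncomputable section

namespace FKR

open Finset FKD FKI

namespace Glue

variable {X : Type} [DecidableEq X] {G : Glue X}

/-- contribution of a passage -/
def ctt (G : Glue X) (g : ℤ → ℝ) (ω : Finset (Dart X)) (z : Dart X) (w : ℤ) : ℝ :=
  if G.op ω z then - g (w - 1) else g w

/-- contribution of the dart `z` to the loop of `z0` -/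
def CT (G : Glue X) (g : ℤ → ℝ) (ω : Finset (Dart X)) (z0 z : Dart X) : ℝ :=
  if z ∈ G.lp ω z0 then G.ctt g ω z (G.wd ω z0 z) else 0

theorem CT_mem {g : ℤ → ℝ} {ω : Finset (Dart X)} {z0 z : Dart X} (h : z ∈ G.lp ω z0) :
    G.CT g ω z0 z = G.ctt g ω z (G.wd ω z0 z) := by unfold CT; rw [if_pos h]

theorem CT_not {g : ℤ → ℝ} {ω : Finset (Dart X)} {z0 z : Dart X} (h : z ∉ G.lp ω z0) :
    G.CT g ω z0 z = 0 := by unfold CT; rw [if_neg h]

/-- the local relation -/
theorem Disc.rel {zz : Dart X} (H : G.Disc zz) {g : ℤ → ℝ} {s : ℝ}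
    (hg : ∀ w, g (w + 1) + g (w - 1) = s * g w) {ω : Finset (Dart X)} {e : Dart X}
    (hi : insert e ω ⊆ G.E) (he : e ∉ ω) {z0 : Dart X} (hT : G.T (insert e ω) z0 = 4) :
    G.wgt s ω * (G.CT g ω z0 e + G.CT g ω z0 (G.opp e)) +
      G.wgt s (insert e ω) *
        (G.CT g (insert e ω) z0 e + G.CT g (insert e ω) z0 (G.opp e)) = 0 := by
  have hω : ω ⊆ G.E := (subset_insert _ _).trans hi
  have hT0 : G.T ω z0 = 4 := H.mono hi he hT
  have ht : ((G.lp ω z0).map (G.dlt ω)).sum =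
      ((G.lp (insert e ω) z0).map (G.dlt (insert e ω))).sum := by
    have a1 : ((G.lp ω z0).map (G.dlt ω)).sum = G.T ω z0 := rfl
    have a2 : ((G.lp (insert e ω) z0).map (G.dlt (insert e ω))).sum = G.T (insert e ω) z0 := rfl
    rw [a1, a2, hT0, hT]
  have n1 := not_op hi he
  have n2 : ¬ G.op ω (G.opp e) := fun h => n1 (op_opp.1 h)
  have p1 : G.op (insert e ω) e := Or.inl (mem_insert_self _ _)
  have p2 : G.op (insert e ω) (G.opp e) := op_opp.2 p1
  have hne := (swp hi he).ne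
  -- the darts x, y are e, opp e
  have hxy : ∀ x y : Dart X, ((x = e ∧ y = G.opp e) ∨ (x = G.opp e ∧ y = e)) →
      (¬ G.op ω x ∧ ¬ G.op ω y ∧ G.op (insert e ω) x ∧ G.op (insert e ω) y ∧ x ≠ y ∧
      ∀ ω', G.CT g ω' z0 e + G.CT g ω' z0 (G.opp e) = G.CT g ω' z0 x + G.CT g ω' z0 y) := by
    rintro x y (⟨rfl, rfl⟩ | ⟨rfl, rfl⟩)
    · exact ⟨n1, n2, p1, p2, hne, fun _ => rfl⟩
    · exact ⟨n2, n1, p2, p1, hne.symm, fun _ => add_comm _ _⟩
  have d1 : ∀ z, ¬ G.op ω z → G.dlt ω z = 1 := fun z h => by unfold dlt; rw [if_neg h]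
  have d2 : ∀ z, G.op (insert e ω) z → G.dlt (insert e ω) z = -1 := fun z h => by
    unfold dlt; rw [if_pos h]
  have c1 : ∀ z w, ¬ G.op ω z → G.ctt g ω z w = g w := fun z w h => by unfold ctt; rw [if_neg h]
  have c2 : ∀ z w, G.op (insert e ω) z → G.ctt g (insert e ω) z w = - g (w - 1) := fun z w h => by
    unfold ctt; rw [if_pos h]
  rcases lp_cases hi he z0 with ⟨g1, g2, g3⟩ | hL | hL
  · rw [CT_not g1, CT_not g2, CT_not (by rw [g3]; exact g1), CT_not (by rw [g3]; exact g2)]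
    ring
  · obtain ⟨A, M, B, x, y, hh, hD, hD', hA, hM, hB⟩ := hL
    obtain ⟨x1, y1, x2, y2, hxne, hC⟩ := hxy x y hh
    have hne' : ∀ z : Dart X, (z ≠ e ∧ z ≠ G.opp e) → z ≠ x ∧ z ≠ y := by
      rintro z ⟨a, b⟩
      rcases hh with ⟨rfl, rfl⟩ | ⟨rfl, rfl⟩
      · exact ⟨a, b⟩
      · exact ⟨b, a⟩
    have sA : (A.map (G.dlt (insert e ω))).sum = (A.map (G.dlt ω)).sum := by
      rw [List.map_congr_left (fun a ha => dlt_ne (hA a ha).1 (hA a ha).2)]
    have sB : (B.map (G.dlt (insert e ω))).sum = (B.map (G.dlt ω)).sum := by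
      rw [List.map_congr_left (fun a ha => dlt_ne (hB a ha).1 (hB a ha).2)]
    have hy' : y ∉ G.lp (insert e ω) z0 := by
      rw [hD']
      simp only [List.mem_append, List.mem_cons, not_or]
      exact ⟨fun h => (hne' y (hA y h)).2 rfl, hxne.symm, fun h => (hne' y (hB y h)).2 rfl⟩
    have mx : x ∈ G.lp ω z0 := by rw [hD]; simp
    have my : y ∈ G.lp ω z0 := by rw [hD]; simp
    have mx' : x ∈ G.lp (insert e ω) z0 := by rw [hD']; simp
    have hD2 : G.lp ω z0 = (A ++ x :: M) ++ y :: B := by rw [hD]; simp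
    have hr : (G.gph ω).Reachable e.1 (G.opp e).1 := by
      have r1 := reach_orb ((mem_lp hω).1 mx)
      have r2 := reach_orb ((mem_lp hω).1 my)
      rcases hh with ⟨rfl, rfl⟩ | ⟨rfl, rfl⟩
      · exact r1.symm.trans r2
      · exact r2.symm.trans r1
    rw [hD, hD'] at ht
    simp only [List.map_append, List.map_cons, List.sum_append, List.sum_cons] at ht
    rw [sA, sB, d1 x x1, d1 y y1, d2 x x2] at ht
    have hσ : (M.map (G.dlt ω)).sum = -3 := by linarith
    rw [hC ω, hC (insert e ω), CT_mem mx, CT_mem my, CT_mem mx', CT_not hy', c1 _ _ x1, c1 _ _ y1,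
      c2 _ _ x2, wd_eq hD, wd_eq hD2, wd_eq hD', wgt_reach hi he s hr]
    simp only [List.map_append, List.map_cons, List.sum_append, List.sum_cons]
    rw [sA, d1 x x1, hσ]
    have h2 := hg ((A.map (G.dlt ω)).sum - 1)
    have e1 : (A.map (G.dlt ω)).sum + (1 + -3) = (A.map (G.dlt ω)).sum - 1 - 1 := by ring
    have e2 : (A.map (G.dlt ω)).sum - 1 + 1 = (A.map (G.dlt ω)).sum := by ring
    rw [e2] at h2
    rw [e1]
    have : G.wgt s ω * (g (A.map (G.dlt ω)).sum + g ((A.map (G.dlt ω)).sum - 1 - 1)) +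
        s * G.wgt s ω * (-g ((A.map (G.dlt ω)).sum - 1) + 0) =
        G.wgt s ω * ((g (A.map (G.dlt ω)).sum + g ((A.map (G.dlt ω)).sum - 1 - 1)) -
          s * g ((A.map (G.dlt ω)).sum - 1)) := by ring
    rw [this, h2]
    ring
  · obtain ⟨A, M, B, x, y, hh, hD, hD', hA, hM, hB⟩ := hL
    obtain ⟨x1, y1, x2, y2, hxne, hC⟩ := hxy x y hh
    have hne' : ∀ z : Dart X, (z ≠ e ∧ z ≠ G.opp e) → z ≠ x ∧ z ≠ y := by
      rintro z ⟨a, b⟩
      rcases hh with ⟨rfl, rfl⟩ | ⟨rfl, rfl⟩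
      · exact ⟨a, b⟩
      · exact ⟨b, a⟩
    have sA : (A.map (G.dlt (insert e ω))).sum = (A.map (G.dlt ω)).sum := by
      rw [List.map_congr_left (fun a ha => dlt_ne (hA a ha).1 (hA a ha).2)]
    have sB : (B.map (G.dlt (insert e ω))).sum = (B.map (G.dlt ω)).sum := by
      rw [List.map_congr_left (fun a ha => dlt_ne (hB a ha).1 (hB a ha).2)]
    have hy' : y ∉ G.lp ω z0 := by
      rw [hD']
      simp only [List.mem_append, List.mem_cons, not_or]
      exact ⟨fun h => (hne' y (hA y h)).2 rfl, hxne.symm, fun h => (hne' y (hB y h)).2 rfl⟩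
    have mx : x ∈ G.lp (insert e ω) z0 := by rw [hD]; simp
    have my : y ∈ G.lp (insert e ω) z0 := by rw [hD]; simp
    have mx' : x ∈ G.lp ω z0 := by rw [hD']; simp
    have hD2 : G.lp (insert e ω) z0 = (A ++ x :: M) ++ y :: B := by rw [hD]; simp
    have ho : Orb (G.nx (insert e ω)) e (G.opp e) := by
      have r1 := (mem_lp hi).1 mx
      have r2 := (mem_lp hi).1 my
      rcases hh with ⟨rfl, rfl⟩ | ⟨rfl, rfl⟩
      · exact orb_trans (orb_symm (per_nx hi) r1) r2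
      · exact orb_trans (orb_symm (per_nx hi) r2) r1
    have hr := H.not_reach hi he ho
    rw [hD, hD'] at ht
    simp only [List.map_append, List.map_cons, List.sum_append, List.sum_cons] at ht
    rw [sA, sB, d1 x x1, d2 y y2, d2 x x2] at ht
    have hσ : (M.map (G.dlt (insert e ω))).sum = 3 := by linarith
    rw [hC ω, hC (insert e ω), CT_mem mx, CT_mem my, CT_mem mx', CT_not hy', c1 _ _ x1, c2 _ _ y2,
      c2 _ _ x2, wd_eq hD, wd_eq hD2, wd_eq hD', wgt_not_reach hi he s hr]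
    simp only [List.map_append, List.map_cons, List.sum_append, List.sum_cons]
    rw [sA, d2 x x2, hσ]
    have h2 := hg ((A.map (G.dlt ω)).sum)
    have e1 : (A.map (G.dlt ω)).sum + (-1 + 3) - 1 = (A.map (G.dlt ω)).sum + 1 := by ring
    rw [e1]
    have : s * G.wgt s (insert e ω) * (g (A.map (G.dlt ω)).sum + 0) +
        G.wgt s (insert e ω) * (-g ((A.map (G.dlt ω)).sum - 1) + -g ((A.map (G.dlt ω)).sum + 1)) =
        G.wgt s (insert e ω) * (s * g (A.map (G.dlt ω)).sum -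
          (g ((A.map (G.dlt ω)).sum + 1) + g ((A.map (G.dlt ω)).sum - 1))) := by ring
    rw [this, h2]
    ring

theorem lp_toFinset (ω : Finset (Dart X)) (z0 : Dart X) :
    (G.lp ω z0).toFinset = (range (G.len ω z0)).image (fun i => (G.nx ω)^[i] z0) := by
  ext z
  rw [List.mem_toFinset]
  show z ∈ run (G.nx ω) z0 (G.len ω z0) ↔ _
  rw [mem_run]
  simp only [mem_image, mem_range]

theorem sum_lp {ω : Finset (Dart X)} {z0 : Dart X} (F : Dart X → ℝ) :
    ∑ z ∈ (G.lp ω z0).toFinset, F z = ∑ i ∈ range (G.len ω z0), F ((G.nx ω)^[i] z0) := by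
  rw [lp_toFinset, Finset.sum_image]
  intro i hi j hj h
  exact iter_inj (mem_range.1 hi) (mem_range.1 hj) h

theorem sum_all {g : ℤ → ℝ} {ω : Finset (Dart X)} {z0 : Dart X} (hT : G.T ω z0 = 4) :
    ∑ z ∈ (G.lp ω z0).toFinset, G.ctt g ω z (G.wd ω z0 z) = g 0 + g 1 + g 2 + g 3 := by
  obtain ⟨K, hK⟩ := exists_anti g
  rw [sum_lp]
  have h1 : ∀ i ∈ range (G.len ω z0), G.ctt g ω ((G.nx ω)^[i] z0) (G.wd ω z0 ((G.nx ω)^[i] z0)) =
      K (G.wind ω z0 (i + 1)) - K (G.wind ω z0 i) := by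
    intro i hi
    rw [wd_iter ω z0 (mem_range.1 hi)]
    have h2 : G.wind ω z0 (i + 1) = G.wind ω z0 i + G.dlt ω ((G.nx ω)^[i] z0) := by
      unfold wind
      rw [Finset.sum_range_succ]
    rw [h2]
    unfold ctt dlt
    by_cases h : G.op ω ((G.nx ω)^[i] z0)
    · rw [if_pos h, if_pos h]
      have h4 := hK (G.wind ω z0 i - 1)
      have h5 : G.wind ω z0 i - 1 + 1 = G.wind ω z0 i := by ring
      rw [h5] at h4
      have h6 : G.wind ω z0 i + -1 = G.wind ω z0 i - 1 := by ring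
      rw [h6]
      linarith
    · rw [if_neg h, if_neg h]
      have h4 := hK (G.wind ω z0 i)
      linarith
  rw [Finset.sum_congr rfl h1, Finset.sum_range_sub (fun i => K (G.wind ω z0 i))]
  have h3 : G.wind ω z0 (G.len ω z0) = 4 := by
    rw [← hT]
    unfold wind T len
    rw [osum_range]
  have h4 : G.wind ω z0 0 = 0 := by unfold wind; simp
  rw [h3, h4]
  have e0 := hK 0
  have e1 := hK 1
  have e2 := hK 2
  have e3 := hK 3
  norm_num at e0 e1 e2 e3 ⊢
  linarith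

theorem lp_sub {ω : Finset (Dart X)} (hω : ω ⊆ G.E) {z0 : Dart X} (hz0 : z0 ∈ G.dS) :
    (G.lp ω z0).toFinset ⊆ G.dS := by
  intro z hz
  rw [List.mem_toFinset, mem_lp hω] at hz
  obtain ⟨i, rfl⟩ := hz
  induction i with
  | zero => exact hz0
  | succ i ih => rw [Function.iterate_succ_apply']; exact nx_mem hω ih

theorem sum_CT {g : ℤ → ℝ} {ω : Finset (Dart X)} (hω : ω ⊆ G.E) {z0 : Dart X} (hz0 : z0 ∈ G.dS)
    (hT : G.T ω z0 = 4) : ∑ z ∈ G.dS, G.CT g ω z0 z = g 0 + g 1 + g 2 + g 3 := by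
  rw [← sum_all hT, ← Finset.sum_subset (lp_sub hω hz0)]
  · apply Finset.sum_congr rfl
    intro z hz
    exact CT_mem (List.mem_toFinset.1 hz)
  · intro z _ hz
    exact CT_not (fun h => hz (List.mem_toFinset.2 h))

theorem darts_split {D : Finset (Dart X)} (hD : D ⊆ G.E) (F : Dart X → ℝ) :
    ∑ z ∈ G.dS.filter (fun z => G.op D z), F z = ∑ e ∈ D, (F e + F (G.opp e)) := by
  have h1 : G.dS.filter (fun z => G.op D z) = D ∪ D.image G.opp := by
    ext z
    simp only [mem_filter, mem_union, mem_image]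
    constructor
    · rintro ⟨_, h | h⟩
      · exact Or.inl h
      · exact Or.inr ⟨_, h, G.inv z⟩
    · rintro (h | ⟨e, he, rfl⟩)
      · exact ⟨mem_dS.2 (G.left z (hD h)), Or.inl h⟩
      · exact ⟨mem_dS.2 (G.right e (hD he)), op_opp.2 (Or.inl he)⟩
  rw [h1, Finset.sum_union, Finset.sum_image, Finset.sum_add_distrib]
  · intro x _ y _ h
    have := congrArg G.opp h
    rwa [G.inv, G.inv] at this
  · rw [Finset.disjoint_left]
    intro z hz hz'
    obtain ⟨e, he, rfl⟩ := mem_image.1 hz'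
    exact G.rep e (hD he) (hD hz)

theorem CT_part {g : ℤ → ℝ} {A ω : Finset (Dart X)} (hA : A ⊆ G.E) (z0 : Dart X) :
    ∑ z ∈ G.dS, G.CT g ω z0 z =
      ∑ e ∈ G.E \ A, (G.CT g ω z0 e + G.CT g ω z0 (G.opp e)) +
      ∑ z ∈ G.dS.filter (fun z => G.op A z), G.CT g ω z0 z +
      ∑ z ∈ G.dS.filter (fun z => ¬ G.op G.E z), G.CT g ω z0 z := by
  rw [darts_split hA, ← Finset.sum_filter_add_sum_filter_not G.dS (fun z => G.op G.E z),
    darts_split subset_rfl, ← Finset.sum_sdiff hA]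

/-- the configurations with the wired set `A` -/
def cfg (G : Glue X) (A : Finset (Dart X)) : Finset (Finset (Dart X)) :=
  G.E.powerset.filter (fun ω => A ⊆ ω)

theorem mem_cfg {A ω : Finset (Dart X)} : ω ∈ G.cfg A ↔ ω ⊆ G.E ∧ A ⊆ ω := by
  unfold cfg
  rw [mem_filter, mem_powerset]

theorem Disc.edge_zero {z0 : Dart X} (H : G.Disc z0) {A : Finset (Dart X)} {g : ℤ → ℝ} {s : ℝ}
    (hg : ∀ w, g (w + 1) + g (w - 1) = s * g w) {e : Dart X} (he : e ∈ G.E \ A) :
    ∑ ω ∈ G.cfg A, G.wgt s ω * (G.CT g ω z0 e + G.CT g ω z0 (G.opp e)) = 0 := by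
  obtain ⟨he1, he2⟩ := Finset.mem_sdiff.1 he
  have hb : ∑ ω ∈ (G.cfg A).filter (fun ω => e ∈ ω),
        G.wgt s ω * (G.CT g ω z0 e + G.CT g ω z0 (G.opp e)) =
      ∑ ω ∈ (G.cfg A).filter (fun ω => ¬ e ∈ ω), G.wgt s (insert e ω) *
        (G.CT g (insert e ω) z0 e + G.CT g (insert e ω) z0 (G.opp e)) := by
    refine Finset.sum_nbij' (fun ω => ω.erase e) (fun ω => insert e ω) ?_ ?_ ?_ ?_ ?_
    · intro ω hω
      obtain ⟨h1, h2⟩ := Finset.mem_filter.1 hω
      obtain ⟨h3, h4⟩ := mem_cfg.1 h1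
      refine Finset.mem_filter.2 ⟨mem_cfg.2 ⟨(Finset.erase_subset e ω).trans h3, ?_⟩,
        Finset.notMem_erase e ω⟩
      intro x hx
      refine Finset.mem_erase.2 ⟨?_, h4 hx⟩
      rintro rfl
      exact he2 hx
    · intro ω hω
      obtain ⟨h1, h2⟩ := Finset.mem_filter.1 hω
      obtain ⟨h3, h4⟩ := mem_cfg.1 h1
      exact Finset.mem_filter.2 ⟨mem_cfg.2 ⟨insert_subset he1 h3, h4.trans (subset_insert _ _)⟩,
        Finset.mem_insert_self e ω⟩
    · intro ω hω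
      exact Finset.insert_erase (Finset.mem_filter.1 hω).2
    · intro ω hω
      exact Finset.erase_insert (Finset.mem_filter.1 hω).2
    · intro ω hω
      have h : insert e (ω.erase e) = ω := Finset.insert_erase (Finset.mem_filter.1 hω).2
      show G.wgt s ω * (G.CT g ω z0 e + G.CT g ω z0 (G.opp e)) =
        G.wgt s (insert e (ω.erase e)) * (G.CT g (insert e (ω.erase e)) z0 e +
          G.CT g (insert e (ω.erase e)) z0 (G.opp e))
      rw [h]
  rw [← Finset.sum_filter_add_sum_filter_not (G.cfg A) (fun ω => e ∈ ω), hb,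
    ← Finset.sum_add_distrib]
  refine Finset.sum_eq_zero (fun ω hω => ?_)
  obtain ⟨h1, h2⟩ := Finset.mem_filter.1 hω
  obtain ⟨h3, h4⟩ := mem_cfg.1 h1
  have h5 := H.rel hg (insert_subset he1 h3) h2 (H.anti (insert_subset he1 h3) subset_rfl H.out)
  linarith

theorem Disc.mem_E {z0 : Dart X} (H : G.Disc z0) {z : Dart X} (hz : z ∈ G.dS)
    (h : ¬ G.op G.E z) : z ∈ G.lp G.E z0 := (mem_lp subset_rfl).2 (H.mis z hz h)

theorem Disc.CT_missing {z0 : Dart X} (H : G.Disc z0) {g : ℤ → ℝ} {ω : Finset (Dart X)}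
    (hω : ω ⊆ G.E) {z : Dart X} (hz : z ∈ G.dS) (h : ¬ G.op G.E z) :
    G.CT g ω z0 z = if z ∈ G.lp ω z0 then g (G.wd G.E z0 z) else 0 := by
  unfold CT
  by_cases h1 : z ∈ G.lp ω z0
  · rw [if_pos h1, if_pos h1, H.wd_anti hω subset_rfl H.out h1 (H.mem_E hz h)]
    unfold ctt
    rw [if_neg]
    rintro (h2 | h2)
    · exact h (Or.inl (hω h2))
    · exact h (Or.inr (hω h2))
  · rw [if_neg h1, if_neg h1]

theorem Disc.mem_A {z0 : Dart X} (H : G.Disc z0) {A ω : Finset (Dart X)}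
    (hω : ω ⊆ G.E) (hA : A ⊆ ω) (hc : ∀ e ∈ A, (G.gph A).Reachable z0.1 e.1) {z : Dart X}
    (hz : G.op A z) (h1 : z ∈ G.lp ω z0) : z ∈ G.lp A z0 := by
  have hT : G.T ω z0 = 4 := H.anti hω subset_rfl H.out
  apply H.mem_lp_of_reach (hA.trans hω) (H.anti hA hω hT)
  · apply H.anti hA hω
    rw [← T_orb hω ((mem_lp hω).1 h1)]
    exact hT
  · rcases hz with h | h
    · exact hc z h
    · have := hc _ h
      have h2 := reach_op (G := G) (ω := A) (z := G.opp z) (Or.inl h)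
      rw [G.inv] at h2
      exact this.trans h2

theorem Disc.CT_wired {z0 : Dart X} (H : G.Disc z0) {g : ℤ → ℝ} {A ω : Finset (Dart X)}
    (hω : ω ⊆ G.E) (hA : A ⊆ ω) (hc : ∀ e ∈ A, (G.gph A).Reachable z0.1 e.1) {z : Dart X}
    (hz : G.op A z) :
    G.CT g ω z0 z = - (if z ∈ G.lp ω z0 then g (G.wd A z0 z - 1) else 0) := by
  unfold CT
  by_cases h1 : z ∈ G.lp ω z0
  · have hT : G.T ω z0 = 4 := H.anti hω subset_rfl H.out
    rw [if_pos h1, if_pos h1, H.wd_anti hA hω hT (H.mem_A hω hA hc hz h1) h1]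
    unfold ctt
    rw [if_pos]
    rcases hz with h2 | h2
    · exact Or.inl (hA h2)
    · exact Or.inr (hA h2)
  · rw [if_neg h1, if_neg h1, neg_zero]

/-- total weight of the configurations in which the loop of `z0` passes at `z` -/
def W (G : Glue X) (s : ℝ) (A : Finset (Dart X)) (z0 z : Dart X) : ℝ :=
  ∑ ω ∈ G.cfg A, if z ∈ G.lp ω z0 then G.wgt s ω else 0

/-- the sum rule -/
theorem Disc.rule {z0 : Dart X} (H : G.Disc z0) {A : Finset (Dart X)} (hAE : A ⊆ G.E)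
    (hc : ∀ e ∈ A, (G.gph A).Reachable z0.1 e.1) {g : ℤ → ℝ} {s : ℝ}
    (hg : ∀ w, g (w + 1) + g (w - 1) = s * g w) :
    ∑ z ∈ G.dS.filter (fun z => ¬ G.op G.E z), g (G.wd G.E z0 z) * G.W s A z0 z -
      ∑ z ∈ G.dS.filter (fun z => G.op A z), g (G.wd A z0 z - 1) * G.W s A z0 z =
      (g 0 + g 1 + g 2 + g 3) * ∑ ω ∈ G.cfg A, G.wgt s ω := by
  have h1 : ∀ ω ∈ G.cfg A, (g 0 + g 1 + g 2 + g 3) * G.wgt s ω =
      ∑ e ∈ G.E \ A, G.wgt s ω * (G.CT g ω z0 e + G.CT g ω z0 (G.opp e)) +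
      (- ∑ z ∈ G.dS.filter (fun z => G.op A z),
        g (G.wd A z0 z - 1) * (if z ∈ G.lp ω z0 then G.wgt s ω else 0)) +
      ∑ z ∈ G.dS.filter (fun z => ¬ G.op G.E z),
        g (G.wd G.E z0 z) * (if z ∈ G.lp ω z0 then G.wgt s ω else 0) := by
    intro ω hω
    obtain ⟨h2, h3⟩ := mem_cfg.1 hω
    have h4 := sum_CT (g := g) h2 (mem_dS.2 H.mem) (H.anti h2 subset_rfl H.out)
    rw [← h4, CT_part hAE, add_mul, add_mul, Finset.sum_mul, Finset.sum_mul, Finset.sum_mul,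
      ← Finset.sum_neg_distrib]
    congr 1
    · congr 1
      · apply Finset.sum_congr rfl; intro e _; ring
      · apply Finset.sum_congr rfl
        intro z hz
        rw [H.CT_wired h2 h3 hc (mem_filter.1 hz).2]
        by_cases h5 : z ∈ G.lp ω z0
        · rw [if_pos h5, if_pos h5]; ring
        · rw [if_neg h5, if_neg h5]; ring
    · apply Finset.sum_congr rfl
      intro z hz
      rw [H.CT_missing h2 (mem_filter.1 hz).1 (mem_filter.1 hz).2]
      by_cases h5 : z ∈ G.lp ω z0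
      · rw [if_pos h5, if_pos h5]
      · rw [if_neg h5, if_neg h5]; ring
  rw [Finset.mul_sum, Finset.sum_congr rfl h1, Finset.sum_add_distrib, Finset.sum_add_distrib,
    Finset.sum_comm, Finset.sum_eq_zero (s := G.E \ A) (fun e he => H.edge_zero hg he),
    Finset.sum_neg_distrib,
    Finset.sum_comm (s := G.cfg A) (t := G.dS.filter (fun z => G.op A z)),
    Finset.sum_comm (s := G.cfg A) (t := G.dS.filter (fun z => ¬ G.op G.E z))]
  simp only [← Finset.mul_sum]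
  unfold W
  ring

/-- a boundary vertex is on the loop iff it is connected -/
theorem Disc.mem_iff {z0 : Dart X} (H : G.Disc z0) {ω : Finset (Dart X)} (hω : ω ⊆ G.E)
    {z : Dart X} (hz : z ∈ G.dS) (h : ¬ G.op G.E z) :
    z ∈ G.lp ω z0 ↔ (G.gph ω).Reachable z0.1 z.1 := by
  constructor
  · intro h1
    exact reach_orb ((mem_lp hω).1 h1)
  · intro h1
    apply H.mem_lp_of_reach hω (H.anti hω subset_rfl H.out) _ h1
    apply H.anti hω subset_rfl
    rw [← T_orb subset_rfl (H.mis z hz h)]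
    exact H.out

end Glue

end FKR
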