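import Pool.Agent.Lib.MP_216314_pr.R.Count

/-!
# In a disc the total turning of every loop of every configuration is `±4`
-/

set_option autoImplicit false

noncomputable section

namespace FKR

open Finset FKD

namespace Glue

variable {X : Type} [DecidableEq X] {G : Glue X}

/-- connected configurations -/
theorem Disc.span {z0 : Dart X} (h : G.Disc z0) {ω : Finset (Dart X)} (hω : ω ⊆ G.E)
    (hc : ∀ u ∈ G.S, ∀ v ∈ G.S, (G.gph ω).Reachable u v) : ∀ z ∈ G.dS,
    (G.T ω z = 4 ∧ Orb (G.nx ω) z0 z) ∨ G.T ω z = -4 := by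
  have key : (∀ u ∈ G.S, ∀ v ∈ G.S, (G.gph ω).Reachable u v) → ∀ z ∈ G.dS,
      (G.T ω z = 4 ∧ Orb (G.nx ω) z0 z) ∨ G.T ω z = -4 := by
    refine down_ind (P := fun ω1 => (∀ u ∈ G.S, ∀ v ∈ G.S, (G.gph ω1).Reachable u v) → ∀ z ∈ G.dS,
      (G.T ω1 z = 4 ∧ Orb (G.nx ω1) z0 z) ∨ G.T ω1 z = -4) hω ?_ ?_
    · intro _ z hz
      by_cases ho : Orb (G.nx G.E) z0 z
      · left
        refine ⟨?_, ho⟩
        rw [← T_orb subset_rfl ho]
        exact h.out
      · right
        exact h.inn z hz ho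
    · intro ω1 e h1 h2 h3 ih hc1 z hz
      have hE : e ∈ G.E := h3 (mem_insert_self _ _)
      have hω1 : ω1 ⊆ G.E := (subset_insert _ _).trans h3
      have hP := per_nx hω1
      have hP' := per_nx h3
      have me : e ∈ G.dS := mem_dS.2 (G.left e hE)
      have mo : G.opp e ∈ G.dS := mem_dS.2 (G.right e hE)
      have ih' := ih (fun u hu v hv => (hc1 u hu v hv).mono (gph_mono (subset_insert _ _)))
      have ho := h.planar h3 h2 (hc1 _ (G.left e hE) _ (G.right e hE))
      obtain ⟨s1, s2, _⟩ := (swp h3 h2).same ho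
      have ts := T_same h3 h2 ho
      rcases loop_cases h3 h2 z with ⟨n1, n2⟩ | ⟨_, a1, a2⟩ | ⟨a0, _, _⟩
      · rcases ih' z hz with ⟨b1, b2⟩ | b1
        · left
          refine ⟨by rw [← T_free h3 h2 n1 n2]; exact b1, ?_⟩
          have := (((swp h3 h2).free n1 n2).2 z0).1 (orb_symm hP' b2)
          exact orb_symm hP this
        · right
          rw [← T_free h3 h2 n1 n2]; exact b1
      · rw [← T_orb hω1 a1]
        rcases ih' e me with ⟨b1, b2⟩ | b1 <;> rcases ih' _ mo with ⟨c1, c2⟩ | c1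
        · exact absurd (orb_trans (orb_symm hP' b2) c2) s1
        · left
          refine ⟨by omega, ?_⟩
          exact orb_trans (orb_symm hP ((s2 z0).2 (Or.inl (orb_symm hP' b2)))) a1
        · left
          refine ⟨by omega, ?_⟩
          exact orb_trans (orb_symm hP ((s2 z0).2 (Or.inr (orb_symm hP' c2)))) a1
        · right
          omega
      · exact absurd ho a0
  exact key hc

/-- adding an edge to an isolated vertex -/
theorem hang {ω : Finset (Dart X)} {e : Dart X} (hi : insert e ω ⊆ G.E) (he : e ∉ ω) {d : Dart X}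
    (hd : d = e ∨ d = G.opp e) (hne : (G.opp d).1 ≠ d.1) (hiso : ∀ k, ¬ G.op ω (d.1, k))
    {z : Dart X} (hz : z.1 ≠ d.1) : G.T (insert e ω) z = G.T ω z := by
  have hω : ω ⊆ G.E := (subset_insert _ _).trans hi
  have hP := per_nx hω
  have td : G.T ω d = 4 := iso_T hiso d.2
  have od : ∀ w, Orb (G.nx ω) d w → w.1 = d.1 := by
    rintro w ⟨i, rfl⟩
    have := iso_iter hiso d.2 i
    rw [show (d.1, d.2) = d from rfl] at this
    rw [this]
  have ho : ¬ Orb (G.nx ω) e (G.opp e) := by
    intro h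
    rcases hd with rfl | rfl
    · exact hne (od _ h)
    · have := od _ (orb_symm hP h)
      rw [G.inv] at hne
      exact hne this
  have td' := T_diff hi he ho
  have h3 := (swp hi he).diff ho
  have hP' := per_nx hi
  rcases loop_cases hi he z with ⟨n1, n2⟩ | ⟨a0, _, _⟩ | ⟨_, a1, a2⟩
  · exact T_free hi he n1 n2
  · exact absurd a0 ho
  · rw [← T_orb hi a1, td']
    rcases hd with rfl | rfl
    · rcases a2 with a2 | a2
      · exact absurd (od _ a2) hz
      · rw [td, ← T_orb hω a2]; ring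
    · rcases a2 with a2 | a2
      · rw [td, ← T_orb hω a2]; ring
      · exact absurd (od _ a2) hz

theorem exists_cross {ω : Finset (Dart X)} {U : Finset X} {u v : X}
    (h : (G.gph ω).Reachable u v) (hu : u ∈ U) (hv : v ∉ U) :
    ∃ a ∈ U, ∃ b, b ∉ U ∧ (G.gph ω).Adj a b := by
  obtain ⟨p⟩ := h
  induction p with
  | nil => exact absurd hu hv
  | cons hadj _ ih =>
    rename_i a b c w
    by_cases hb : b ∈ U
    · exact ih hb hv
    · exact ⟨a, hu, b, hb, hadj⟩

theorem Disc.grow {z0 : Dart X} (h : G.Disc z0) (u0 : X) : ∀ n : ℕ, ∀ ω : Finset (Dart X), ω ⊆ G.E →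
    ∀ U : Finset X, U ⊆ G.S → u0 ∈ U → (∀ e ∈ ω, e.1 ∈ U ∧ (G.opp e).1 ∈ U) →
    (∀ u ∈ U, (G.gph ω).Reachable u0 u) → (G.S \ U).card = n →
    ∀ z : Dart X, z.1 ∈ U → G.T ω z = 4 ∨ G.T ω z = -4 := by
  intro n
  induction n with
  | zero =>
    intro ω hω U hU hu0 hU2 hU3 hn z hz
    rw [card_eq_zero, sdiff_eq_empty_iff_subset] at hn
    have hUS : U = G.S := subset_antisymm hU hn
    have := h.span hω (fun u hu v hv =>
      (hU3 u (hn hu)).symm.trans (hU3 v (hn hv))) z (mem_dS.2 (hU hz))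
    rcases this with h1 | h1
    · exact Or.inl h1.1
    · exact Or.inr h1
  | succ n ih =>
    intro ω hω U hU hu0 hU2 hU3 hn z hz
    obtain ⟨v, hv⟩ : (G.S \ U).Nonempty := by rw [← card_pos, hn]; omega
    rw [mem_sdiff] at hv
    obtain ⟨a, ha, b, hb, hab⟩ := exists_cross (h.conn u0 (hU hu0) v hv.1) hu0 hv.2
    -- the edge and its dart at b
    have hE : ∃ e ∈ G.E, ∃ d : Dart X, (d = e ∨ d = G.opp e) ∧ d.1 = b ∧ (G.opp d).1 = a := by
      unfold gph at hab
      rw [SimpleGraph.fromRel_adj] at hab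
      obtain ⟨_, ⟨e, he, h1, h2⟩ | ⟨e, he, h1, h2⟩⟩ := hab
      · exact ⟨e, he, G.opp e, Or.inr rfl, h2, by rw [G.inv]; exact h1⟩
      · exact ⟨e, he, e, Or.inl rfl, h1, h2⟩
    obtain ⟨e, he, d, hd, hdb, hda⟩ := hE
    have hiso : ∀ k, ¬ G.op ω (d.1, k) := by
      rintro k (h1 | h1)
      · exact hb (hdb ▸ (hU2 _ h1).1)
      · have := (hU2 _ h1).2
        rw [G.inv] at this
        exact hb (hdb ▸ this)
    have he' : e ∉ ω := by
      intro h1
      rcases hd with rfl | rfl
      · exact hb (hdb ▸ (hU2 _ h1).1)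
      · exact hb (hdb ▸ (hU2 _ h1).2)
    have hi : insert e ω ⊆ G.E := insert_subset he hω
    have hne : (G.opp d).1 ≠ d.1 := by
      rw [hda, hdb]
      rintro rfl
      exact hb ha
    have hz' : z.1 ≠ d.1 := by
      rw [hdb]
      rintro h1
      exact hb (h1 ▸ hz)
    rw [← hang hi he' hd hne hiso hz']
    have hends : (e.1 = a ∧ (G.opp e).1 = b) ∨ (e.1 = b ∧ (G.opp e).1 = a) := by
      rcases hd with rfl | rfl
      · exact Or.inr ⟨hdb, hda⟩
      · rw [G.inv] at hda
        exact Or.inl ⟨hda, hdb⟩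
    have hbS : b ∈ G.S := by
      rcases hends with ⟨_, h2⟩ | ⟨h1, _⟩
      · rw [← h2]; exact G.right e he
      · rw [← h1]; exact G.left e he
    have hop : G.op (insert e ω) e := Or.inl (mem_insert_self _ _)
    have hrab : (G.gph (insert e ω)).Reachable a b := by
      have h1 := reach_op hop
      rcases hends with ⟨h2, h3⟩ | ⟨h2, h3⟩
      · rw [h2, h3] at h1; exact h1
      · rw [h2, h3] at h1; exact h1.symm
    refine ih (insert e ω) hi (insert b U) (insert_subset hbS hU) (mem_insert_of_mem hu0) ?_ ?_ ?_ z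
      (mem_insert_of_mem hz)
    · intro f hf
      rcases mem_insert.1 hf with rfl | hf
      · rcases hends with ⟨h2, h3⟩ | ⟨h2, h3⟩
        · rw [h2, h3]; exact ⟨mem_insert_of_mem ha, mem_insert_self _ _⟩
        · rw [h2, h3]; exact ⟨mem_insert_self _ _, mem_insert_of_mem ha⟩
      · exact ⟨mem_insert_of_mem (hU2 f hf).1, mem_insert_of_mem (hU2 f hf).2⟩
    · intro u hu
      rcases mem_insert.1 hu with rfl | hu
      · exact ((hU3 a ha).mono (gph_mono (subset_insert _ _))).trans hrab
      · exact (hU3 u hu).mono (gph_mono (subset_insert _ _))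
    · have h6 : G.S \ insert b U = (G.S \ U).erase b := by
        ext x; simp only [mem_sdiff, mem_insert, mem_erase]; tauto
      rw [h6, card_erase_of_mem (mem_sdiff.2 ⟨hbS, hb⟩), hn]
      rfl

theorem T_congr {ω ω' : Finset (Dart X)} {p : Dart X} (h : ∀ i, (G.nx ω')^[i] p = (G.nx ω)^[i] p)
    (h2 : ∀ i, G.dlt ω' ((G.nx ω)^[i] p) = G.dlt ω ((G.nx ω)^[i] p)) : G.T ω' p = G.T ω p := by
  have hmp : Function.minimalPeriod (G.nx ω') p = Function.minimalPeriod (G.nx ω) p := by
    rw [Function.minimalPeriod_eq_minimalPeriod_iff]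
    intro n
    unfold Function.IsPeriodicPt Function.IsFixedPt
    rw [h n]
  unfold T
  rw [osum_range, osum_range, hmp]
  apply Finset.sum_congr rfl
  intro i _
  rw [h, h2]

/-- every loop turns by `±4` -/
theorem Disc.pm {z0 : Dart X} (h : G.Disc z0) {ω : Finset (Dart X)} (hω : ω ⊆ G.E) (z : Dart X) :
    G.T ω z = 4 ∨ G.T ω z = -4 := by
  classical
  by_cases hz : z.1 ∈ G.S
  · set ωC := ω.filter (fun e => (G.gph ω).Reachable z.1 e.1) with hωC
    have hsub : ωC ⊆ ω := filter_subset _ _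
    set U := G.S.filter (fun u => (G.gph ω).Reachable z.1 u) with hU
    have hopeq : ∀ y : Dart X, (G.gph ω).Reachable z.1 y.1 → (G.op ωC y ↔ G.op ω y) := by
      intro y hy
      constructor
      · rintro (h1 | h1)
        · exact Or.inl (hsub h1)
        · exact Or.inr (hsub h1)
      · intro h1
        rcases h1 with h1 | h1
        · exact Or.inl (mem_filter.2 ⟨h1, hy⟩)
        · exact Or.inr (mem_filter.2 ⟨h1, hy.trans (reach_op (Or.inr h1))⟩)
    have hiter : ∀ i, (G.nx ωC)^[i] z = (G.nx ω)^[i] z := by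
      intro i
      induction i with
      | zero => rfl
      | succ i ih =>
        rw [Function.iterate_succ_apply', Function.iterate_succ_apply', ih]
        have h1 := hopeq _ (reach_orb (G := G) (ω := ω) (p := z) ⟨i, rfl⟩)
        unfold nx
        by_cases h2 : G.op ω ((G.nx ω)^[i] z)
        · unfold nx at h2 h1
          rw [if_pos h2, if_pos (h1.2 h2)]
        · unfold nx at h2 h1
          rw [if_neg h2, if_neg (fun h3 => h2 (h1.1 h3))]
    have hT : G.T ωC z = G.T ω z := by
      apply T_congr hiter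
      intro i
      have h1 := hopeq _ (reach_orb (G := G) (ω := ω) (p := z) ⟨i, rfl⟩)
      unfold dlt
      by_cases h2 : G.op ω ((G.nx ω)^[i] z)
      · rw [if_pos h2, if_pos (h1.2 h2)]
      · rw [if_neg h2, if_neg (fun h3 => h2 (h1.1 h3))]
    rw [← hT]
    refine h.grow z.1 _ ωC (hsub.trans hω) U (filter_subset _ _)
      (mem_filter.2 ⟨hz, SimpleGraph.Reachable.refl _⟩) ?_ ?_ rfl z
      (mem_filter.2 ⟨hz, SimpleGraph.Reachable.refl _⟩)
    · intro e he
      obtain ⟨h1, h2⟩ := mem_filter.1 he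
      refine ⟨mem_filter.2 ⟨G.left e (hω h1), h2⟩, mem_filter.2 ⟨G.right e (hω h1), ?_⟩⟩
      exact h2.trans (reach_op (Or.inl h1))
    · intro u hu
      have hr := (mem_filter.1 hu).2
      have key : ∀ a b : X, (G.gph ω).Walk a b → (G.gph ωC).Reachable z.1 a →
          (G.gph ωC).Reachable z.1 b := by
        intro a b w
        induction w with
        | nil => exact fun h1 => h1
        | cons hadj _ ih =>
          rename_i a b c w
          intro h1
          apply ih
          have h2 : (G.gph ω).Reachable z.1 a := h1.mono (gph_mono hsub)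
          refine h1.trans (SimpleGraph.Adj.reachable ?_)
          have hab := hadj
          unfold gph at hab ⊢
          rw [SimpleGraph.fromRel_adj] at hab ⊢
          obtain ⟨h3, ⟨e, he, h4, h5⟩ | ⟨e, he, h4, h5⟩⟩ := hab
          · refine ⟨h3, Or.inl ⟨e, mem_filter.2 ⟨he, ?_⟩, h4, h5⟩⟩
            rw [h4]; exact h2
          · refine ⟨h3, Or.inr ⟨e, mem_filter.2 ⟨he, ?_⟩, h4, h5⟩⟩
            rw [h4]; exact h2.trans hadj.reachable
      obtain ⟨w⟩ := hr
      exact key _ _ w (SimpleGraph.Reachable.refl _)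
  · left
    apply iso_T (x := z.1) (k := z.2)
    intro k h1
    exact hz (op_mem hω h1).1

end Glue

end FKR
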