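import Pool.Agent.Lib.MP_216314_pr.R.Hist3

/-!
# The sum rule in the wedges of angle `n π / 4`

`t = false`: the rectangles `Q_0, …, Q_J`, angle `(J+1) π / 2`. `t = true`: the last one is cut along the diagonal,
angle `(J+1) π / 2 - π / 4`.
-/

set_option autoImplicit false

noncomputable section

namespace FKR

open Finset FKD FKI

/-- the upper profile of the last rectangle -/
def hf (t : Bool) (M a : ℕ) : ℕ := if t then min a M else M

/-- the vertices of the wedge -/
def WS (t : Bool) (J : ℕ) (m : ℕ → ℕ) : Finset QV := hS J m (hf t (m (J + 1)))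

/-- far side number `k` -/
def sideF (t : Bool) (J : ℕ) (m : ℕ → ℕ) (k : ℕ) : Finset QV := (WS t J m).filter (fun v =>
  (v.1 = k ∧ v.2.1 = m k) ∨ (v.1 + 1 = k ∧ v.2.2 = m k ∧ (v.1 = J → t = true → v.2.2 < v.2.1)))

/-- the second near side -/
def sideN (t : Bool) (J : ℕ) (m : ℕ → ℕ) : Finset QV := (WS t J m).filter (fun v =>
  v.1 = J ∧ v.2.1 = if t then v.2.2 else 0)

/-- the first near side beyond the starting point -/
def sideR (t : Bool) (J : ℕ) (m : ℕ → ℕ) (a0 : ℕ) : Finset QV := (WS t J m).filter (fun v =>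
  v.1 = 0 ∧ v.2.2 = 0 ∧ a0 < v.2.1)

/-- the first near side before the starting point -/
def sideL (t : Bool) (J : ℕ) (m : ℕ → ℕ) (a0 : ℕ) : Finset QV := (WS t J m).filter (fun v =>
  v.1 = 0 ∧ v.2.2 = 0 ∧ v.2.1 < a0)

/-- probability that the vertex `v` is connected to `(0,a0,0)` -/
def pW (t : Bool) (J : ℕ) (q : ℝ) (m : ℕ → ℕ) (a0 : ℕ) (v : QV) : ℝ :=
  (ind (WS t J m)).Pr q ∅ (fun ω => ((ind (WS t J m)).gph ω).Reachable (0, a0, 0) v)

theorem mem_WS {t : Bool} {J : ℕ} {m : ℕ → ℕ} {i a b : ℕ} : (i, a, b) ∈ WS t J m ↔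
    (i < J ∧ a ≤ m i ∧ b ≤ m (i + 1)) ∨ (i = J ∧ a ≤ m J ∧ b ≤ hf t (m (J + 1)) a) := mem_hS

theorem Pr_self {G : Glue QV} {q : ℝ} (hq : 0 < q) (v : QV) :
    G.Pr q ∅ (fun ω => (G.gph ω).Reachable v v) = 1 := by
  refine Eq.trans ?_ (Glue.Ex_const (G := G) hq (empty_subset _) 1)
  unfold Glue.Pr
  apply Glue.Ex_congr
  intro ω _
  rw [if_pos (SimpleGraph.Reachable.refl _)]

theorem start_mem {t : Bool} {J a0 : ℕ} {m : ℕ → ℕ} (ha0 : a0 ≤ m 0) : (0, a0, 0) ∈ WS t J m := by
  rw [mem_WS]
  rcases Nat.eq_zero_or_pos J with h1 | h1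
  · subst h1
    right; omega
  · left; omega

theorem sum_four (f : ZMod 4 → ℝ) : ∑ k, f k = f 0 + f 1 + f 2 + f 3 := Fin.sum_univ_four f

theorem hf_false (M a : ℕ) : hf false M a = M := rfl
theorem hf_true (M a : ℕ) : hf true M a = min a M := rfl

/-- the weights of a vertex -/
theorem vert_weight {t : Bool} {J a0 : ℕ} {m : ℕ → ℕ} {i a b : ℕ} (hv : (i, a, b) ∈ WS t J m)
    (ha0 : a0 ≤ m 0) (g : ℤ → ℝ) :
    (∑ k : ZMod 4, if ¬ (ind (WS t J m)).op (ind (WS t J m)).E ((i, a, b), k) then
      g (hh a0 ((i, a, b), k)) else 0) =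
    g (-1) * (if (i, a, b) ∈ sideR t J m a0 then 1 else 0) +
    g 3 * (if (i, a, b) ∈ sideL t J m a0 then 1 else 0) +
    g 3 * (if (i, a, b) = (0, a0, 0) then 1 else 0) +
    (∑ k ∈ range (J + 2), g k * (if (i, a, b) ∈ sideF t J m k then 1 else 0)) +
    (if t then g (J + 1) + g (J + 2) else g (J + 2)) *
      (if (i, a, b) ∈ sideN t J m then 1 else 0) := by
  have hv' := mem_WS.1 hv
  have hiJ : i ≤ J := by omega
  -- the far sides
  have hF : (∑ k ∈ range (J + 2), g k * (if (i, a, b) ∈ sideF t J m k then (1 : ℝ) else 0)) =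
      g i * (if a = m i then 1 else 0) +
      g (i + 1) * (if b = m (i + 1) ∧ (i = J → t = true → b < a) then 1 else 0) := by
    have h1 : ∀ k ∈ range (J + 2), g k * (if (i, a, b) ∈ sideF t J m k then (1 : ℝ) else 0) =
        (if k = i then g k * (if a = m k then 1 else 0) else 0) +
        (if k = i + 1 then g k * (if b = m k ∧ (i = J → t = true → b < a) then 1 else 0)
          else 0) := by
      intro k _
      have hmem : (i, a, b) ∈ sideF t J m k ↔ ((i = k ∧ a = m k) ∨
          (i + 1 = k ∧ b = m k ∧ (i = J → t = true → b < a))) := by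
        unfold sideF
        rw [mem_filter]
        exact ⟨fun h => h.2, fun h => ⟨hv, h⟩⟩
      simp only [hmem]
      by_cases h2 : k = i
      · subst h2
        rw [if_pos rfl, if_neg (show ¬ (k = k + 1) by omega), add_zero]
        congr 1
        apply if_congr _ rfl rfl
        constructor
        · rintro (h3 | h3)
          · exact h3.2
          · omega
        · intro h3; exact Or.inl ⟨rfl, h3⟩
      · rw [if_neg h2, zero_add]
        by_cases h3 : k = i + 1
        · subst h3
          rw [if_pos rfl]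
          congr 1
          apply if_congr _ rfl rfl
          constructor
          · rintro (h4 | h4)
            · omega
            · exact h4.2
          · intro h4; exact Or.inr ⟨rfl, h4⟩
        · rw [if_neg h3, if_neg, mul_zero]
          rintro (h4 | h4)
          · exact h2 h4.1.symm
          · exact h3 h4.1.symm
    rw [sum_congr rfl h1, sum_add_distrib, sum_ite_eq', sum_ite_eq',
      if_pos (mem_range.2 (by omega)), if_pos (mem_range.2 (by omega))]
    push_cast
    rfl
  rw [hF, sum_four]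
  have o0 := hop0 (show (i, a, b) ∈ hS J m (hf t (m (J + 1))) from hv)
  have o1 := hop1 (show (i, a, b) ∈ hS J m (hf t (m (J + 1))) from hv)
  have o2 := hop2 (show (i, a, b) ∈ hS J m (hf t (m (J + 1))) from hv)
  have o3 := hop3 (show (i, a, b) ∈ hS J m (hf t (m (J + 1))) from hv)
  have c0 : (if ¬ (ind (WS t J m)).op (ind (WS t J m)).E ((i, a, b), 0) then
      g (hh a0 ((i, a, b), 0)) else 0) = g i * (if a = m i then 1 else 0) := by
    have e : (¬ (ind (WS t J m)).op (ind (WS t J m)).E ((i, a, b), 0)) ↔ a = m i := by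
      unfold WS
      rw [o0]
      rcases hv' with h1 | h1
      · omega
      · obtain ⟨rfl, h2, h3⟩ := h1
        cases t with
        | false =>
          rw [hf_false] at h3 ⊢
          omega
        | true =>
          rw [hf_true] at h3 ⊢
          omega
    by_cases h1 : a = m i
    · rw [if_pos (e.2 h1), if_pos h1, mul_one, hh0_b]
      rintro ⟨rfl, _, h3⟩
      omega
    · rw [if_neg (fun h2 => h1 (e.1 h2)), if_neg h1, mul_zero]
  have c3 : (if ¬ (ind (WS t J m)).op (ind (WS t J m)).E ((i, a, b), 3) then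
      g (hh a0 ((i, a, b), 3)) else 0) =
      g (-1) * (if (i, a, b) ∈ sideR t J m a0 then 1 else 0) +
      g 3 * (if (i, a, b) ∈ sideL t J m a0 then 1 else 0) +
      g 3 * (if (i, a, b) = (0, a0, 0) then 1 else 0) := by
    have e : (¬ (ind (WS t J m)).op (ind (WS t J m)).E ((i, a, b), 3)) ↔ (i = 0 ∧ b = 0) := by
      unfold WS
      rw [o3]
      omega
    unfold sideR sideL
    simp only [mem_filter, hv, true_and, Prod.mk.injEq]
    by_cases h1 : i = 0 ∧ b = 0
    · rw [if_pos (e.2 h1)]
      obtain ⟨rfl, rfl⟩ := h1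
      simp only [true_and, and_true]
      rcases lt_trichotomy a a0 with h2 | h2 | h2
      · rw [if_neg (by omega), if_pos h2, if_neg (by omega), hh3_b (by omega)]
        norm_num
      · rw [if_neg (by omega), if_neg (by omega), if_pos h2, hh3_b (by omega)]
        norm_num
      · rw [if_pos h2, if_neg (by omega), if_neg (by omega), hh3_a h2]
        norm_num
    · rw [if_neg (fun h2 => h1 (e.1 h2)), if_neg (by omega), if_neg (by omega), if_neg (by omega)]
      ring
  have c12 : (if ¬ (ind (WS t J m)).op (ind (WS t J m)).E ((i, a, b), 1) then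
      g (hh a0 ((i, a, b), 1)) else 0) +
      (if ¬ (ind (WS t J m)).op (ind (WS t J m)).E ((i, a, b), 2) then
      g (hh a0 ((i, a, b), 2)) else 0) =
      g (i + 1) * (if b = m (i + 1) ∧ (i = J → t = true → b < a) then 1 else 0) +
      (if t then g (J + 1) + g (J + 2) else g (J + 2)) *
        (if (i, a, b) ∈ sideN t J m then 1 else 0) := by
    have e1 : (¬ (ind (WS t J m)).op (ind (WS t J m)).E ((i, a, b), 1)) ↔
        ¬ ((i < J ∧ b < m (i + 1)) ∨ (i = J ∧ b < hf t (m (J + 1)) a)) := by
      unfold WS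
      rw [o1]
    have e2 : (¬ (ind (WS t J m)).op (ind (WS t J m)).E ((i, a, b), 2)) ↔
        ¬ (i < J ∨ (i = J ∧ 0 < a ∧ b ≤ hf t (m (J + 1)) (a - 1))) := by
      unfold WS
      rw [o2]
    unfold sideN
    simp only [mem_filter, hv, true_and]
    rw [hh1, hh2]
    rcases hv' with h1 | h1
    · rw [if_neg (fun h2 => absurd (Or.inl h1.1) (e2.1 h2)), add_zero,
        if_neg (show ¬ (i = J ∧ a = if t = true then b else 0) by omega), mul_zero, add_zero]
      by_cases h3 : b = m (i + 1)
      · rw [if_pos (e1.2 (by omega)), if_pos ⟨h3, by omega⟩, mul_one]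
      · rw [if_neg (fun h4 => (e1.1 h4) (Or.inl ⟨h1.1, by omega⟩)), if_neg (fun h4 => h3 h4.1),
          mul_zero]
    · obtain ⟨rfl, h2, h3⟩ := h1
      cases t with
      | false =>
        rw [hf_false] at h3 e1 e2
        simp only [Bool.false_eq_true, false_implies, implies_true, and_true, if_false, true_and]
        have e1' : (¬ (ind (WS false i m)).op (ind (WS false i m)).E ((i, a, b), 1)) ↔
            b = m (i + 1) := by
          rw [e1]; omega
        have e2' : (¬ (ind (WS false i m)).op (ind (WS false i m)).E ((i, a, b), 2)) ↔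
            a = 0 := by
          rw [e2]; omega
        congr 1
        · by_cases h4 : b = m (i + 1)
          · rw [if_pos (e1'.2 h4), if_pos h4, mul_one]
          · rw [if_neg (fun h5 => h4 (e1'.1 h5)), if_neg h4, mul_zero]
        · by_cases h4 : a = 0
          · rw [if_pos (e2'.2 h4), if_pos h4, mul_one]
          · rw [if_neg (fun h5 => h4 (e2'.1 h5)), if_neg h4, mul_zero]
      | true =>
        rw [hf_true] at h3 e1 e2
        simp only [true_implies, if_true, true_and]
        have e1' : (¬ (ind (WS true i m)).op (ind (WS true i m)).E ((i, a, b), 1)) ↔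
            (a = b ∨ (b = m (i + 1) ∧ b < a)) := by
          rw [e1]; omega
        have e2' : (¬ (ind (WS true i m)).op (ind (WS true i m)).E ((i, a, b), 2)) ↔
            a = b := by
          rw [e2]; omega
        by_cases h4 : a = b
        · rw [if_pos (e1'.2 (Or.inl h4)), if_pos (e2'.2 h4), if_neg (by omega), if_pos h4]
          ring
        · rw [if_neg (fun h5 => h4 (e2'.1 h5)), if_neg h4]
          by_cases h5 : b = m (i + 1) ∧ b < a
          · rw [if_pos (e1'.2 (Or.inr h5)), if_pos h5]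
            ring
          · rw [if_neg (fun h6 => (e1'.1 h6).elim h4 h5), if_neg h5]
            ring
  rw [c0, c3]
  linarith [c12]

theorem sum_side {S T : Finset QV} (hT : T ⊆ S) (p : QV → ℝ) (c : ℝ) :
    ∑ v ∈ S, c * (if v ∈ T then 1 else 0) * p v = c * ∑ v ∈ T, p v := by
  rw [mul_sum, ← sum_subset hT (f := fun v => c * (if v ∈ T then 1 else 0) * p v)]
  · apply sum_congr rfl
    intro v hv
    rw [if_pos hv, mul_one]
  · intro v _ hv
    rw [if_neg hv]
    ring

/-- the sum rule in the wedge -/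
theorem WS_rule {t : Bool} {J a0 : ℕ} {m : ℕ → ℕ} (ha0 : a0 ≤ m 0) {g : ℤ → ℝ} {q : ℝ} (hq : 0 < q)
    (hg : ∀ w, g (w + 1) + g (w - 1) = √q * g w) :
    g (-1) * ∑ v ∈ sideR t J m a0, pW t J q m a0 v +
      g 3 * ∑ v ∈ sideL t J m a0, pW t J q m a0 v +
      ∑ k ∈ range (J + 2), g k * ∑ v ∈ sideF t J m k, pW t J q m a0 v +
      (if t then g (J + 1) + g (J + 2) else g (J + 2)) * ∑ v ∈ sideN t J m, pW t J q m a0 v =
    g 0 + g 1 + g 2 := by
  have h := (hist_disc (h := hf t (m (J + 1))) (J := J) ha0).rule_Pr (A := ∅) (empty_subset _)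
    (by simp) hq hg
  have hA : (ind (hS J m (hf t (m (J + 1))))).dS.filter
      (fun z => (ind (hS J m (hf t (m (J + 1))))).op ∅ z) = ∅ := by
    apply filter_false_of_mem
    rintro z _ (h1 | h1) <;> simp at h1
  rw [hA, sum_empty, sub_zero] at h
  have hw : ∀ z ∈ (ind (WS t J m)).dS.filter
      (fun z => ¬ (ind (WS t J m)).op (ind (WS t J m)).E z),
      g ((ind (WS t J m)).wd (ind (WS t J m)).E ((0, a0, 0), 0) z) *
        (ind (WS t J m)).Pr q ∅ (fun ω => ((ind (WS t J m)).gph ω).Reachable
          (((0, a0, 0), 0) : Dart QV).1 z.1) =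
      g (hh a0 z) * pW t J q m a0 z.1 := by
    intro z hz
    obtain ⟨hz, ho⟩ := mem_filter.1 hz
    have h1 := (hist_disc (h := hf t (m (J + 1))) (J := J) ha0).mis z hz ho
    have hB' : hB J m (hf t (m (J + 1))) z := by
      by_contra h2
      have h3 := hist_face (Glue.mem_dS.1 hz) h2
      have h4 : (ind (hS J m (hf t (m (J + 1))))).T (ind (hS J m (hf t (m (J + 1))))).E z =
          (ind (hS J m (hf t (m (J + 1))))).T (ind (hS J m (hf t (m (J + 1))))).E
            ((0, a0, 0), 0) := by
        unfold Glue.T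
        exact (osum_orb (Glue.per_nx subset_rfl) _ h1).symm
      rw [(hist_disc (h := hf t (m (J + 1))) (J := J) ha0).out, h3] at h4
      norm_num at h4
    have h5 := (hist_walk ha0 z hB').2
    show g ((ind (hS J m (hf t (m (J + 1))))).wd (ind (hS J m (hf t (m (J + 1))))).E
      ((0, a0, 0), 0) z) * _ = _
    rw [h5]
    rfl
  have h' : ∑ z ∈ (ind (WS t J m)).dS.filter
      (fun z => ¬ (ind (WS t J m)).op (ind (WS t J m)).E z),
      g ((ind (WS t J m)).wd (ind (WS t J m)).E ((0, a0, 0), 0) z) *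
        (ind (WS t J m)).Pr q ∅ (fun ω => ((ind (WS t J m)).gph ω).Reachable
          (((0, a0, 0), 0) : Dart QV).1 z.1) = g 0 + g 1 + g 2 + g 3 := h
  rw [sum_congr rfl hw, sum_filter] at h'
  have hdS : (ind (WS t J m)).dS = WS t J m ×ˢ univ := rfl
  rw [hdS, sum_product] at h'
  have hvw : ∀ v ∈ WS t J m,
      (∑ k : ZMod 4, if ¬ (ind (WS t J m)).op (ind (WS t J m)).E (v, k) then
        g (hh a0 (v, k)) * pW t J q m a0 (v, k).1 else 0) =
      g (-1) * (if v ∈ sideR t J m a0 then 1 else 0) * pW t J q m a0 v +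
      g 3 * (if v ∈ sideL t J m a0 then 1 else 0) * pW t J q m a0 v +
      g 3 * (if v ∈ ({(0, a0, 0)} : Finset QV) then 1 else 0) * pW t J q m a0 v +
      (∑ k ∈ range (J + 2), g k * (if v ∈ sideF t J m k then 1 else 0) * pW t J q m a0 v) +
      (if t then g (J + 1) + g (J + 2) else g (J + 2)) *
        (if v ∈ sideN t J m then 1 else 0) * pW t J q m a0 v := by
    rintro ⟨i, a, b⟩ hv
    have h6 := vert_weight hv ha0 g
    have h7 : (∑ k : ZMod 4, if ¬ (ind (WS t J m)).op (ind (WS t J m)).E ((i, a, b), k) then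
        g (hh a0 ((i, a, b), k)) * pW t J q m a0 (((i, a, b), k) : Dart QV).1 else 0) =
        (∑ k : ZMod 4, if ¬ (ind (WS t J m)).op (ind (WS t J m)).E ((i, a, b), k) then
        g (hh a0 ((i, a, b), k)) else 0) * pW t J q m a0 (i, a, b) := by
      rw [sum_mul]
      apply sum_congr rfl
      intro k _
      rw [ite_mul, zero_mul]
    rw [h7, h6, ← sum_mul]
    simp only [mem_singleton]
    ring
  rw [sum_congr rfl hvw, sum_add_distrib, sum_add_distrib, sum_add_distrib, sum_add_distrib,
    sum_comm (s := WS t J m)] at h'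
  have i1 : sideR t J m a0 ⊆ WS t J m := filter_subset _ _
  have i2 : sideL t J m a0 ⊆ WS t J m := filter_subset _ _
  have i3 : ∀ k, sideF t J m k ⊆ WS t J m := fun k => filter_subset _ _
  have i4 : sideN t J m ⊆ WS t J m := filter_subset _ _
  have i5 : ({(0, a0, 0)} : Finset QV) ⊆ WS t J m := singleton_subset_iff.2 (start_mem ha0)
  rw [sum_side i1, sum_side i2, sum_side i5, sum_side i4, sum_singleton,
    sum_congr rfl (fun k _ => sum_side (i3 k) _ _)] at h'
  have h8 : pW t J q m a0 (0, a0, 0) = 1 := Pr_self hq _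
  rw [h8] at h'
  linarith

end FKR
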