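import Mathlib

/-!
# Solutions of the recurrence `g (w + 1) + g (w - 1) = s g w`
-/

set_option autoImplicit false

noncomputable section

namespace FKR

open Polynomial

/-- a solution -/
def IsSol (s : ℝ) (g : ℤ → ℝ) : Prop := ∀ w, g (w + 1) + g (w - 1) = s * g w

/-- the solution with `u 0 = 0`, `u 1 = 1` -/
def uu (s : ℝ) (w : ℤ) : ℝ := (Chebyshev.S ℝ (w - 1)).eval s

theorem uu_sol (s : ℝ) : IsSol s (uu s) := by
  intro w
  unfold uu
  have h := congrArg (fun p => p.eval s) (Chebyshev.S_add_one ℝ (w - 1))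
  simp only [eval_sub, eval_mul, eval_X] at h
  rw [show w + 1 - 1 = w - 1 + 1 by ring, h]
  ring

theorem uu_zero (s : ℝ) : uu s 0 = 0 := by
  unfold uu
  rw [show (0 : ℤ) - 1 = -1 by ring, Chebyshev.S_neg_one]
  simp

theorem uu_one (s : ℝ) : uu s 1 = 1 := by
  unfold uu
  rw [show (1 : ℤ) - 1 = 0 by ring, Chebyshev.S_zero]
  simp

theorem uu_neg_one (s : ℝ) : uu s (-1) = -1 := by
  have h := uu_sol s 0
  rw [uu_zero, zero_add, zero_sub, uu_one] at h
  linarith

theorem IsSol.shift {s : ℝ} {g : ℤ → ℝ} (h : IsSol s g) (c : ℤ) : IsSol s (fun w => g (w + c)) := by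
  intro w
  have := h (w + c)
  show g (w + 1 + c) + g (w - 1 + c) = s * g (w + c)
  rw [← this]
  congr 2 <;> ring

theorem IsSol.refl {s : ℝ} {g : ℤ → ℝ} (h : IsSol s g) (c : ℤ) : IsSol s (fun w => g (c - w)) := by
  intro w
  have := h (c - w)
  show g (c - (w + 1)) + g (c - (w - 1)) = s * g (c - w)
  rw [← this, add_comm]
  congr 2 <;> ring

theorem IsSol.add {s : ℝ} {g g' : ℤ → ℝ} (h : IsSol s g) (h' : IsSol s g') (c : ℝ) :
    IsSol s (fun w => g w + c * g' w) := by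
  intro w
  have h1 := h w
  have h2 := h' w
  show g (w + 1) + c * g' (w + 1) + (g (w - 1) + c * g' (w - 1)) = s * (g w + c * g' w)
  linear_combination h1 + c * h2

/-- a positive solution on `K + 3` consecutive integers -/
theorem pos_sol {s : ℝ} {K : ℕ} (hu : ∀ k : ℤ, 1 ≤ k → k ≤ K + 2 → 0 < uu s k) (w0 : ℤ) :
    ∃ g, IsSol s g ∧ ∀ w, w0 ≤ w → w ≤ w0 + K + 2 → 0 < g w := by
  have hK : 0 < uu s (K + 2) := hu _ (by omega) le_rfl
  refine ⟨fun w => uu s (w + (1 - w0)) + (|uu s (K + 3)| / uu s (K + 2) + 1) *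
    uu s (w + (-w0)), ((uu_sol s).shift _).add ((uu_sol s).shift _) _, ?_⟩
  intro w h1 h2
  have hc : 0 < |uu s (K + 3)| / uu s (K + 2) + 1 := by positivity
  show 0 < uu s (w + (1 - w0)) + (|uu s (K + 3)| / uu s (K + 2) + 1) * uu s (w + (-w0))
  by_cases h3 : w = w0 + K + 2
  · subst h3
    rw [show w0 + (K : ℤ) + 2 + (1 - w0) = K + 3 by ring,
      show w0 + (K : ℤ) + 2 + (-w0) = K + 2 by ring]
    have h4 : (|uu s (K + 3)| / uu s (K + 2) + 1) * uu s (K + 2) =
        |uu s (K + 3)| + uu s (K + 2) := by field_simp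
    rw [h4]
    have := neg_abs_le (uu s (K + 3))
    linarith
  · have h4 : 0 < uu s (w + (1 - w0)) := hu _ (by omega) (by omega)
    have h5 : 0 ≤ uu s (w + (-w0)) := by
      by_cases h6 : w = w0
      · subst h6
        rw [show w + (-w) = 0 by ring, uu_zero]
      · exact (hu _ (by omega) (by omega)).le
    have := mul_nonneg hc.le h5
    linarith

/-- trigonometric form -/
theorem uu_cos (θ : ℝ) (w : ℤ) : uu (2 * Real.cos θ) w * Real.sin θ = Real.sin (w * θ) := by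
  unfold uu
  rw [Chebyshev.S_two_mul_real_cos]
  congr 1
  push_cast
  ring

theorem uu_pos_of_lt {θ : ℝ} (h0 : 0 < θ) {w : ℤ} (h1 : 1 ≤ w) (h2 : (w : ℝ) * θ < Real.pi) :
    0 < uu (2 * Real.cos θ) w := by
  have h3 : (1 : ℝ) ≤ w := by exact_mod_cast h1
  have h4 : θ ≤ w * θ := by nlinarith
  have h5 : 0 < Real.sin θ := Real.sin_pos_of_pos_of_lt_pi h0 (by linarith)
  have h6 : 0 < Real.sin (w * θ) := Real.sin_pos_of_pos_of_lt_pi (by linarith) h2
  rw [← uu_cos] at h6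
  exact pos_of_mul_pos_left h6 h5.le

/-- the case `s ≥ 2` -/
theorem uu_pos_of_two_le {s : ℝ} (hs : 2 ≤ s) : ∀ w : ℤ, 1 ≤ w → 0 < uu s w := by
  have key : ∀ n : ℕ, 0 < uu s (n + 1) ∧ uu s n ≤ uu s (n + 1) := by
    intro n
    induction n with
    | zero =>
      simp only [Nat.cast_zero, zero_add, uu_one, uu_zero]
      norm_num
    | succ n ih =>
      have h := uu_sol s (n + 1)
      rw [show (n : ℤ) + 1 - 1 = n by ring] at h
      push_cast
      obtain ⟨h1, h2⟩ := ih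
      have h3 : uu s (n + 1) ≤ uu s (n + 1 + 1) := by nlinarith
      exact ⟨by linarith, h3⟩
  intro w hw
  obtain ⟨n, rfl⟩ : ∃ n : ℕ, w = n + 1 := ⟨(w - 1).toNat, by omega⟩
  exact (key n).1

end FKR
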