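import Pool.Agent.Lib.MP_216314_pr.R.Sides
import Pool.Agent.Lib.MP_216314_pr.R.Fkg

/-!
# The two point function
-/

set_option autoImplicit false

noncomputable section

namespace FKR

open Finset

/-- two point function of the critical random-cluster model on the graph induced on `S` -/
def pS (q : ℝ) (S : Finset QV) (u v : QV) : ℝ :=
  (ind S).Pr q ∅ (fun ω => ((ind S).gph ω).Reachable u v)

theorem pS_eq {q : ℝ} (hq : 0 ≤ q) (S : Finset QV) (u v : QV) :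
    pS q S u v = FKQ.tau wopp (√q) S (indE S) u v := by
  have h1 : (ind S).cfg ∅ = (indE S).powerset := by
    ext ω
    rw [Glue.mem_cfg, mem_powerset]
    exact ⟨fun h => h.1, fun h => ⟨h, empty_subset _⟩⟩
  have h2 : ∀ ω, (ind S).wt q ω = FKQ.wk wopp (√q) S ω := by
    intro ω
    unfold Glue.wt FKQ.wk
    rw [Real.sq_sqrt hq]
    rfl
  unfold pS Glue.Pr Glue.Ex FKQ.tau FKQ.ex FKQ.ZZ
  rw [h1, sum_congr rfl (fun ω _ => h2 ω)]
  congr 1
  apply sum_congr rfl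
  intro ω _
  rw [h2]
  rfl

theorem ends_ind (S : Finset QV) : FKQ.Ends wopp S (indE S) := by
  rintro ⟨v, k⟩ he
  exact ⟨(mem_indE.1 he).1, (mem_indE.1 he).2.1⟩

theorem indE_mono {S S' : Finset QV} (h : S ⊆ S') : indE S ⊆ indE S' := by
  rintro ⟨v, k⟩ he
  obtain ⟨h1, h2, h3⟩ := mem_indE.1 he
  exact mem_indE.2 ⟨h h1, h h2, h3⟩

theorem pS_nonneg {q : ℝ} (hq : 0 < q) (S : Finset QV) (u v : QV) : 0 ≤ pS q S u v := by
  rw [pS_eq hq.le]
  exact FKQ.tau_nonneg (Real.sqrt_pos.2 hq) _ _ _ _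

theorem pS_le_one {q : ℝ} (hq : 0 < q) (S : Finset QV) (u v : QV) : pS q S u v ≤ 1 := by
  rw [pS_eq hq.le]
  exact FKQ.tau_le_one (Real.sqrt_pos.2 hq) _ _ _ _

theorem pS_comm {q : ℝ} (hq : 0 < q) (S : Finset QV) (u v : QV) : pS q S u v = pS q S v u := by
  rw [pS_eq hq.le, pS_eq hq.le, FKQ.tau_comm]

theorem pS_self {q : ℝ} (hq : 0 < q) (S : Finset QV) (u : QV) : pS q S u u = 1 := by
  rw [pS_eq hq.le]
  exact FKQ.tau_self (Real.sqrt_pos.2 hq) _ _ _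

theorem one_le_sqrt {q : ℝ} (hq : 1 ≤ q) : 1 ≤ √q := by
  rw [show (1 : ℝ) = √1 by simp]
  exact Real.sqrt_le_sqrt hq

theorem pS_mono {q : ℝ} (hq : 1 ≤ q) {S S' : Finset QV} (h : S ⊆ S') (u v : QV) :
    pS q S u v ≤ pS q S' u v := by
  rw [pS_eq (by linarith), pS_eq (by linarith)]
  exact FKQ.tau_mono (one_le_sqrt hq) h (indE_mono h) (ends_ind S) (ends_ind S') u v

theorem pS_tri {q : ℝ} (hq : 1 ≤ q) (S : Finset QV) (u v w : QV) :
    pS q S u v * pS q S v w ≤ pS q S u w := by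
  rw [pS_eq (by linarith), pS_eq (by linarith), pS_eq (by linarith)]
  exact FKQ.tau_tri (one_le_sqrt hq) (ends_ind S) u v w

theorem pS_edge {q : ℝ} (hq : 1 ≤ q) {S : Finset QV} (u : QV) {e : Dart QV} (he : e ∈ indE S) :
    pS q S u e.1 ≤ (1 + √q) * pS q S u (wopp e).1 ∧
      pS q S u (wopp e).1 ≤ (1 + √q) * pS q S u e.1 := by
  rw [pS_eq (by linarith), pS_eq (by linarith)]
  exact FKQ.tau_tri' (one_le_sqrt hq) (ends_ind S) u he

theorem pS_row {q : ℝ} (hq : 1 ≤ q) {S : Finset QV} (u : QV) {i b : ℕ} (x d : ℕ)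
    (h : ∀ x', x ≤ x' → x' ≤ x + d → (i, x', b) ∈ S) :
    pS q S u (i, x, b) ≤ (1 + √q) ^ d * pS q S u (i, x + d, b) := by
  have hc : 0 ≤ 1 + √q := by positivity
  induction d with
  | zero => simp
  | succ d ih =>
    have h1 := ih (fun x' h2 h3 => h x' h2 (by omega))
    have he : ((i, x + d, b), (0 : ZMod 4)) ∈ indE S :=
      mem_indE.2 ⟨h _ (by omega) (by omega), h (x + d + 1) (by omega) (by omega), Or.inl rfl⟩
    have h2 := (pS_edge hq u he).1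
    rw [wopp0] at h2
    calc pS q S u (i, x, b) ≤ (1 + √q) ^ d * pS q S u (i, x + d, b) := h1
      _ ≤ (1 + √q) ^ d * ((1 + √q) * pS q S u (i, x + d + 1, b)) :=
          mul_le_mul_of_nonneg_left h2 (pow_nonneg hc d)
      _ = _ := by rw [pow_succ]; ring_nf

theorem pS_col {q : ℝ} (hq : 1 ≤ q) {S : Finset QV} (u : QV) {i a : ℕ} (b : ℕ)
    (h : ∀ b', b' ≤ b → (i, a, b') ∈ S) :
    pS q S u (i, a, b) ≤ (1 + √q) ^ b * pS q S u (i, a, 0) := by
  have hc : 0 ≤ 1 + √q := by positivity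
  induction b with
  | zero => simp
  | succ b ih =>
    have h1 := ih (fun b' h2 => h b' (by omega))
    have he : ((i, a, b), (1 : ZMod 4)) ∈ indE S :=
      mem_indE.2 ⟨h _ (by omega), h (b + 1) le_rfl, Or.inr (Or.inl rfl)⟩
    have h2 := (pS_edge hq u he).2
    rw [wopp1] at h2
    calc pS q S u (i, a, b + 1) ≤ (1 + √q) * pS q S u (i, a, b) := h2
      _ ≤ (1 + √q) * ((1 + √q) ^ b * pS q S u (i, a, 0)) := mul_le_mul_of_nonneg_left h1 hc
      _ = _ := by rw [pow_succ]; ring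

theorem pS_glue {q : ℝ} (hq : 1 ≤ q) {S : Finset QV} (u : QV) {i b : ℕ}
    (h1 : (i, 0, b) ∈ S) (h2 : (i + 1, b, 0) ∈ S) :
    pS q S u (i + 1, b, 0) ≤ (1 + √q) * pS q S u (i, 0, b) := by
  have he : ((i, 0, b), (2 : ZMod 4)) ∈ indE S :=
    mem_indE.2 ⟨h1, by rw [wopp2']; exact h2, Or.inr (Or.inr ⟨rfl, rfl⟩)⟩
  have h3 := (pS_edge hq u he).2
  rw [wopp2'] at h3
  exact h3

end FKR
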