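import Pool.Agent.Lib.MP_216314_pr.R.WLim2

/-!
# The divergent case
-/

set_option autoImplicit false

noncomputable section

namespace FKR

open Finset Filter Topology

/-- the solution annihilated by the second near side -/
def gt (t : Bool) (J : ℕ) (s : ℝ) (w : ℤ) : ℝ :=
  uu s (J + 2 - w) + (if t then 1 else 0) * uu s (J + 1 - w)

theorem gt_sol (t : Bool) (J : ℕ) (s : ℝ) : IsSol s (gt t J s) :=
  ((uu_sol s).refl _).add ((uu_sol s).refl _) _

theorem gt_kap (t : Bool) (J : ℕ) (s : ℝ) : kap t J (gt t J s) = 0 := by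
  unfold kap gt
  cases t with
  | false =>
    simp only [Bool.false_eq_true, if_false]
    rw [show (J : ℤ) + 2 - (J + 2) = 0 by ring, uu_zero]
    ring
  | true =>
    simp only [if_true]
    rw [show (J : ℤ) + 2 - (J + 2) = 0 by ring, show (J : ℤ) + 2 - (J + 1) = 1 by ring,
      show (J : ℤ) + 1 - (J + 1) = 0 by ring, show (J : ℤ) + 1 - (J + 2) = -1 by ring, uu_zero,
      uu_one, uu_neg_one]
    ring

theorem gt_neg_one (t : Bool) (J : ℕ) (s : ℝ) :
    gt t J s (-1) = kap t J (fun w => uu s (w + 1)) := by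
  unfold kap gt
  cases t with
  | false =>
    simp only [Bool.false_eq_true, if_false]
    rw [show (J : ℤ) + 2 - -1 = J + 2 + 1 by ring]
    ring
  | true =>
    simp only [if_true]
    rw [show (J : ℤ) + 2 - -1 = J + 2 + 1 by ring, show (J : ℤ) + 1 - -1 = J + 1 + 1 by ring]
    ring

section

variable {t : Bool} {J : ℕ} {q : ℝ}

theorem uu_nn (hu : PosU J (√q)) {k : ℤ} (h0 : 0 ≤ k) (h1 : k ≤ J + 2) : 0 ≤ uu (√q) k := by
  rcases eq_or_lt_of_le h0 with h | h
  · rw [← h, uu_zero]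
  · exact (hu k (by omega) h1).le

theorem gt_pos (hu : PosU J (√q)) {w : ℤ} (h0 : 0 ≤ w) (h1 : w ≤ J + 1) :
    0 < gt t J (√q) w := by
  unfold gt
  have e1 : 0 < uu (√q) (J + 2 - w) := hu _ (by omega) (by omega)
  have e2 : 0 ≤ uu (√q) (J + 1 - w) := uu_nn hu (by omega) (by omega)
  have e3 : (0 : ℝ) ≤ (if t then 1 else 0) := by split_ifs <;> norm_num
  have := mul_nonneg e3 e2
  linarith

theorem gt_sum (hu : PosU J (√q)) :
    0 < gt t J (√q) 0 + gt t J (√q) 1 + gt t J (√q) 2 := by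
  have e0 := gt_pos (t := t) hu (w := 0) le_rfl (by omega)
  have e1 := gt_pos (t := t) hu (w := 1) (by omega) (by omega)
  rcases Nat.eq_zero_or_pos J with h | h
  · subst h
    unfold gt at e0 e1 ⊢
    push_cast at *
    have h2 : 0 < uu (√q) 2 := hu 2 (by norm_num) (by norm_num)
    have n0 := uu_zero (√q)
    have n1 := uu_one (√q)
    have n2 := uu_neg_one (√q)
    norm_num at *
    rw [n0, n1, n2]
    cases t with
    | false =>
      simp only [Bool.false_eq_true, if_false]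
      linarith
    | true =>
      simp only [if_true]
      linarith
  · have e2 := gt_pos (t := t) hu (w := 2) (by omega) (by omega)
    linarith

/-- the divergent case -/
theorem div_main (hq : 1 ≤ q) (hu : PosU J (√q)) (hk : kap t J (fun w => uu (√q) (w + 1)) ≤ 0) :
    ¬ Summable (fun x : ℕ => pinf t J 0 q (0, 0 + 1 + x, 0)) := by
  intro hS
  classical
  -- the first near side is bounded
  set B := ∑' x : ℕ, pinf t J 0 q (0, 0 + 1 + x, 0) with hB
  have hR : ∀ y : ℕ → ℕ, wEE t J 0 q 0 y ≤ B := by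
    intro y
    rw [sum_R (Nat.zero_le _)]
    calc ∑ x ∈ range (y 0 - 0), pS q (WS t J y) (0, 0, 0) (0, 0 + 1 + x, 0)
        ≤ ∑ x ∈ range (y 0 - 0), pinf t J 0 q (0, 0 + 1 + x, 0) :=
          sum_le_sum (fun x _ => le_pinf hq _ y)
      _ ≤ B := hS.sum_le_tsum _ (fun x _ => pinf_nonneg hq _)
  have hnn : ∀ l y, 0 ≤ wEE t J 0 q l y := fun l y => sum_nn (by linarith) _ _ _
  have hL : ∀ y, wLL t J 0 q y = 0 := fun y => by
    rw [sum_L (Nat.zero_le _), range_zero, sum_empty]
  -- the sum rule, split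
  have rule : ∀ g, IsSol (√q) g → ∀ y, g (-1) * wEE t J 0 q 0 y +
      ∑ k ∈ range (J + 2), g k * wEE t J 0 q (k + 1) y + kap t J g * wEE t J 0 q (J + 3) y =
      g 0 + g 1 + g 2 := by
    intro g hg y
    have h3 : ∑ l ∈ range (J + 2 + 2), gam t J g l * wEE t J 0 q l y +
        g 3 * wLL t J 0 q y = g 0 + g 1 + g 2 :=
      WY_rule (t := t) (J := J) (a0 := 0) hq hg y (Nat.zero_le _)
    rw [hL, mul_zero, add_zero, show J + 2 + 2 = (J + 2 + 1) + 1 by ring, sum_range_succ,
      sum_range_succ'] at h3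
    rw [show J + 2 + 1 = J + 3 by ring, gam_last, gam_le (Nat.zero_le _), Nat.cast_zero,
      zero_sub] at h3
    have h4 : ∀ k ∈ range (J + 2), gam t J g (k + 1) * wEE t J 0 q (k + 1) y =
        g k * wEE t J 0 q (k + 1) y := by
      intro k hk
      rw [mem_range] at hk
      rw [gam_le (by omega)]
      push_cast
      rw [add_sub_cancel_right]
    rw [sum_congr rfl h4] at h3
    linarith
  have r1 := rule _ (gt_sol t J (√q))
  rw [gt_kap] at r1
  simp only [zero_mul, add_zero] at r1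
  set κ := gt t J (√q) (-1) with hκ
  have hκ0 : κ ≤ 0 := by rw [hκ, gt_neg_one]; exact hk
  set c := gt t J (√q) 0 + gt t J (√q) 1 + gt t J (√q) 2 with hc
  have hc0 : 0 < c := gt_sum hu
  -- the far sides are bounded
  have hF : ∀ k, k ≤ J + 1 → ∀ y, wEE t J 0 q (k + 1) y ≤ (c + (-κ) * B) / gt t J (√q) k := by
    intro k hk y
    have hp : 0 < gt t J (√q) k := gt_pos hu (by omega) (by omega)
    rw [le_div_iff₀ hp, mul_comm]
    have h1 := r1 y
    have h2 : gt t J (√q) k * wEE t J 0 q (k + 1) y ≤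
        ∑ k ∈ range (J + 2), gt t J (√q) k * wEE t J 0 q (k + 1) y :=
      single_le_sum (f := fun k : ℕ => gt t J (√q) k * wEE t J 0 q (k + 1) y)
        (fun k' hk' => mul_nonneg (gt_pos hu (by omega) (by
          rw [mem_range] at hk'; omega)).le (hnn _ _)) (mem_range.2 (by omega))
    have h3 : (-κ) * wEE t J 0 q 0 y ≤ (-κ) * B :=
      mul_le_mul_of_nonneg_left (hR y) (by linarith)
    linarith
  -- the second near side is bounded
  have hg2 : kap t J (fun w => uu (√q) (w + (-(J : ℤ) - 1))) = 1 := by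
    unfold kap
    have e1 : (J : ℤ) + 1 + (-(J : ℤ) - 1) = 0 := by ring
    have e2 : (J : ℤ) + 2 + (-(J : ℤ) - 1) = 1 := by ring
    beta_reduce
    rw [e1, e2, uu_zero, uu_one]
    split_ifs <;> norm_num
  have hN : ∃ C, ∀ y, wEE t J 0 q (J + 3) y ≤ C := by
    have r2 := rule _ ((uu_sol (√q)).shift (-(J : ℤ) - 1))
    rw [hg2] at r2
    set g : ℤ → ℝ := fun w => uu (√q) (w + (-(J : ℤ) - 1)) with hg
    refine ⟨g 0 + g 1 + g 2 + |g (-1)| * B +
      ∑ k ∈ range (J + 2), |g k| * ((c + (-κ) * B) / gt t J (√q) k), fun y => ?_⟩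
    have h1 := r2 y
    have h2 : -(g (-1) * wEE t J 0 q 0 y) ≤ |g (-1)| * B := by
      rw [← neg_mul]
      exact (mul_le_mul_of_nonneg_right (neg_le_abs _) (hnn _ _)).trans
        (mul_le_mul_of_nonneg_left (hR y) (abs_nonneg _))
    have h3 : -(∑ k ∈ range (J + 2), g k * wEE t J 0 q (k + 1) y) ≤
        ∑ k ∈ range (J + 2), |g k| * ((c + (-κ) * B) / gt t J (√q) k) := by
      rw [← sum_neg_distrib]
      apply sum_le_sum
      intro k hk
      rw [mem_range] at hk
      rw [← neg_mul]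
      exact (mul_le_mul_of_nonneg_right (neg_le_abs _) (hnn _ _)).trans
        (mul_le_mul_of_nonneg_left (hF k (by omega) y) (abs_nonneg _))
    linarith
  obtain ⟨C, hC⟩ := hN
  have hBd : (WY t J 0 q hq).Bd 1 (J + 2) (fun _ => 0) :=
    ⟨⟨B, by rintro _ ⟨y, rfl⟩; exact hR _⟩, ⟨C, by rintro _ ⟨y, rfl⟩; exact hC _⟩⟩
  have hZ := WY_Z hu le_rfl (by omega) le_rfl (Nat.zero_le _) hBd
  -- contradiction in the limit
  have h1 : Tendsto (fun y => ∑ k ∈ range (J + 2), gt t J (√q) k *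
      wEE t J 0 q (k + 1) (ext 1 (J + 2) (fun _ => 0) y)) atTop (𝓝 0) := by
    rw [show (0 : ℝ) = ∑ k ∈ range (J + 2), gt t J (√q) k * 0 by simp]
    apply tendsto_finsetSum
    intro k hk
    rw [mem_range] at hk
    exact (hZ (k + 1) (by omega) (by omega)).const_mul _
  have h2 : ∀ y, c ≤ ∑ k ∈ range (J + 2), gt t J (√q) k *
      wEE t J 0 q (k + 1) (ext 1 (J + 2) (fun _ => 0) y) := by
    intro y
    have h3 := r1 (ext 1 (J + 2) (fun _ => 0) y)
    have h4 : κ * wEE t J 0 q 0 (ext 1 (J + 2) (fun _ => 0) y) ≤ 0 :=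
      mul_nonpos_of_nonpos_of_nonneg hκ0 (hnn _ _)
    linarith
  have h3 := ge_of_tendsto' h1 h2
  linarith

end

end FKR
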