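import Pool.Agent.Lib.MP_216314_pr.R.WSys2
import Pool.Agent.Lib.MP_216314_pr.R.Sol

/-!
# Limits in the wedge
-/

set_option autoImplicit false

noncomputable section

namespace FKR

open Finset Filter Topology

/-- the weight of the second near side -/
def kap (t : Bool) (J : ℕ) (g : ℤ → ℝ) : ℝ := if t then g (J + 1) + g (J + 2) else g (J + 2)

/-- the coefficients of the sum rule given by `g` -/
def gam (t : Bool) (J : ℕ) (g : ℤ → ℝ) (l : ℕ) : ℝ :=
  if l ≤ J + 2 then g (l - 1) else kap t J g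

theorem gam_le {t : Bool} {J l : ℕ} {g : ℤ → ℝ} (h : l ≤ J + 2) : gam t J g l = g (l - 1) := by
  unfold gam; rw [if_pos h]

theorem gam_last {t : Bool} {J : ℕ} {g : ℤ → ℝ} : gam t J g (J + 3) = kap t J g := by
  unfold gam; rw [if_neg (by omega)]

theorem WY_rule {t : Bool} {J a0 : ℕ} {q : ℝ} (hq : 1 ≤ q) {g : ℤ → ℝ} (hg : IsSol (√q) g) :
    (WY t J a0 q hq).IsRule (gam t J g) (g 3) (g 0 + g 1 + g 2) := by
  intro x hx
  have hx' : a0 ≤ x 0 := hx
  have h := WS_rule (t := t) (J := J) hx' (q := q) (by linarith) hg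
  have h1 : ∑ l ∈ range (J + 2 + 2), gam t J g l * (WY t J a0 q hq).E l x =
      g (-1) * ∑ v ∈ sideR t J x a0, pW t J q x a0 v +
      ∑ k ∈ range (J + 2), g k * ∑ v ∈ sideF t J x k, pW t J q x a0 v +
      kap t J g * ∑ v ∈ sideN t J x, pW t J q x a0 v := by
    rw [show J + 2 + 2 = (J + 2 + 1) + 1 by ring, sum_range_succ, sum_range_succ']
    have e0 : gam t J g 0 * (WY t J a0 q hq).E 0 x =
        g (-1) * ∑ v ∈ sideR t J x a0, pW t J q x a0 v := by
      rw [gam_le (Nat.zero_le _), Nat.cast_zero, zero_sub]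
      rfl
    have e1 : ∀ k ∈ range (J + 2), gam t J g (k + 1) * (WY t J a0 q hq).E (k + 1) x =
        g k * ∑ v ∈ sideF t J x k, pW t J q x a0 v := by
      intro k hk
      rw [mem_range] at hk
      rw [gam_le (by omega)]
      push_cast
      rw [add_sub_cancel_right]
      congr 1
      show ∑ v ∈ sd t J a0 (k + 1) x, pS q (WS t J x) (0, a0, 0) v = _
      unfold sd
      rw [if_neg (by omega), if_pos (by omega), Nat.add_sub_cancel]
      rfl
    have e2 : gam t J g (J + 2 + 1) * (WY t J a0 q hq).E (J + 2 + 1) x =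
        kap t J g * ∑ v ∈ sideN t J x, pW t J q x a0 v := by
      rw [show J + 2 + 1 = J + 3 by ring, gam_last]
      congr 1
      show ∑ v ∈ sd t J a0 (J + 3) x, pS q (WS t J x) (0, a0, 0) v = _
      unfold sd
      rw [if_neg (by omega), if_neg (by omega), if_pos rfl]
      rfl
    rw [e0, e2, sum_congr rfl e1]
    ring
  rw [h1]
  show _ + g 3 * ∑ v ∈ sideL t J x a0, pS q (WS t J x) (0, a0, 0) v = _
  have h2 : ∑ v ∈ sideL t J x a0, pS q (WS t J x) (0, a0, 0) v =
      ∑ v ∈ sideL t J x a0, pW t J q x a0 v := rfl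
  rw [h2, ← h]
  unfold kap
  ring

/-- positivity up to `J + 2` -/
def PosU (J : ℕ) (s : ℝ) : Prop := ∀ k : ℤ, 1 ≤ k → k ≤ J + 2 → 0 < uu s k

section

variable {t : Bool} {J a0 : ℕ} {q : ℝ} {hq : 1 ≤ q}

theorem WY_Z (hu : PosU J (√q)) {a b : ℕ} (ha : 1 ≤ a) (hab : a ≤ b) (hb : b ≤ J + 2) {m : ℕ → ℕ}
    (hm : a0 ≤ m 0) (hB : (WY t J a0 q hq).Bd a b m) : (WY t J a0 q hq).Z a b m := by
  refine Sys.all_Z ?_ ?_ ?_ (b - a) a b (by omega) ha hb m hm hB
  · -- positive rules
    intro a b h1 h2 h3 h4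
    by_cases hbn : b < J + 2
    · obtain ⟨g, hg, hp⟩ := pos_sol hu ((a : ℤ) - 2)
      refine ⟨_, _, _, WY_rule hq hg, fun l h5 h6 => ?_⟩
      rw [gam_le (by omega)]
      exact hp _ (by omega) (by omega)
    · obtain ⟨g, hg, hp⟩ := pos_sol hu 0
      refine ⟨_, _, _, WY_rule hq hg, fun l h5 h6 => ?_⟩
      by_cases hl : l ≤ J + 2
      · rw [gam_le hl]
        exact hp _ (by omega) (by omega)
      · have : l = J + 3 := by omega
        subst this
        rw [gam_last]
        have e1 := hp (J + 1) (by omega) (by omega)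
        have e2 := hp (J + 2) (by omega) (by omega)
        unfold kap
        split_ifs
        · linarith
        · exact e2
  · -- separating rules
    intro a b h1 h2 h3
    refine ⟨_, _, _, WY_rule hq ((uu_sol (√q)).refl (b - 1)), ?_, ?_⟩
    · rw [gam_le h3]
      show uu (√q) ((b : ℤ) - 1 - (b - 1)) = 0
      rw [sub_self, uu_zero]
    · rw [gam_le (by omega)]
      show uu (√q) ((b : ℤ) - 1 - (a - 1)) ≠ 0
      exact (hu _ (by omega) (by omega)).ne'
  · -- a rule positive on the far sides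
    refine ⟨_, _, _, WY_rule hq ((uu_sol (√q)).shift 1), fun l h5 h6 => ?_⟩
    rw [gam_le h6]
    show 0 < uu (√q) ((l : ℤ) - 1 + 1)
    exact hu _ (by omega) (by omega)

/-- boundedness in the convergent case -/
theorem WY_conv (hu : PosU J (√q)) (hk : 0 < kap t J (fun w => uu (√q) (w + 1))) {m : ℕ → ℕ}
    (hm : a0 ≤ m 0) : (WY t J a0 q hq).Bd 1 (J + 2) m := by
  set c := |uu (√q) (J + 3)| / uu (√q) (J + 2) +
    |kap t J (fun w => uu (√q) (w + 2))| / kap t J (fun w => uu (√q) (w + 1)) + 1 with hc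
  have hK : 0 < uu (√q) (J + 2) := hu _ (by omega) le_rfl
  have hc0 : 0 < c := by positivity
  have hg : IsSol (√q) (fun w => uu (√q) (w + 2) + c * uu (√q) (w + 1)) :=
    ((uu_sol _).shift 2).add ((uu_sol _).shift 1) c
  refine Sys.bd_of_pos (by omega) le_rfl le_rfl hm (WY_rule hq hg) ?_
  intro l _ h6
  by_cases hl : l ≤ J + 2
  · rw [gam_le hl]
    show 0 < uu (√q) ((l : ℤ) - 1 + 2) + c * uu (√q) ((l : ℤ) - 1 + 1)
    rw [show (l : ℤ) - 1 + 2 = l + 1 by ring, show (l : ℤ) - 1 + 1 = l by ring]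
    rcases Nat.eq_zero_or_pos l with h0 | h0
    · subst h0
      rw [Nat.cast_zero, zero_add, uu_one, uu_zero]
      norm_num
    · have h7 : 0 < uu (√q) l := hu _ (by omega) (by omega)
      by_cases h8 : l = J + 2
      · subst h8
        push_cast at h7 ⊢
        rw [show (J : ℤ) + 2 + 1 = J + 3 by ring]
        have h9 : |uu (√q) (J + 3)| ≤ c * uu (√q) (J + 2) := by
          have h10 : |uu (√q) (J + 3)| = |uu (√q) (J + 3)| / uu (√q) (J + 2) * uu (√q) (J + 2) := by
            field_simp
          rw [h10]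
          apply mul_le_mul_of_nonneg_right _ hK.le
          rw [hc]
          have : 0 ≤ |kap t J (fun w => uu (√q) (w + 2))| / kap t J (fun w => uu (√q) (w + 1)) := by
            positivity
          linarith
        have h11 : |uu (√q) (J + 3)| / uu (√q) (J + 2) * uu (√q) (J + 2) + uu (√q) (J + 2) ≤
            c * uu (√q) (J + 2) := by
          have : 0 ≤ |kap t J (fun w => uu (√q) (w + 2))| / kap t J (fun w => uu (√q) (w + 1)) := by
            positivity
          rw [hc]
          nlinarith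
        have h12 : |uu (√q) (J + 3)| / uu (√q) (J + 2) * uu (√q) (J + 2) =
            |uu (√q) (J + 3)| := by field_simp
        have := neg_abs_le (uu (√q) (J + 3))
        linarith
      · have h9 : 0 < uu (√q) (l + 1) := hu _ (by omega) (by omega)
        have := mul_pos hc0 h7
        linarith
  · have : l = J + 3 := by omega
    subst this
    rw [gam_last]
    have e : kap t J (fun w => uu (√q) (w + 2) + c * uu (√q) (w + 1)) =
        kap t J (fun w => uu (√q) (w + 2)) + c * kap t J (fun w => uu (√q) (w + 1)) := by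
      unfold kap
      split_ifs
      · ring
      · ring
    rw [e]
    set κ := kap t J (fun w => uu (√q) (w + 1)) with hκ
    set κ' := kap t J (fun w => uu (√q) (w + 2)) with hκ'
    have h11 : |κ'| / κ * κ + κ ≤ c * κ := by
      have : 0 ≤ |uu (√q) (J + 3)| / uu (√q) (J + 2) := by positivity
      rw [hc]
      nlinarith
    have h12 : |κ'| / κ * κ = |κ'| := by field_simp
    have := neg_abs_le κ'
    linarith

end

end FKR
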