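import Pool.Agent.Lib.MP_216314_pr.R.WLim

/-!
# Limits in the wedge: all sizes tend to infinity
-/

set_option autoImplicit false

noncomputable section

namespace FKR

open Finset Filter Topology

section

variable {t : Bool} {J a0 : ℕ} {q : ℝ}

theorem WS_sub {x y : ℕ → ℕ} (h : ∀ i ≤ J + 1, x i ≤ y i) : WS t J x ⊆ WS t J y := by
  rintro ⟨i, a, b⟩ hv
  have h2 := h J (by omega)
  have h3 := h (J + 1) le_rfl
  rw [mem_WS] at hv ⊢
  rcases hv with h4 | h4
  · have h0 := h i (by omega)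
    have h1 := h (i + 1) (by omega)
    left; omega
  · right
    cases t with
    | false =>
      rw [hf_false] at h4 ⊢
      omega
    | true =>
      rw [hf_true] at h4 ⊢
      omega

theorem WS_congr {x y : ℕ → ℕ} (h : ∀ i ≤ J + 1, x i = y i) : WS t J x = WS t J y :=
  Subset.antisymm (WS_sub (fun i hi => (h i hi).le)) (WS_sub (fun i hi => (h i hi).ge))

theorem sd_congr {l : ℕ} {x y : ℕ → ℕ} (h : ∀ i ≤ J + 1, x i = y i) :
    sd t J a0 l x = sd t J a0 l y := by
  unfold sd sideR sideF sideN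
  rw [WS_congr h]
  by_cases h1 : l = 0
  · rw [if_pos h1, if_pos h1]
  · rw [if_neg h1, if_neg h1]
    by_cases h2 : l ≤ J + 2
    · rw [if_pos h2, if_pos h2, h (l - 1) (by omega)]
    · rw [if_neg h2, if_neg h2]

theorem wEE_congr {l : ℕ} {x y : ℕ → ℕ} (h : ∀ i ≤ J + 1, x i = y i) :
    wEE t J a0 q l x = wEE t J a0 q l y := by
  unfold wEE
  rw [sd_congr h, WS_congr h]

theorem wLL_congr {x y : ℕ → ℕ} (h : ∀ i ≤ J + 1, x i = y i) :
    wLL t J a0 q x = wLL t J a0 q y := by
  unfold wLL sideL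
  rw [WS_congr h]

theorem ext_agree {m y : ℕ → ℕ} (hy : m ≤ y) : ∀ i ≤ J + 1, ext 1 (J + 2) m y i = y i := by
  intro i hi
  unfold ext
  rw [if_pos (by omega)]
  exact max_eq_left (hy i)

theorem tends_full {l : ℕ} {m : ℕ → ℕ} {c : ℝ}
    (h : Tendsto (fun y => wEE t J a0 q l (ext 1 (J + 2) m y)) atTop (𝓝 c)) :
    Tendsto (wEE t J a0 q l) atTop (𝓝 c) := by
  apply h.congr'
  filter_upwards [eventually_ge_atTop m] with y hy
  exact wEE_congr (ext_agree hy)

/-- the infinite volume limit -/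
def pinf (t : Bool) (J a0 : ℕ) (q : ℝ) (v : QV) : ℝ :=
  ⨆ m : ℕ → ℕ, pS q (WS t J m) (0, a0, 0) v

theorem pinf_mono (hq : 1 ≤ q) (v : QV) : Monotone (fun m => pS q (WS t J m) (0, a0, 0) v) :=
  fun _ _ h => pS_mono hq (WS_mono h) _ _

theorem pinf_bdd (hq : 1 ≤ q) (v : QV) :
    BddAbove (Set.range (fun m => pS q (WS t J m) (0, a0, 0) v)) :=
  ⟨1, by rintro _ ⟨m, rfl⟩; exact pS_le_one (by linarith) _ _ _⟩

theorem pinf_tendsto (hq : 1 ≤ q) (v : QV) :
    Tendsto (fun m => pS q (WS t J m) (0, a0, 0) v) atTop (𝓝 (pinf t J a0 q v)) :=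
  tendsto_atTop_ciSup (pinf_mono hq v) (pinf_bdd hq v)

theorem le_pinf (hq : 1 ≤ q) (v : QV) (m : ℕ → ℕ) :
    pS q (WS t J m) (0, a0, 0) v ≤ pinf t J a0 q v := le_ciSup (pinf_bdd hq v) m

theorem pinf_nonneg (hq : 1 ≤ q) (v : QV) : 0 ≤ pinf t J a0 q v :=
  (pS_nonneg (by linarith) _ _ _).trans (le_pinf hq v 0)

/-! ### sums over the near sides -/

theorem hasSum_lim {f : (ℕ → ℕ) → ℕ → ℝ} (h0 : ∀ y k, 0 ≤ f y k)
    (hm : ∀ k, Monotone (fun y => f y k)) {P : ℕ → ℝ}
    (hP : ∀ k, Tendsto (fun y => f y k) atTop (𝓝 (P k))) {M : (ℕ → ℕ) → ℕ}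
    (hM : ∀ n, ∀ᶠ y in atTop, n ≤ M y) {c : ℝ}
    (hc : Tendsto (fun y => ∑ k ∈ range (M y), f y k) atTop (𝓝 c)) : HasSum P c := by
  have hle : ∀ y k, f y k ≤ P k := fun y k => (hm k).ge_of_tendsto (hP k) y
  have hP0 : ∀ k, 0 ≤ P k := fun k => (h0 0 k).trans (hle 0 k)
  have hpart : ∀ n, ∑ k ∈ range n, P k ≤ c := by
    intro n
    have h1 : Tendsto (fun y => ∑ k ∈ range n, f y k) atTop (𝓝 (∑ k ∈ range n, P k)) :=
      tendsto_finsetSum _ (fun k _ => hP k)
    refine le_of_tendsto_of_tendsto h1 hc ?_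
    filter_upwards [hM n] with y hy
    exact sum_le_sum_of_subset_of_nonneg (range_subset_range.2 hy) (fun k _ _ => h0 y k)
  have hS : Summable P := summable_of_sum_range_le hP0 hpart
  have h2 : ∑' k, P k ≤ c := Real.tsum_le_of_sum_range_le hP0 hpart
  have h3 : c ≤ ∑' k, P k := by
    refine le_of_tendsto' hc (fun y => ?_)
    calc ∑ k ∈ range (M y), f y k ≤ ∑ k ∈ range (M y), P k := sum_le_sum (fun k _ => hle y k)
      _ ≤ ∑' k, P k := hS.sum_le_tsum _ (fun k _ => hP0 k)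
  rw [le_antisymm h3 h2]
  exact hS.hasSum

theorem sum_R {y : ℕ → ℕ} (hy : a0 ≤ y 0) : wEE t J a0 q 0 y =
    ∑ x ∈ range (y 0 - a0), pS q (WS t J y) (0, a0, 0) (0, a0 + 1 + x, 0) := by
  have h : sd t J a0 0 y = (range (y 0 - a0)).image (fun x => ((0, a0 + 1 + x, 0) : QV)) := by
    unfold sd
    rw [if_pos rfl]
    ext ⟨i, a, b⟩
    unfold sideR
    rw [mem_filter, mem_image, mem_WS]
    simp only [mem_range, Prod.mk.injEq]
    constructor
    · rintro ⟨h1, rfl, rfl, h2⟩
      refine ⟨a - a0 - 1, ?_, rfl, by omega, rfl⟩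
      rcases h1 with h1 | h1
      · omega
      · rw [← h1.1] at h1
        omega
    · rintro ⟨x, h1, rfl, rfl, rfl⟩
      refine ⟨?_, rfl, rfl, by omega⟩
      rcases Nat.eq_zero_or_pos J with h2 | h2
      · subst h2
        right; omega
      · left; omega
  unfold wEE
  rw [h, sum_image]
  intro x _ x' _ hx
  simp only [Prod.mk.injEq] at hx
  omega

theorem sum_L {y : ℕ → ℕ} (hy : a0 ≤ y 0) : wLL t J a0 q y =
    ∑ x ∈ range a0, pS q (WS t J y) (0, a0, 0) (0, x, 0) := by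
  have h : sideL t J y a0 = (range a0).image (fun x => ((0, x, 0) : QV)) := by
    ext ⟨i, a, b⟩
    unfold sideL
    rw [mem_filter, mem_image, mem_WS]
    simp only [mem_range, Prod.mk.injEq]
    constructor
    · rintro ⟨h1, rfl, rfl, h2⟩
      exact ⟨a, h2, rfl, rfl, rfl⟩
    · rintro ⟨x, h1, rfl, rfl, rfl⟩
      refine ⟨?_, rfl, rfl, h1⟩
      rcases Nat.eq_zero_or_pos J with h2 | h2
      · subst h2
        right; omega
      · left; omega
  unfold wLL
  rw [h, sum_image]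
  intro x _ x' _ hx
  simp only [Prod.mk.injEq] at hx
  omega

/-- the vertices of the second near side -/
def nv (t : Bool) (J b : ℕ) : QV := (J, if t then b else 0, b)

/-- the length of the second near side -/
def MN (t : Bool) (J : ℕ) (y : ℕ → ℕ) : ℕ := (if t then min (y J) (y (J + 1)) else y (J + 1)) + 1

theorem sum_N {y : ℕ → ℕ} : wEE t J a0 q (J + 3) y =
    ∑ b ∈ range (MN t J y), pS q (WS t J y) (0, a0, 0) (nv t J b) := by
  have h : sd t J a0 (J + 3) y = (range (MN t J y)).image (nv t J) := by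
    unfold sd
    rw [if_neg (by omega), if_neg (by omega), if_pos rfl]
    ext ⟨i, a, b⟩
    unfold sideN MN nv
    rw [mem_filter, mem_image, mem_WS]
    simp only [mem_range, Prod.mk.injEq]
    cases t with
    | false =>
      rw [hf_false]
      simp only [Bool.false_eq_true, if_false]
      constructor
      · rintro ⟨h1, rfl, rfl⟩
        exact ⟨b, by omega, rfl, rfl, rfl⟩
      · rintro ⟨b', h1, rfl, rfl, rfl⟩
        omega
    | true =>
      rw [hf_true]
      simp only [if_true]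
      constructor
      · rintro ⟨h1, rfl, rfl⟩
        exact ⟨a, by omega, rfl, rfl, rfl⟩
      · rintro ⟨b', h1, rfl, rfl, rfl⟩
        omega
  unfold wEE
  rw [h, sum_image]
  intro x _ x' _ hx
  unfold nv at hx
  simp only [Prod.mk.injEq] at hx
  exact hx.2.2

theorem hasSum_R (hq : 1 ≤ q) {c : ℝ} (hc : Tendsto (wEE t J a0 q 0) atTop (𝓝 c)) :
    HasSum (fun x : ℕ => pinf t J a0 q (0, a0 + 1 + x, 0)) c := by
  refine hasSum_lim (f := fun y x => pS q (WS t J y) (0, a0, 0) (0, a0 + 1 + x, 0))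
    (M := fun y => y 0 - a0) ?_ ?_ ?_ ?_ ?_
  · intro y k; exact pS_nonneg (by linarith) _ _ _
  · intro k; exact pinf_mono hq _
  · intro k; exact pinf_tendsto hq _
  · intro n
    filter_upwards [eventually_ge_atTop (fun _ : ℕ => n + a0)] with y hy
    have : n + a0 ≤ y 0 := hy 0
    omega
  · apply hc.congr'
    filter_upwards [eventually_ge_atTop (fun _ => a0)] with y hy
    exact sum_R (hy 0)

theorem hasSum_N (hq : 1 ≤ q) {c : ℝ} (hc : Tendsto (wEE t J a0 q (J + 3)) atTop (𝓝 c)) :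
    HasSum (fun b : ℕ => pinf t J a0 q (nv t J b)) c := by
  refine hasSum_lim (f := fun y b => pS q (WS t J y) (0, a0, 0) (nv t J b)) (M := MN t J)
    ?_ ?_ ?_ ?_ ?_
  · intro y k; exact pS_nonneg (by linarith) _ _ _
  · intro k; exact pinf_mono hq _
  · intro k; exact pinf_tendsto hq _
  · intro n
    filter_upwards [eventually_ge_atTop (fun _ => n)] with y hy
    have h1 : n ≤ y J := hy J
    have h2 : n ≤ y (J + 1) := hy (J + 1)
    unfold MN
    split_ifs <;> omega
  · exact hc.congr (fun y => sum_N)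

theorem lim_L (hq : 1 ≤ q) : Tendsto (wLL t J a0 q) atTop
    (𝓝 (∑ x ∈ range a0, pinf t J a0 q (0, x, 0))) := by
  have h : Tendsto (fun y => ∑ x ∈ range a0, pS q (WS t J y) (0, a0, 0) (0, x, 0)) atTop
      (𝓝 (∑ x ∈ range a0, pinf t J a0 q (0, x, 0))) :=
    tendsto_finsetSum _ (fun x _ => pinf_tendsto hq _)
  apply h.congr'
  filter_upwards [eventually_ge_atTop (fun _ => a0)] with y hy
  exact (sum_L (hy 0)).symm

/-- the convergent case -/
theorem conv_main (hq : 1 ≤ q) (hu : PosU J (√q))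
    (hk : 0 < kap t J (fun w => uu (√q) (w + 1))) (a0 : ℕ) :
    (∀ k, k ≤ J + 1 → Tendsto (fun m => ∑ v ∈ sideF t J m k, pS q (WS t J m) (0, a0, 0) v) atTop
      (𝓝 0)) ∧
    ∃ R N : ℝ, HasSum (fun x : ℕ => pinf t J a0 q (0, a0 + 1 + x, 0)) R ∧
      HasSum (fun b : ℕ => pinf t J a0 q (nv t J b)) N ∧
      ∀ g, IsSol (√q) g → g (-1) * R + g 3 * ∑ x ∈ range a0, pinf t J a0 q (0, x, 0) +
        kap t J g * N = g 0 + g 1 + g 2 := by
  have hm : a0 ≤ (fun _ : ℕ => a0) 0 := le_rfl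
  have hB := WY_conv (t := t) (a0 := a0) (hq := hq) (m := fun _ => a0) hu hk hm
  have hZ := WY_Z hu le_rfl (by omega) le_rfl hm hB
  have hF : ∀ l, 1 ≤ l → l ≤ J + 2 → Tendsto (wEE t J a0 q l) atTop (𝓝 0) := fun l h1 h2 =>
    tends_full (hZ l h1 h2)
  obtain ⟨R, hR⟩ := Sys.near_lim (Y := WY t J a0 q hq) hm hB (l := 0) (by omega) (by omega)
  obtain ⟨N, hN⟩ := Sys.near_lim (Y := WY t J a0 q hq) hm hB (l := J + 3) (by omega) (by omega)
  have hR' : Tendsto (wEE t J a0 q 0) atTop (𝓝 R) := tends_full hR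
  have hN' : Tendsto (wEE t J a0 q (J + 3)) atTop (𝓝 N) := tends_full hN
  refine ⟨?_, R, N, hasSum_R hq hR', hasSum_N hq hN', ?_⟩
  · intro k hk
    have h := hF (k + 1) (by omega) (by omega)
    apply h.congr
    intro m
    unfold wEE sd
    rw [if_neg (by omega), if_pos (by omega), Nat.add_sub_cancel]
  · intro g hg
    have hr := WY_rule (t := t) (J := J) (a0 := a0) hq hg
    have h1 : Tendsto (fun y => g (-1) * wEE t J a0 q 0 y + g 3 * wLL t J a0 q y +
        kap t J g * wEE t J a0 q (J + 3) y +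
        ∑ k ∈ range (J + 2), g k * wEE t J a0 q (k + 1) y) atTop
        (𝓝 (g (-1) * R + g 3 * (∑ x ∈ range a0, pinf t J a0 q (0, x, 0)) + kap t J g * N +
          ∑ k ∈ range (J + 2), g k * 0)) := by
      refine (((hR'.const_mul _).add ((lim_L hq).const_mul _)).add (hN'.const_mul _)).add ?_
      apply tendsto_finsetSum
      intro k hk
      rw [mem_range] at hk
      exact (hF (k + 1) (by omega) (by omega)).const_mul _
    have h2 : Tendsto (fun y => g (-1) * wEE t J a0 q 0 y + g 3 * wLL t J a0 q y +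
        kap t J g * wEE t J a0 q (J + 3) y +
        ∑ k ∈ range (J + 2), g k * wEE t J a0 q (k + 1) y) atTop (𝓝 (g 0 + g 1 + g 2)) := by
      apply tendsto_const_nhds.congr'
      filter_upwards [eventually_ge_atTop (fun _ => a0)] with y hy
      have h3 : ∑ l ∈ range (J + 2 + 2), gam t J g l * wEE t J a0 q l y +
          g 3 * wLL t J a0 q y = g 0 + g 1 + g 2 := hr y (hy 0)
      rw [show J + 2 + 2 = (J + 2 + 1) + 1 by ring, sum_range_succ, sum_range_succ'] at h3
      rw [show J + 2 + 1 = J + 3 by ring, gam_last, gam_le (Nat.zero_le _), Nat.cast_zero,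
        zero_sub] at h3
      have h4 : ∀ k ∈ range (J + 2), gam t J g (k + 1) * wEE t J a0 q (k + 1) y =
          g k * wEE t J a0 q (k + 1) y := by
        intro k hk
        rw [mem_range] at hk
        rw [gam_le (by omega)]
        push_cast
        rw [add_sub_cancel_right]
      rw [sum_congr rfl h4] at h3
      linarith
    have h3 := tendsto_nhds_unique h1 h2
    simp only [mul_zero, sum_const_zero, add_zero] at h3
    exact h3

end

end FKR
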