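import Pool.Agent.Lib.MP_216314_pr.R.Two
import Pool.Agent.Lib.MP_216314_pr.R.Lim2

/-!
# The system of sum rules of the wedge
-/

set_option autoImplicit false

noncomputable section

namespace FKR

open Finset Filter Topology

/-- the side number `l` (`0`: first near side, `1, …, J + 2`: far sides, `J + 3`: second near side) -/
def sd (t : Bool) (J a0 : ℕ) (l : ℕ) (m : ℕ → ℕ) : Finset QV :=
  if l = 0 then sideR t J m a0 else if l ≤ J + 2 then sideF t J m (l - 1) else
    if l = J + 3 then sideN t J m else ∅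

/-- the expected number of vertices of the side `l` connected to the starting point -/
def wEE (t : Bool) (J a0 : ℕ) (q : ℝ) (l : ℕ) (m : ℕ → ℕ) : ℝ :=
  ∑ v ∈ sd t J a0 l m, pS q (WS t J m) (0, a0, 0) v

/-- the expected number of vertices before the starting point -/
def wLL (t : Bool) (J a0 : ℕ) (q : ℝ) (m : ℕ → ℕ) : ℝ :=
  ∑ v ∈ sideL t J m a0, pS q (WS t J m) (0, a0, 0) v

theorem pW_pS (t : Bool) (J : ℕ) (q : ℝ) (m : ℕ → ℕ) (a0 : ℕ) (v : QV) :
    pW t J q m a0 v = pS q (WS t J m) (0, a0, 0) v := rfl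

theorem sum_nn {q : ℝ} (hq : 0 < q) (S T : Finset QV) (u : QV) : 0 ≤ ∑ v ∈ T, pS q S u v :=
  sum_nonneg (fun v _ => pS_nonneg hq S u v)

theorem WS_mono {t : Bool} {J : ℕ} {x y : ℕ → ℕ} (h : x ≤ y) : WS t J x ⊆ WS t J y := by
  rintro ⟨i, a, b⟩ hv
  have h0 : x i ≤ y i := h i
  have h1 : x (i + 1) ≤ y (i + 1) := h (i + 1)
  have h2 : x J ≤ y J := h J
  have h3 : x (J + 1) ≤ y (J + 1) := h (J + 1)
  rw [mem_WS] at hv ⊢
  cases t with
  | false =>
    rw [hf_false] at hv ⊢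
    omega
  | true =>
    rw [hf_true] at hv ⊢
    omega

theorem sideF_mono {t : Bool} {J k : ℕ} {x y : ℕ → ℕ} (h : x ≤ y) (hk : x k = y k) :
    sideF t J x k ⊆ sideF t J y k := by
  intro v hv
  obtain ⟨h1, h2⟩ := mem_filter.1 hv
  rw [hk] at h2
  exact mem_filter.2 ⟨WS_mono h h1, h2⟩

theorem sideR_mono {t : Bool} {J a0 : ℕ} {x y : ℕ → ℕ} (h : x ≤ y) :
    sideR t J x a0 ⊆ sideR t J y a0 := by
  intro v hv
  obtain ⟨h1, h2⟩ := mem_filter.1 hv
  exact mem_filter.2 ⟨WS_mono h h1, h2⟩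

theorem sideL_mono {t : Bool} {J a0 : ℕ} {x y : ℕ → ℕ} (h : x ≤ y) :
    sideL t J x a0 ⊆ sideL t J y a0 := by
  intro v hv
  obtain ⟨h1, h2⟩ := mem_filter.1 hv
  exact mem_filter.2 ⟨WS_mono h h1, h2⟩

theorem sideN_mono {t : Bool} {J : ℕ} {x y : ℕ → ℕ} (h : x ≤ y) :
    sideN t J x ⊆ sideN t J y := by
  intro v hv
  obtain ⟨h1, h2⟩ := mem_filter.1 hv
  exact mem_filter.2 ⟨WS_mono h h1, h2⟩

theorem sd_mono {t : Bool} {J a0 l : ℕ} {x y : ℕ → ℕ} (h : x ≤ y)
    (hl : 1 ≤ l → l ≤ J + 2 → x (l - 1) = y (l - 1)) : sd t J a0 l x ⊆ sd t J a0 l y := by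
  unfold sd
  split_ifs with h1 h2 h3
  · exact sideR_mono h
  · exact sideF_mono h (hl (by omega) h2)
  · exact sideN_mono h
  · exact subset_rfl

theorem card_le_sum {q : ℝ} (hq : 0 < q) {S T : Finset QV} {u : QV} {c : ℕ} (h : T.card ≤ c) :
    ∑ v ∈ T, pS q S u v ≤ c := by
  calc ∑ v ∈ T, pS q S u v ≤ ∑ v ∈ T, (1 : ℝ) := sum_le_sum (fun v _ => pS_le_one hq S u v)
    _ = T.card := by simp
    _ ≤ c := by exact_mod_cast h

theorem card_sideR {t : Bool} {J a0 : ℕ} {m : ℕ → ℕ} : (sideR t J m a0).card ≤ m 0 + 1 := by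
  have h : sideR t J m a0 ⊆ (range (m 0 + 1)).image (fun x => ((0, x, 0) : QV)) := by
    rintro ⟨i, a, b⟩ hv
    obtain ⟨h1, h2, h3, h4⟩ := mem_filter.1 hv
    simp only at h2 h3 h4
    subst h2 h3
    rw [mem_WS] at h1
    refine mem_image.2 ⟨a, mem_range.2 ?_, rfl⟩
    rcases h1 with h1 | h1
    · omega
    · rw [← h1.1] at h1
      omega
  exact (card_le_card h).trans (card_image_le.trans (by rw [card_range]))

theorem card_sideL {t : Bool} {J a0 : ℕ} {m : ℕ → ℕ} : (sideL t J m a0).card ≤ a0 := by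
  have h : sideL t J m a0 ⊆ (range a0).image (fun x => ((0, x, 0) : QV)) := by
    rintro ⟨i, a, b⟩ hv
    obtain ⟨h1, h2, h3, h4⟩ := mem_filter.1 hv
    simp only at h2 h3 h4
    subst h2 h3
    exact mem_image.2 ⟨a, mem_range.2 h4, rfl⟩
  exact (card_le_card h).trans (card_image_le.trans (by rw [card_range]))

theorem hf_le (t : Bool) (M a : ℕ) : hf t M a ≤ M := by
  unfold hf
  split_ifs
  · exact min_le_right _ _
  · exact le_rfl

theorem card_sideN {t : Bool} {J : ℕ} {m : ℕ → ℕ} : (sideN t J m).card ≤ m (J + 1) + 1 := by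
  have h : sideN t J m ⊆ (range (m (J + 1) + 1)).image
      (fun b => ((J, (if t then b else 0), b) : QV)) := by
    rintro ⟨i, a, b⟩ hv
    obtain ⟨h1, h2, h3⟩ := mem_filter.1 hv
    simp only at h2 h3
    rw [mem_WS] at h1
    have h4 := hf_le t (m (J + 1)) a
    subst h2 h3
    exact mem_image.2 ⟨b, mem_range.2 (by omega), rfl⟩
  exact (card_le_card h).trans (card_image_le.trans (by rw [card_range]))

theorem card_sideF {t : Bool} {J k : ℕ} {m : ℕ → ℕ} : (sideF t J m k).card ≤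
    (if 1 ≤ k then m (k - 1) + 1 else 0) + (if k < J + 1 then m (k + 1) + 1 else 0) := by
  have h : sideF t J m k ⊆
      (range (if 1 ≤ k then m (k - 1) + 1 else 0)).image (fun x => ((k - 1, x, m k) : QV)) ∪
      (range (if k < J + 1 then m (k + 1) + 1 else 0)).image (fun b => ((k, m k, b) : QV)) := by
    rintro ⟨i, a, b⟩ hv
    obtain ⟨h1, h2⟩ := mem_filter.1 hv
    simp only at h2
    rw [mem_WS] at h1
    have h4 := hf_le t (m (J + 1)) a
    rw [mem_union]
    rcases h2 with ⟨h2, h3⟩ | ⟨h2, h3, _⟩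
    · right
      subst h2
      refine mem_image.2 ⟨b, mem_range.2 ?_, by rw [h3]⟩
      rcases h1 with h1 | h1
      · rw [if_pos (by omega)]; omega
      · rw [if_pos (by omega), h1.1]; omega
    · left
      subst h2
      refine mem_image.2 ⟨a, mem_range.2 ?_, by rw [h3]; rfl⟩
      rw [if_pos (by omega), Nat.add_sub_cancel]
      rcases h1 with h1 | h1
      · omega
      · rw [h1.1]; omega
  refine (card_le_card h).trans ((card_union_le _ _).trans ?_)
  exact Nat.add_le_add (card_image_le.trans (by rw [card_range]))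
    (card_image_le.trans (by rw [card_range]))

theorem wEE_fin {t : Bool} {J a0 : ℕ} {q : ℝ} (hq : 0 < q) (l : ℕ) (x : ℕ → ℕ) (hl : l ≤ J + 2 + 1) :
    wEE t J a0 q l x ≤ (if 2 ≤ l then (x (l - 2) : ℝ) + 1 else 0) +
      (if l < J + 2 then (x l : ℝ) + 1 else 0) := by
  have key : (sd t J a0 l x).card ≤ (if 2 ≤ l then x (l - 2) + 1 else 0) +
      (if l < J + 2 then x l + 1 else 0) := by
    unfold sd
    by_cases h1 : l = 0
    · subst h1
      rw [if_pos rfl, if_neg (by omega), if_pos (by omega)]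
      have := card_sideR (t := t) (J := J) (a0 := a0) (m := x)
      omega
    · rw [if_neg h1]
      by_cases h2 : l ≤ J + 2
      · rw [if_pos h2]
        refine card_sideF.trans ?_
        obtain ⟨k, rfl⟩ : ∃ k, l = k + 1 := ⟨l - 1, by omega⟩
        rw [Nat.add_sub_cancel]
        apply Nat.add_le_add
        · by_cases h3 : 1 ≤ k
          · rw [if_pos h3, if_pos (by omega), show k + 1 - 2 = k - 1 by omega]
          · rw [if_neg h3]; exact Nat.zero_le _
        · by_cases h3 : k < J + 1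
          · rw [if_pos h3, if_pos (by omega)]
          · rw [if_neg h3]; exact Nat.zero_le _
      · have h3 : l = J + 3 := by omega
        subst h3
        rw [if_neg h2, if_pos rfl, if_pos (by omega), if_neg (by omega),
          show J + 3 - 2 = J + 1 by omega]
        have := card_sideN (t := t) (J := J) (m := x)
        omega
  refine (card_le_sum hq key).trans (le_of_eq ?_)
  push_cast
  split_ifs <;> norm_num

theorem wEE_mono {t : Bool} {J a0 : ℕ} {q : ℝ} (hq : 1 ≤ q) {l : ℕ} {x y : ℕ → ℕ} (h : x ≤ y)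
    (hl : 1 ≤ l → l ≤ J + 2 → x (l - 1) = y (l - 1)) : wEE t J a0 q l x ≤ wEE t J a0 q l y := by
  unfold wEE
  calc ∑ v ∈ sd t J a0 l x, pS q (WS t J x) (0, a0, 0) v
      ≤ ∑ v ∈ sd t J a0 l x, pS q (WS t J y) (0, a0, 0) v :=
        sum_le_sum (fun v _ => pS_mono hq (WS_mono h) _ _)
    _ ≤ ∑ v ∈ sd t J a0 l y, pS q (WS t J y) (0, a0, 0) v :=
        sum_le_sum_of_subset_of_nonneg (sd_mono h hl) (fun v _ _ => pS_nonneg (by linarith) _ _ _)

theorem wLL_mono {t : Bool} {J a0 : ℕ} {q : ℝ} (hq : 1 ≤ q) {x y : ℕ → ℕ} (h : x ≤ y) :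
    wLL t J a0 q x ≤ wLL t J a0 q y := by
  unfold wLL
  calc ∑ v ∈ sideL t J x a0, pS q (WS t J x) (0, a0, 0) v
      ≤ ∑ v ∈ sideL t J x a0, pS q (WS t J y) (0, a0, 0) v :=
        sum_le_sum (fun v _ => pS_mono hq (WS_mono h) _ _)
    _ ≤ ∑ v ∈ sideL t J y a0, pS q (WS t J y) (0, a0, 0) v :=
        sum_le_sum_of_subset_of_nonneg (sideL_mono h) (fun v _ _ => pS_nonneg (by linarith) _ _ _)

end FKR
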