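import Pool.Agent.Lib.MP_216314_pr.R.WSys

/-!
# The system of sum rules of the wedge: one growing size
-/

set_option autoImplicit false

noncomputable section

namespace FKR

open Finset Filter Topology

/-- the size `k` alone grows -/
theorem ext_one {k : ℕ} {m y : ℕ → ℕ} (i : ℕ) :
    ext (k + 1) (k + 1) m y i = if i = k then max (y k) (m k) else m i := by
  unfold ext
  by_cases h : i = k
  · subst h
    rw [if_pos (by omega), if_pos rfl]
  · rw [if_neg (by omega), if_neg h]

theorem ext_self {k : ℕ} {m y : ℕ → ℕ} : ext (k + 1) (k + 1) m y k = max (y k) (m k) := by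
  rw [ext_one, if_pos rfl]

theorem ext_ne {k i : ℕ} {m y : ℕ → ℕ} (h : i ≠ k) : ext (k + 1) (k + 1) m y i = m i := by
  rw [ext_one, if_neg h]

/-- the comparison vertex -/
def wv (k : ℕ) (m x : ℕ → ℕ) : QV := if k = 0 then (0, x 0, 0) else (k - 1, m (k - 1), x k)

section

variable {t : Bool} {J a0 k : ℕ} {q : ℝ} {m : ℕ → ℕ}

theorem wv_mem (hk : k ≤ J + 1) (hkt : ¬ (k = J + 1 ∧ t = true)) (y : ℕ → ℕ) (hy : a0 < y 0) :
    wv k m (ext (k + 1) (k + 1) m y) ∈ sd t J a0 k (ext (k + 1) (k + 1) m y) := by
  unfold wv sd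
  by_cases h0 : k = 0
  · subst h0
    rw [if_pos rfl, if_pos rfl]
    refine mem_filter.2 ⟨?_, rfl, rfl, ?_⟩
    · rw [mem_WS]
      rcases Nat.eq_zero_or_pos J with h1 | h1
      · subst h1
        exact Or.inr ⟨rfl, le_rfl, Nat.zero_le _⟩
      · exact Or.inl ⟨h1, le_rfl, Nat.zero_le _⟩
    · show a0 < ext (0 + 1) (0 + 1) m y 0
      rw [ext_self]
      exact hy.trans_le (le_max_left _ _)
  · rw [if_neg h0, if_neg h0, if_pos (by omega)]
    obtain ⟨k, rfl⟩ : ∃ k', k = k' + 1 := ⟨k - 1, by omega⟩
    rw [Nat.add_sub_cancel]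
    refine mem_filter.2 ⟨?_, Or.inl ⟨rfl, ?_⟩⟩
    · rw [mem_WS]
      rcases Nat.lt_or_ge k J with h1 | h1
      · exact Or.inl ⟨h1, by rw [ext_ne (by omega)], le_rfl⟩
      · have h2 : k = J := by omega
        subst h2
        have h3 : t = false := by
          cases t with
          | false => rfl
          | true => exact absurd ⟨rfl, rfl⟩ hkt
        subst h3
        exact Or.inr ⟨rfl, by rw [ext_ne (by omega)], le_rfl⟩
    · show m k = ext (k + 1 + 1) (k + 1 + 1) m y k
      rw [ext_ne (by omega)]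

theorem wv_notMem (y y0 : ℕ → ℕ)
    (hy : y0 k + m k < y k) :
    wv k m (ext (k + 1) (k + 1) m y) ∉ sd t J a0 k (ext (k + 1) (k + 1) m y0) := by
  intro h
  have hW : wv k m (ext (k + 1) (k + 1) m y) ∈ WS t J (ext (k + 1) (k + 1) m y0) := by
    unfold sd at h
    split_ifs at h with h1 h2 h3
    · exact (mem_filter.1 h).1
    · exact (mem_filter.1 h).1
    · exact (mem_filter.1 h).1
    · exact absurd h (notMem_empty _)
  unfold wv at hW
  by_cases h0 : k = 0
  · subst h0
    rw [if_pos rfl, mem_WS, ext_self, ext_self] at hW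
    have h3 : max (y 0) (m 0) ≤ max (y0 0) (m 0) := by
      rcases hW with h1 | h1
      · exact h1.2.1
      · rw [← h1.1, ext_self] at h1
        exact h1.2.1
    have h4 : y 0 ≤ max (y 0) (m 0) := le_max_left _ _
    have h5 : max (y0 0) (m 0) ≤ y0 0 + m 0 := by omega
    omega
  · rw [if_neg h0] at hW
    obtain ⟨k, rfl⟩ : ∃ k', k = k' + 1 := ⟨k - 1, by omega⟩
    rw [Nat.add_sub_cancel, mem_WS, ext_self, ext_self] at hW
    have h3 : max (y (k + 1)) (m (k + 1)) ≤ max (y0 (k + 1)) (m (k + 1)) := by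
      rcases hW with h1 | h1
      · exact h1.2.2
      · have h4 := h1.2.2
        obtain ⟨rfl, _, _⟩ := h1
        refine h4.trans ((hf_le _ _ _).trans ?_)
        rw [ext_self]
    have h4 : y (k + 1) ≤ max (y (k + 1)) (m (k + 1)) := le_max_left _ _
    have h5 : max (y0 (k + 1)) (m (k + 1)) ≤ y0 (k + 1) + m (k + 1) := by omega
    omega

/-- all the vertices of the growing side are near the comparison vertex -/
theorem wv_path (hq : 1 ≤ q) (hk : k ≤ J + 1) (hkt : ¬ (k = J + 1 ∧ t = true)) (y : ℕ → ℕ)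
    {v : QV} (hv : v ∈ sd t J a0 (k + 1) (ext (k + 1) (k + 1) m y)) (u : QV) :
    pS q (WS t J (ext (k + 1) (k + 1) m y)) u v ≤ (1 + √q) ^ (m (k - 1) + 1 + m (k + 1)) *
      pS q (WS t J (ext (k + 1) (k + 1) m y)) u (wv k m (ext (k + 1) (k + 1) m y)) := by
  set x := ext (k + 1) (k + 1) m y with hx
  set p := pS q (WS t J x) u with hp
  have hs : 1 ≤ 1 + √q := by
    have := Real.sqrt_nonneg q
    linarith
  have hp0 : ∀ v, 0 ≤ p v := fun v => pS_nonneg (by linarith) _ _ _
  have hpow : ∀ {c d : ℕ} (v : QV), c ≤ d → (1 + √q) ^ c * p v ≤ (1 + √q) ^ d * p v := by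
    intro c d v h
    exact mul_le_mul_of_nonneg_right (pow_le_pow_right₀ hs h) (hp0 v)
  unfold sd at hv
  rw [if_neg (by omega), if_pos (by omega), Nat.add_sub_cancel] at hv
  obtain ⟨i, a, b⟩ := v
  obtain ⟨h1, h2⟩ := mem_filter.1 hv
  simp only at h2
  have h1' := mem_WS.1 h1
  have hfl := hf_le t (x (J + 1)) a
  -- along the row at height `x k` in the quadrant `k - 1`
  have hrow : ∀ a' i', i' + 1 = k → a' ≤ m (k - 1) →
      p (i', a', x k) ≤ (1 + √q) ^ (m (k - 1)) * p (wv k m x) := by
    intro a' i' hik ha'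
    subst hik
    rw [Nat.add_sub_cancel] at ha' ⊢
    have hwv : wv (i' + 1) m x = (i', m i', x (i' + 1)) := by
      unfold wv
      rw [if_neg (by omega), Nat.add_sub_cancel]
    rw [hwv]
    have h3 := pS_row (S := WS t J x) hq u (i := i') (b := x (i' + 1)) a' (m i' - a') (by
      intro x' _ h4
      rw [mem_WS]
      have hxi : x i' = m i' := ext_ne (by omega)
      rcases Nat.lt_or_ge i' J with h5 | h5
      · exact Or.inl ⟨h5, by omega, le_rfl⟩
      · have h6 : i' = J := by omega
        subst h6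
        have h7 : t = false := by
          cases t with
          | false => rfl
          | true => exact absurd ⟨rfl, rfl⟩ hkt
        subst h7
        exact Or.inr ⟨rfl, by omega, le_rfl⟩)
    rw [show a' + (m i' - a') = m i' by omega] at h3
    exact h3.trans (hpow _ (by omega))
  rcases h2 with ⟨rfl, h3⟩ | ⟨h2, h3, h4⟩
  · -- the right side of the quadrant `k`
    have hiJ : i ≤ J := by omega
    have hx1 : x (i + 1) = m (i + 1) := ext_ne (by omega)
    have hb : b ≤ m (i + 1) := by
      rcases h1' with h5 | h5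
      · rw [← hx1]; exact h5.2.2
      · rw [← hx1, h5.1]
        exact h5.2.2.trans hfl
    have hcol := pS_col (S := WS t J x) hq u (i := i) (a := a) b (by
      intro b' hb'
      rw [mem_WS]
      omega)
    have hv0 : (i, a, 0) ∈ WS t J x := by
      rw [mem_WS]; omega
    by_cases h0 : i = 0
    · subst h0
      have hwv : wv 0 m x = (0, a, 0) := by
        unfold wv
        rw [if_pos rfl, h3]
      rw [hwv]
      exact hcol.trans (hpow _ (by omega))
    · obtain ⟨i, rfl⟩ : ∃ i', i = i' + 1 := ⟨i - 1, by omega⟩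
      have hv1 : (i, 0, a) ∈ WS t J x := by
        rw [mem_WS]
        left
        refine ⟨by omega, Nat.zero_le _, ?_⟩
        rw [h3]
      have hgl := pS_glue hq u hv1 hv0
      have hr := hrow 0 i rfl (Nat.zero_le _)
      rw [← h3] at hr
      rw [Nat.add_sub_cancel] at hr ⊢
      have hc : 0 ≤ 1 + √q := by linarith
      calc p (i + 1, a, b) ≤ (1 + √q) ^ b * p (i + 1, a, 0) := hcol
        _ ≤ (1 + √q) ^ b * ((1 + √q) * p (i, 0, a)) :=
            mul_le_mul_of_nonneg_left hgl (pow_nonneg hc _)
        _ ≤ (1 + √q) ^ b * ((1 + √q) * ((1 + √q) ^ (m i) * p (wv (i + 1) m x))) :=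
            mul_le_mul_of_nonneg_left (mul_le_mul_of_nonneg_left hr hc) (pow_nonneg hc _)
        _ = (1 + √q) ^ (m i + 1 + b) * p (wv (i + 1) m x) := by
            rw [pow_add, pow_add]; ring
        _ ≤ _ := hpow _ (by omega)
  · -- the upper side of the quadrant `k - 1`
    subst h2
    have hxi : x i = m i := ext_ne (by omega)
    have ha : a ≤ m i := by
      rw [← hxi]
      rcases h1' with h5 | h5
      · exact h5.2.1
      · rw [h5.1]; exact h5.2.1
    rw [h3]
    have := hrow a i rfl (by rw [Nat.add_sub_cancel]; exact ha)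
    exact this.trans (hpow _ (by omega))

theorem wbase (hq : 1 ≤ q) (hk : k ≤ J + 1)
    (hB : BddAbove (Set.range (fun y => wEE t J a0 q k (ext (k + 1) (k + 1) m y)))) :
    Tendsto (fun y => wEE t J a0 q (k + 1) (ext (k + 1) (k + 1) m y)) atTop (𝓝 0) := by
  have hq0 : 0 < q := by linarith
  by_cases hkt : k = J + 1 ∧ t = true
  · -- the side is empty
    obtain ⟨rfl, rfl⟩ := hkt
    apply tendsto_const_nhds.congr'
    filter_upwards [eventually_ge_atTop (fun _ => m J)] with y hy
    have h1 : sd true J a0 (J + 1 + 1) (ext (J + 1 + 1) (J + 1 + 1) m y) = ∅ := by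
      unfold sd
      rw [if_neg (by omega), if_pos (by omega), Nat.add_sub_cancel]
      apply filter_false_of_mem
      rintro ⟨i, a, b⟩ hv h2
      rw [mem_WS] at hv
      have h3 : m J ≤ y (J + 1) := hy (J + 1)
      have h4 : ext (J + 1 + 1) (J + 1 + 1) m y J = m J := ext_ne (by omega)
      have h5 : ext (J + 1 + 1) (J + 1 + 1) m y (J + 1) = max (y (J + 1)) (m (J + 1)) := ext_self
      simp only at h2
      rcases h2 with h2 | ⟨h2, h6, h7⟩
      · omega
      · have h8 : i = J := by omega
        have h9 : b < a := h7 h8 trivial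
        rw [h5] at h6
        have h10 : a ≤ m J := by
          rcases hv with h11 | h11
          · omega
          · rw [← h4]; exact h11.2.1
        have h12 : y (J + 1) ≤ b := by rw [h6]; exact le_max_left _ _
        omega
    show 0 = wEE true J a0 q (J + 1 + 1) (ext (J + 1 + 1) (J + 1 + 1) m y)
    unfold wEE
    rw [h1, sum_empty]
  · -- the comparison vertex
    have hmono : Monotone (fun y => wEE t J a0 q k (ext (k + 1) (k + 1) m y)) := by
      intro y y' h
      apply wEE_mono hq (ext_mono _ _ _ h)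
      intro h1 _
      rw [ext_ne (by omega), ext_ne (by omega)]
    have hlim := tendsto_atTop_ciSup hmono hB
    have hw : Tendsto (fun y => pS q (WS t J (ext (k + 1) (k + 1) m y)) (0, a0, 0)
        (wv k m (ext (k + 1) (k + 1) m y))) atTop (𝓝 0) := by
      rw [Metric.tendsto_atTop] at hlim ⊢
      intro ε hε
      obtain ⟨y0, hy0⟩ := hlim (ε / 2) (by positivity)
      refine ⟨fun i => y0 i + m i + a0 + 1, fun y hy => ?_⟩
      have hy' : ∀ i, y0 i + m i + a0 + 1 ≤ y i := fun i => hy i
      have hyy : y0 ≤ y := by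
        intro i
        have h9 := hy' i
        show y0 i ≤ y i
        omega
      have d1 := hy0 y hyy
      have d2 := hy0 y0 le_rfl
      rw [Real.dist_eq] at d1 d2 ⊢
      rw [sub_zero, abs_of_nonneg (pS_nonneg hq0 _ _ _)]
      have hsub : insert (wv k m (ext (k + 1) (k + 1) m y))
          (sd t J a0 k (ext (k + 1) (k + 1) m y0)) ⊆ sd t J a0 k (ext (k + 1) (k + 1) m y) := by
        rw [insert_subset_iff]
        refine ⟨wv_mem hk hkt y (by have := hy' 0; omega), ?_⟩
        apply sd_mono (ext_mono _ _ _ hyy)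
        intro h1 _
        rw [ext_ne (by omega), ext_ne (by omega)]
      have h2 : pS q (WS t J (ext (k + 1) (k + 1) m y)) (0, a0, 0)
          (wv k m (ext (k + 1) (k + 1) m y)) + wEE t J a0 q k (ext (k + 1) (k + 1) m y0) ≤
          wEE t J a0 q k (ext (k + 1) (k + 1) m y) := by
        unfold wEE
        calc pS q (WS t J (ext (k + 1) (k + 1) m y)) (0, a0, 0)
              (wv k m (ext (k + 1) (k + 1) m y)) +
              ∑ v ∈ sd t J a0 k (ext (k + 1) (k + 1) m y0),
                pS q (WS t J (ext (k + 1) (k + 1) m y0)) (0, a0, 0) v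
            ≤ pS q (WS t J (ext (k + 1) (k + 1) m y)) (0, a0, 0)
              (wv k m (ext (k + 1) (k + 1) m y)) +
              ∑ v ∈ sd t J a0 k (ext (k + 1) (k + 1) m y0),
                pS q (WS t J (ext (k + 1) (k + 1) m y)) (0, a0, 0) v :=
              add_le_add le_rfl
                (sum_le_sum (fun v _ => pS_mono hq (WS_mono (ext_mono _ _ _ hyy)) _ _))
          _ = ∑ v ∈ insert (wv k m (ext (k + 1) (k + 1) m y))
                (sd t J a0 k (ext (k + 1) (k + 1) m y0)),
                pS q (WS t J (ext (k + 1) (k + 1) m y)) (0, a0, 0) v := by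
              rw [sum_insert (wv_notMem y y0 (by have := hy' k; omega))]
          _ ≤ _ := sum_le_sum_of_subset_of_nonneg hsub (fun v _ _ => pS_nonneg hq0 _ _ _)
      have h3 := abs_lt.1 d1
      have h4 := abs_lt.1 d2
      linarith [h3.2, h4.1]
    -- the bound
    have hbound : ∀ y, wEE t J a0 q (k + 1) (ext (k + 1) (k + 1) m y) ≤
        ((m (k - 1) + 1 + (m (k + 1) + 1) : ℕ) : ℝ) * (1 + √q) ^ (m (k - 1) + 1 + m (k + 1)) *
          pS q (WS t J (ext (k + 1) (k + 1) m y)) (0, a0, 0)
            (wv k m (ext (k + 1) (k + 1) m y)) := by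
      intro y
      unfold wEE
      refine (sum_le_card_nsmul _ _ _ (fun v hv => wv_path hq hk hkt y hv _)).trans ?_
      rw [nsmul_eq_mul, mul_assoc]
      apply mul_le_mul_of_nonneg_right
      · have h5 : (sd t J a0 (k + 1) (ext (k + 1) (k + 1) m y)).card ≤
            m (k - 1) + 1 + (m (k + 1) + 1) := by
          unfold sd
          rw [if_neg (by omega), if_pos (by omega), Nat.add_sub_cancel]
          refine card_sideF.trans ?_
          apply Nat.add_le_add
          · split_ifs with h6
            · rw [ext_ne (by omega)]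
            · omega
          · split_ifs with h6
            · rw [ext_ne (by omega)]
            · omega
        exact_mod_cast h5
      · have := pS_nonneg hq0 (WS t J (ext (k + 1) (k + 1) m y)) (0, a0, 0)
          (wv k m (ext (k + 1) (k + 1) m y))
        have hc : 0 ≤ 1 + √q := by positivity
        exact mul_nonneg (pow_nonneg hc _) this
    have h7 := hw.const_mul (((m (k - 1) + 1 + (m (k + 1) + 1) : ℕ) : ℝ) *
      (1 + √q) ^ (m (k - 1) + 1 + m (k + 1)))
    rw [mul_zero] at h7
    exact squeeze_zero (fun y => sum_nn hq0 _ _ _) hbound h7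

end

/-- the system -/
def WY (t : Bool) (J a0 : ℕ) (q : ℝ) (hq : 1 ≤ q) : Sys (J + 2) where
  E := wEE t J a0 q
  L := wLL t J a0 q
  a0 := a0
  nonneg := fun l x => sum_nn (by linarith) _ _ _
  mono := fun l x y _ _ h1 h2 => wEE_mono hq h1 h2
  fin := fun l x hl => wEE_fin (by linarith) l x hl
  Lmono := fun x y _ h => wLL_mono hq h
  Lfin := fun x => card_le_sum (by linarith) card_sideL
  Lnonneg := fun x => sum_nn (by linarith) _ _ _
  base := by
    intro a m h1 h2 h3 hB
    obtain ⟨k, rfl⟩ : ∃ k, a = k + 1 := ⟨a - 1, by omega⟩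
    exact wbase hq (by omega) hB

end FKR
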