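import Pool.Agent.Lib.MP_216314_pr.R.WDiv

/-!
# The critical values `4 cos² (2 π / (n + 4))`
-/

set_option autoImplicit false

noncomputable section

namespace FKR

open Finset Filter Topology Real

/-- the angle of the wedge is `wn t J * π / 4` -/
def wn (t : Bool) (J : ℕ) : ℕ := 2 * J + 2 - (if t then 1 else 0)

/-- the critical value of `q` for the angle `n π / 4` -/
def qc (n : ℕ) : ℝ := 4 * cos (2 * π / (n + 4)) ^ 2

theorem wn_false (J : ℕ) : ((wn false J : ℕ) : ℝ) + 4 = 2 * J + 6 := by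
  unfold wn
  simp only [Bool.false_eq_true, if_false, Nat.sub_zero]
  push_cast
  ring

theorem wn_true (J : ℕ) : ((wn true J : ℕ) : ℝ) + 4 = 2 * J + 5 := by
  unfold wn
  simp only [if_true]
  rw [show 2 * J + 2 - 1 = 2 * J + 1 by omega]
  push_cast
  ring

theorem th_range (n : ℕ) : 0 < 2 * π / ((n : ℝ) + 4) ∧ 2 * π / ((n : ℝ) + 4) ≤ π / 2 := by
  have h1 : (0 : ℝ) < (n : ℝ) + 4 := by positivity
  have h2 := pi_pos
  refine ⟨by positivity, ?_⟩
  rw [div_le_div_iff₀ h1 (by norm_num)]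
  have h3 : (0 : ℝ) ≤ n := Nat.cast_nonneg n
  nlinarith

/-- the parameter `γ` -/
theorem gam_exists {q : ℝ} (h1 : 1 ≤ q) (h4 : q < 4) : ∃ γ, 0 < γ ∧ γ < π / 2 ∧ √q = 2 * cos γ := by
  have hs : √q < 2 := by
    rw [show (2 : ℝ) = √(2 ^ 2) by rw [Real.sqrt_sq (by norm_num)]]
    exact Real.sqrt_lt_sqrt (by linarith) (by linarith)
  have hs0 : 0 < √q := Real.sqrt_pos.2 (by linarith)
  refine ⟨arccos (√q / 2), ?_, ?_, ?_⟩
  · exact arccos_pos.2 (by linarith)
  · exact arccos_lt_pi_div_two.2 (by linarith)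
  · rw [cos_arccos (by linarith) (by linarith)]
    ring

theorem lt_iff_gam {q γ : ℝ} (h1 : 1 ≤ q) (g0 : 0 < γ) (g1 : γ < π / 2) (hγ : √q = 2 * cos γ)
    (n : ℕ) : qc n < q ↔ γ < 2 * π / ((n : ℝ) + 4) := by
  obtain ⟨t0, t1⟩ := th_range n
  have hq : q = 4 * cos γ ^ 2 := by
    have := Real.sq_sqrt (show 0 ≤ q by linarith)
    rw [hγ] at this
    linarith
  have hpi := pi_pos
  have c0 : 0 < cos γ := cos_pos_of_mem_Ioo ⟨by linarith, g1⟩
  have c1 : 0 ≤ cos (2 * π / ((n : ℝ) + 4)) := cos_nonneg_of_mem_Icc ⟨by linarith, t1⟩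
  have h2 : γ < 2 * π / ((n : ℝ) + 4) ↔ cos (2 * π / ((n : ℝ) + 4)) < cos γ :=
    (strictAntiOn_cos.lt_iff_gt ⟨t0.le, by linarith⟩ ⟨g0.le, by linarith⟩).symm
  rw [h2, hq]
  unfold qc
  constructor
  · intro h
    by_contra h3
    push Not at h3
    have := pow_le_pow_left₀ c0.le h3 2
    linarith
  · intro h
    have := pow_lt_pow_left₀ h c1 (n := 2) (by norm_num)
    linarith

/-- the kappa functional in trigonometric form -/
theorem kap_true_eq (J : ℕ) (γ : ℝ) :
    kap true J (fun w => uu (2 * cos γ) (w + 1)) * sin γ =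
      2 * sin (((J : ℝ) + 5 / 2) * γ) * cos (γ / 2) := by
  unfold kap
  simp only [if_true]
  rw [add_mul, uu_cos, uu_cos]
  push_cast
  rw [show ((J : ℝ) + 1 + 1) * γ = ((J : ℝ) + 5 / 2) * γ - γ / 2 by ring,
    show ((J : ℝ) + 2 + 1) * γ = ((J : ℝ) + 5 / 2) * γ + γ / 2 by ring, sin_sub, sin_add]
  ring

theorem kap_false_eq (J : ℕ) (γ : ℝ) :
    kap false J (fun w => uu (2 * cos γ) (w + 1)) * sin γ = sin (((J : ℝ) + 3) * γ) := by
  unfold kap
  simp only [Bool.false_eq_true, if_false]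
  rw [uu_cos]
  push_cast
  congr 1
  ring

theorem posU_of_gam {J : ℕ} {γ : ℝ} (g0 : 0 < γ) (h : ((J : ℝ) + 2) * γ < π) :
    PosU J (2 * cos γ) := by
  intro k h1 h2
  apply uu_pos_of_lt g0 h1
  have h3 : (k : ℝ) ≤ J + 2 := by exact_mod_cast h2
  nlinarith

/-- the convergent case -/
theorem conv_cond {t : Bool} {J : ℕ} {q : ℝ} (h1 : 1 ≤ q) (h : qc (wn t J) < q) :
    PosU J (√q) ∧ 0 < kap t J (fun w => uu (√q) (w + 1)) := by
  rcases lt_or_ge q 4 with h4 | h4
  · obtain ⟨γ, g0, g1, hγ⟩ := gam_exists h1 h4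
    rw [lt_iff_gam h1 g0 g1 hγ] at h
    rw [hγ]
    have hpi := pi_pos
    have hsin : 0 < sin γ := sin_pos_of_pos_of_lt_pi g0 (by linarith)
    have hJ : (0 : ℝ) ≤ J := Nat.cast_nonneg J
    cases t with
    | false =>
      rw [wn_false, lt_div_iff₀ (by linarith)] at h
      have h5 : ((J : ℝ) + 3) * γ < π := by linarith
      refine ⟨posU_of_gam g0 (by linarith), ?_⟩
      have h6 := kap_false_eq J γ
      have h7 : 0 < sin (((J : ℝ) + 3) * γ) := sin_pos_of_pos_of_lt_pi (by positivity) h5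
      rw [← h6] at h7
      exact pos_of_mul_pos_left h7 hsin.le
    | true =>
      rw [wn_true, lt_div_iff₀ (by linarith)] at h
      have h5 : ((J : ℝ) + 5 / 2) * γ < π := by linarith
      refine ⟨posU_of_gam g0 (by linarith), ?_⟩
      have h6 := kap_true_eq J γ
      have h7 : 0 < sin (((J : ℝ) + 5 / 2) * γ) := sin_pos_of_pos_of_lt_pi (by positivity) h5
      have h8 : 0 < cos (γ / 2) := cos_pos_of_mem_Ioo ⟨by linarith, by linarith⟩
      have h9 : 0 < 2 * sin (((J : ℝ) + 5 / 2) * γ) * cos (γ / 2) := by positivity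
      rw [← h6] at h9
      exact pos_of_mul_pos_left h9 hsin.le
  · have hs : 2 ≤ √q := by
      rw [show (2 : ℝ) = √(2 ^ 2) by rw [Real.sqrt_sq (by norm_num)]]
      exact Real.sqrt_le_sqrt (by linarith)
    have hu := uu_pos_of_two_le hs
    refine ⟨fun k h5 _ => hu k h5, ?_⟩
    unfold kap
    have e1 := hu (J + 1 + 1) (by omega)
    have e2 := hu (J + 2 + 1) (by omega)
    split_ifs
    · linarith
    · exact e2

/-- the first divergent angle -/
theorem div_cond {t : Bool} {J : ℕ} {q γ : ℝ} (h1 : 1 ≤ q) (g0 : 0 < γ) (g1 : γ < π / 2)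
    (hγ : √q = 2 * cos γ) (h : q ≤ qc (wn t J)) (h' : γ < 2 * π / ((wn t J : ℝ) + 3)) :
    PosU J (√q) ∧ kap t J (fun w => uu (√q) (w + 1)) ≤ 0 := by
  have h2 : ¬ γ < 2 * π / ((wn t J : ℝ) + 4) := by
    rw [← lt_iff_gam h1 g0 g1 hγ]
    exact not_lt.2 h
  push Not at h2
  rw [hγ]
  have hpi := pi_pos
  have hsin : 0 < sin γ := sin_pos_of_pos_of_lt_pi g0 (by linarith)
  have hJ : (0 : ℝ) ≤ J := Nat.cast_nonneg J
  cases t with
  | false =>
    have e := wn_false J
    rw [e, div_le_iff₀ (by linarith)] at h2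
    rw [show (wn false J : ℝ) + 3 = 2 * J + 5 by linarith, lt_div_iff₀ (by linarith)] at h'
    refine ⟨posU_of_gam g0 (by linarith), ?_⟩
    have h6 := kap_false_eq J γ
    have h7 : 0 ≤ sin (((J : ℝ) + 3) * γ - π) :=
      sin_nonneg_of_nonneg_of_le_pi (by linarith) (by nlinarith)
    rw [sin_sub_pi, ← h6] at h7
    by_contra h8
    push Not at h8
    have := mul_pos h8 hsin
    linarith
  | true =>
    have e := wn_true J
    rw [e, div_le_iff₀ (by linarith)] at h2
    rw [show (wn true J : ℝ) + 3 = 2 * J + 4 by linarith, lt_div_iff₀ (by linarith)] at h'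
    refine ⟨posU_of_gam g0 (by linarith), ?_⟩
    have h6 := kap_true_eq J γ
    have h7 : 0 ≤ sin (((J : ℝ) + 5 / 2) * γ - π) :=
      sin_nonneg_of_nonneg_of_le_pi (by linarith) (by nlinarith)
    rw [sin_sub_pi] at h7
    have h8 : 0 < cos (γ / 2) := cos_pos_of_mem_Ioo ⟨by linarith, by linarith⟩
    by_contra h9
    push Not at h9
    have h10 := mul_pos h9 hsin
    rw [h6] at h10
    have h11 : 2 * sin (((J : ℝ) + 5 / 2) * γ) * cos (γ / 2) ≤ 0 := by
      have : sin (((J : ℝ) + 5 / 2) * γ) ≤ 0 := by linarith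
      nlinarith
    linarith

/-- larger wedges -/
theorem pinf_sub {t t' : Bool} {J J' : ℕ} {q : ℝ} (hq : 1 ≤ q)
    (h : ∀ m, WS t J m ⊆ WS t' J' m) (v : QV) : pinf t J 0 q v ≤ pinf t' J' 0 q v :=
  le_of_tendsto_of_tendsto' (pinf_tendsto hq v) (pinf_tendsto hq v)
    (fun m => pS_mono hq (h m) _ _)

theorem WS_true_false (J : ℕ) (m : ℕ → ℕ) : WS true J m ⊆ WS false J m := by
  rintro ⟨i, a, b⟩ hv
  rw [mem_WS] at hv ⊢
  rw [hf_true] at hv
  rw [hf_false]
  omega

theorem WS_false_true (J : ℕ) (m : ℕ → ℕ) : WS false J m ⊆ WS true (J + 1) m := by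
  rintro ⟨i, a, b⟩ hv
  rw [mem_WS] at hv ⊢
  rw [hf_false] at hv
  rcases hv with h1 | ⟨rfl, h2, h3⟩
  · left; omega
  · left; exact ⟨Nat.lt_succ_self _, h2, h3⟩

theorem div_zero {q : ℝ} (hq : 1 ≤ q) : ∀ (n : ℕ) (t : Bool) (J : ℕ), wn t J = n →
    q ≤ qc n → ¬ Summable (fun x : ℕ => pinf t J 0 q (0, 0 + 1 + x, 0)) := by
  intro n
  induction n with
  | zero =>
    intro t J h
    unfold wn at h
    split_ifs at h <;> omega
  | succ n ih =>
    intro t J h hle
    have hq4 : q < 4 := by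
      refine lt_of_le_of_lt hle ?_
      unfold qc
      obtain ⟨t0, t1⟩ := th_range (n + 1)
      have hpi := pi_pos
      have c1 : cos (2 * π / (((n + 1 : ℕ) : ℝ) + 4)) < 1 := by
        rw [← cos_zero]
        exact strictAntiOn_cos ⟨le_rfl, hpi.le⟩ ⟨t0.le, by linarith⟩ t0
      have c0 : 0 ≤ cos (2 * π / (((n + 1 : ℕ) : ℝ) + 4)) :=
        cos_nonneg_of_mem_Icc ⟨by linarith, t1⟩
      nlinarith
    obtain ⟨γ, g0, g1, hγ⟩ := gam_exists hq hq4
    by_cases h5 : γ < 2 * π / ((wn t J : ℝ) + 3)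
    · obtain ⟨hu, hk⟩ := div_cond hq g0 g1 hγ (h ▸ hle) h5
      exact div_main hq hu hk
    · -- a smaller wedge
      have h6 : ¬ qc n < q := by
        rw [lt_iff_gam hq g0 g1 hγ]
        intro h7
        apply h5
        rw [h]
        push_cast
        rw [show (n : ℝ) + 1 + 3 = n + 4 by ring]
        exact h7
      have h7 : q ≤ qc n := not_lt.1 h6
      have hcmp : ∀ (t' : Bool) (J' : ℕ), wn t' J' = n → (∀ m, WS t' J' m ⊆ WS t J m) →
          ¬ Summable (fun x : ℕ => pinf t J 0 q (0, 0 + 1 + x, 0)) := by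
        intro t' J' h8 h9 h10
        apply ih t' J' h8 h7
        exact Summable.of_nonneg_of_le (fun x => pinf_nonneg hq _)
          (fun x => pinf_sub hq h9 _) h10
      cases t with
      | false =>
        refine hcmp true J ?_ (WS_true_false J)
        unfold wn at h ⊢
        simp only [Bool.false_eq_true, if_false, if_true] at h ⊢
        omega
      | true =>
        cases J with
        | zero =>
          -- angle `π / 4`: this does not happen
          exfalso
          apply h5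
          have : ((wn true 0 : ℕ) : ℝ) = 1 := by
            have := wn_true 0
            push_cast at this
            linarith
          rw [this]
          linarith
        | succ J =>
          refine hcmp false J ?_ (WS_false_true J)
          unfold wn at h ⊢
          simp only [Bool.false_eq_true, if_false, if_true] at h ⊢
          omega

/-- comparison of two starting points -/
theorem start_cmp {t : Bool} {J a0 : ℕ} {q : ℝ} (hq : 1 ≤ q) (v : QV) :
    (1 / (1 + √q)) ^ a0 * pinf t J 0 q v ≤ pinf t J a0 q v := by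
  have hs : 0 < 1 + √q := by positivity
  refine le_of_tendsto_of_tendsto ((pinf_tendsto hq v).const_mul _) (pinf_tendsto hq v) ?_
  filter_upwards [eventually_ge_atTop (fun _ => a0)] with m hm
  have hm0 : a0 ≤ m 0 := hm 0
  have h1 := pS_row (S := WS t J m) hq (0, 0, 0) (i := 0) (b := 0) 0 a0 (by
    intro x' _ h2
    exact start_mem (by omega))
  rw [pS_self (by linarith), zero_add] at h1
  have h2 : (1 / (1 + √q)) ^ a0 ≤ pS q (WS t J m) (0, 0, 0) (0, a0, 0) := by
    rw [one_div, inv_pow, inv_le_iff_one_le_mul₀ (by positivity)]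
    linarith
  have h3 := pS_tri hq (WS t J m) (0, a0, 0) (0, 0, 0) v
  rw [pS_comm (by linarith) (WS t J m) (0, a0, 0) (0, 0, 0)] at h3
  exact (mul_le_mul_of_nonneg_right h2 (pS_nonneg (by linarith) _ _ _)).trans h3

/-- the divergent case, any starting point -/
theorem div_all {t : Bool} {J : ℕ} {q : ℝ} (hq : 1 ≤ q) (h : q ≤ qc (wn t J)) (a0 : ℕ) :
    ¬ Summable (fun x : ℕ => pinf t J a0 q (0, a0 + 1 + x, 0)) := by
  intro hS
  apply div_zero hq (wn t J) t J rfl h
  rw [← summable_nat_add_iff a0]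
  have hs : 0 < (1 / (1 + √q)) ^ a0 := by positivity
  have h1 : Summable (fun x : ℕ => ((1 / (1 + √q)) ^ a0)⁻¹ * pinf t J a0 q (0, a0 + 1 + x, 0)) :=
    hS.mul_left _
  refine Summable.of_nonneg_of_le (fun x => pinf_nonneg hq _) (fun x => ?_) h1
  rw [show 0 + 1 + (x + a0) = a0 + 1 + x by ring]
  have h2 := start_cmp (t := t) (J := J) (a0 := a0) hq (0, a0 + 1 + x, 0)
  rw [← div_eq_inv_mul, le_div_iff₀ hs, mul_comm]
  exact h2

end FKR
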