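import Pool.Agent.Lib.MP_216314_pr.R.Crit

/-!
# The wedge of angle `j π / 2`

The wedge is made of `j` rectangles `Q_0, …, Q_{j-1}`; the vertex `(a,b)` of `Q_i`, `a ≤ m i`, `b ≤ m (i+1)`, is `(i,a,b)`;
the dart `0` of `(i,a,b)` points to `(i,a+1,b)`, the dart `1` to `(i,a,b+1)`, the dart `2` to `(i,a-1,b)`, if `a = 0` to `(i+1,b,0)`,
the dart `3` to `(i,a,b-1)`, if `b = 0` to `(i-1,0,a)`.
-/

set_option autoImplicit false

noncomputable section

namespace FKR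

open Finset FKD FKI

/-- the other dart of an edge of the infinite wedge -/
def wopp : Dart (ℕ × ℕ × ℕ) → Dart (ℕ × ℕ × ℕ)
  | ((i, a, b), k) =>
    if k = 0 then ((i, a + 1, b), 2)
    else if k = 1 then ((i, a, b + 1), 3)
    else if k = 2 then (if 0 < a then ((i, a - 1, b), 0) else ((i + 1, b, 0), 3))
    else (if 0 < b then ((i, a, b - 1), 1) else if 0 < i then ((i - 1, 0, a), 2) else ((i, a, b), k))

theorem wopp0 (i a b : ℕ) : wopp ((i, a, b), 0) = ((i, a + 1, b), 2) := rfl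

theorem wopp1 (i a b : ℕ) : wopp ((i, a, b), 1) = ((i, a, b + 1), 3) := rfl

theorem wopp2 (i a b : ℕ) : wopp ((i, a + 1, b), 2) = ((i, a, b), 0) := rfl

theorem wopp2' (i b : ℕ) : wopp ((i, 0, b), 2) = ((i + 1, b, 0), 3) := rfl

theorem wopp3 (i a b : ℕ) : wopp ((i, a, b + 1), 3) = ((i, a, b), 1) := rfl

theorem wopp3' (i a : ℕ) : wopp ((i + 1, a, 0), 3) = ((i, 0, a), 2) := rfl

theorem wopp3'' (a : ℕ) : wopp ((0, a, 0), 3) = ((0, a, 0), 3) := rfl

theorem k_cases (k : ZMod 4) : k = 0 ∨ k = 1 ∨ k = 2 ∨ k = 3 := by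
  revert k; decide

theorem wopp_inv (z : Dart (ℕ × ℕ × ℕ)) : wopp (wopp z) = z := by
  obtain ⟨⟨i, a, b⟩, k⟩ := z
  rcases k_cases k with rfl | rfl | rfl | rfl
  · rw [wopp0, wopp2]
  · rw [wopp1, wopp3]
  · cases a with
    | zero => rw [wopp2', wopp3']
    | succ a => rw [wopp2, wopp0]
  · cases b with
    | zero =>
      cases i with
      | zero => rw [wopp3'', wopp3'']
      | succ i => rw [wopp3', wopp2']
    | succ b => rw [wopp3, wopp1]

/-- the vertices of the wedge -/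
def wS (j : ℕ) (m : ℕ → ℕ) : Finset (ℕ × ℕ × ℕ) :=
  (range j).biUnion (fun i => {i} ×ˢ (range (m i + 1) ×ˢ range (m (i + 1) + 1)))

/-- the edges of the wedge -/
def wE (j : ℕ) (m : ℕ → ℕ) : Finset (Dart (ℕ × ℕ × ℕ)) :=
  (wS j m ×ˢ univ).filter (fun z => (z.2 = 0 ∧ z.1.2.1 < m z.1.1) ∨ (z.2 = 1 ∧ z.1.2.2 < m (z.1.1 + 1)) ∨
    (z.2 = 2 ∧ z.1.2.1 = 0 ∧ z.1.1 + 1 < j))

theorem mem_wS {j : ℕ} {m : ℕ → ℕ} {i a b : ℕ} :
    (i, a, b) ∈ wS j m ↔ i < j ∧ a ≤ m i ∧ b ≤ m (i + 1) := by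
  unfold wS
  simp only [mem_biUnion, mem_range, mem_product, mem_singleton, Nat.lt_add_one_iff]
  constructor
  · rintro ⟨i', h1, rfl, h2, h3⟩
    exact ⟨h1, h2, h3⟩
  · rintro ⟨h1, h2, h3⟩
    exact ⟨i, h1, rfl, h2, h3⟩

theorem mem_wE {j : ℕ} {m : ℕ → ℕ} {i a b : ℕ} {k : ZMod 4} :
    ((i, a, b), k) ∈ wE j m ↔ (i < j ∧ a ≤ m i ∧ b ≤ m (i + 1)) ∧
      ((k = 0 ∧ a < m i) ∨ (k = 1 ∧ b < m (i + 1)) ∨ (k = 2 ∧ a = 0 ∧ i + 1 < j)) := by
  unfold wE
  rw [mem_filter, mem_product, mem_wS]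
  simp only [mem_univ, and_true]

/-- the wedge -/
def wedge (j : ℕ) (m : ℕ → ℕ) : Glue (ℕ × ℕ × ℕ) where
  S := wS j m
  opp := wopp
  E := wE j m
  inv := wopp_inv
  rep := by
    rintro ⟨⟨i, a, b⟩, k⟩ h h'
    rw [mem_wE] at h
    obtain ⟨_, ⟨rfl, h2⟩ | ⟨rfl, h2⟩ | ⟨rfl, rfl, h2⟩⟩ := h
    · rw [wopp0, mem_wE] at h'
      obtain ⟨_, ⟨h3, _⟩ | ⟨h3, _⟩ | ⟨_, h3, _⟩⟩ := h'
      · exact absurd h3 (by decide)
      · exact absurd h3 (by decide)
      · omega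
    · rw [wopp1, mem_wE] at h'
      obtain ⟨_, ⟨h3, _⟩ | ⟨h3, _⟩ | ⟨h3, _⟩⟩ := h' <;> exact absurd h3 (by decide)
    · rw [wopp2', mem_wE] at h'
      obtain ⟨_, ⟨h3, _⟩ | ⟨h3, _⟩ | ⟨h3, _⟩⟩ := h' <;> exact absurd h3 (by decide)
  left := by
    rintro ⟨⟨i, a, b⟩, k⟩ h
    rw [mem_wE] at h
    exact mem_wS.2 h.1
  right := by
    rintro ⟨⟨i, a, b⟩, k⟩ h
    rw [mem_wE] at h
    obtain ⟨h1, ⟨rfl, h2⟩ | ⟨rfl, h2⟩ | ⟨rfl, rfl, h2⟩⟩ := h
    · rw [wopp0]; exact mem_wS.2 (by omega)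
    · rw [wopp1]; exact mem_wS.2 (by omega)
    · rw [wopp2']; exact mem_wS.2 (by omega)

section

variable {j : ℕ} {m : ℕ → ℕ} {i a b : ℕ}

theorem wop_iff (z : Dart (ℕ × ℕ × ℕ)) :
    (wedge j m).op (wedge j m).E z ↔ (z ∈ wE j m ∨ wopp z ∈ wE j m) := Iff.rfl

theorem wop0 (h : i < j ∧ a ≤ m i ∧ b ≤ m (i + 1)) :
    (wedge j m).op (wedge j m).E ((i, a, b), 0) ↔ a < m i := by
  rw [wop_iff]
  rw [wopp0, mem_wE, mem_wE]
  have : ¬ ((2 : ZMod 4) = 0) := by decide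
  have : ¬ ((2 : ZMod 4) = 1) := by decide
  have : ¬ ((0 : ZMod 4) = 1) := by decide
  have : ¬ ((0 : ZMod 4) = 2) := by decide
  constructor
  · rintro (⟨_, ⟨_, h2⟩ | ⟨h2, _⟩ | ⟨h2, _⟩⟩ | ⟨_, ⟨h2, _⟩ | ⟨h2, _⟩ | ⟨_, h2, _⟩⟩)
    · exact h2
    · contradiction
    · contradiction
    · contradiction
    · contradiction
    · omega
  · intro h2
    exact Or.inl ⟨h, Or.inl ⟨rfl, h2⟩⟩

theorem wop1 (h : i < j ∧ a ≤ m i ∧ b ≤ m (i + 1)) :
    (wedge j m).op (wedge j m).E ((i, a, b), 1) ↔ b < m (i + 1) := by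
  rw [wop_iff]
  rw [wopp1, mem_wE, mem_wE]
  have : ¬ ((3 : ZMod 4) = 0) := by decide
  have : ¬ ((3 : ZMod 4) = 1) := by decide
  have : ¬ ((3 : ZMod 4) = 2) := by decide
  have : ¬ ((1 : ZMod 4) = 0) := by decide
  have : ¬ ((1 : ZMod 4) = 2) := by decide
  constructor
  · rintro (⟨_, ⟨h2, _⟩ | ⟨_, h2⟩ | ⟨h2, _⟩⟩ | ⟨_, ⟨h2, _⟩ | ⟨h2, _⟩ | ⟨h2, _, _⟩⟩)
    · contradiction
    · exact h2
    · contradiction
    · contradiction
    · contradiction
    · contradiction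
  · intro h2
    exact Or.inl ⟨h, Or.inr (Or.inl ⟨rfl, h2⟩)⟩

theorem wop2 (h : i < j ∧ a ≤ m i ∧ b ≤ m (i + 1)) :
    (wedge j m).op (wedge j m).E ((i, a, b), 2) ↔ (0 < a ∨ i + 1 < j) := by
  rw [wop_iff]
  have : ¬ ((3 : ZMod 4) = 0) := by decide
  have : ¬ ((3 : ZMod 4) = 1) := by decide
  have : ¬ ((3 : ZMod 4) = 2) := by decide
  have : ¬ ((2 : ZMod 4) = 0) := by decide
  have : ¬ ((2 : ZMod 4) = 1) := by decide
  cases a with
  | zero =>
    rw [wopp2', mem_wE, mem_wE]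
    constructor
    · rintro (⟨_, ⟨h2, _⟩ | ⟨h2, _⟩ | ⟨_, _, h2⟩⟩ | ⟨_, ⟨h2, _⟩ | ⟨h2, _⟩ | ⟨h2, _, _⟩⟩)
      · contradiction
      · contradiction
      · exact Or.inr h2
      · contradiction
      · contradiction
      · contradiction
    · rintro (h2 | h2)
      · omega
      · exact Or.inl ⟨h, Or.inr (Or.inr ⟨rfl, rfl, h2⟩)⟩
  | succ a =>
    rw [wopp2, mem_wE, mem_wE]
    constructor
    · intro _
      exact Or.inl (Nat.succ_pos a)
    · intro _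
      exact Or.inr ⟨by omega, Or.inl ⟨rfl, by omega⟩⟩

theorem wop3 (h : i < j ∧ a ≤ m i ∧ b ≤ m (i + 1)) :
    (wedge j m).op (wedge j m).E ((i, a, b), 3) ↔ (0 < b ∨ 0 < i) := by
  rw [wop_iff]
  have : ¬ ((3 : ZMod 4) = 0) := by decide
  have : ¬ ((3 : ZMod 4) = 1) := by decide
  have : ¬ ((3 : ZMod 4) = 2) := by decide
  cases b with
  | zero =>
    cases i with
    | zero =>
      rw [wopp3'', mem_wE]
      constructor
      · rintro (⟨_, ⟨h2, _⟩ | ⟨h2, _⟩ | ⟨h2, _⟩⟩ | ⟨_, ⟨h2, _⟩ | ⟨h2, _⟩ | ⟨h2, _, _⟩⟩) <;> contradiction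
      · rintro (h2 | h2) <;> omega
    | succ i =>
      rw [wopp3', mem_wE, mem_wE]
      constructor
      · intro _
        exact Or.inr (Nat.succ_pos i)
      · intro _
        exact Or.inr ⟨by omega, Or.inr (Or.inr ⟨rfl, rfl, by omega⟩)⟩
  | succ b =>
    rw [wopp3, mem_wE, mem_wE]
    constructor
    · intro _
      exact Or.inl (Nat.succ_pos b)
    · intro _
      exact Or.inr ⟨by omega, Or.inr (Or.inl ⟨rfl, by omega⟩)⟩

end

/-- corners on the outer side -/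
def wB (j : ℕ) (m : ℕ → ℕ) : Dart (ℕ × ℕ × ℕ) → Prop
  | ((i, a, b), k) => (i < j ∧ a ≤ m i ∧ b ≤ m (i + 1)) ∧
    (k = 0 → (a = m i ∨ (b = 0 ∧ i = 0))) ∧
    (k = 1 → (a = m i ∨ b = m (i + 1))) ∧
    (k = 2 → (b = m (i + 1) ∨ (a = 0 ∧ i + 1 = j))) ∧
    (k = 3 → ((a = 0 ∧ b = 0) ∨ (b = 0 ∧ i = 0) ∨ (a = 0 ∧ i + 1 = j)))

/-- the winding -/
def wh : Dart (ℕ × ℕ × ℕ) → ℤ
  | ((i, a, _), k) => if k = 0 then i else if k = 1 then i + 1 else if k = 2 then i + 2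
    else if 0 < a then -1 else i + 3

/-- the position on the boundary -/
def wρ (j M : ℕ) : Dart (ℕ × ℕ × ℕ) → ℤ
  | ((i, a, b), k) =>
    if k = 0 then (if i = 0 ∧ b = 0 then 2 * a + 1 else (4 * M + 4) + i * (4 * M + 4) + 2 * b - 2 * a - 1)
    else if k = 1 then (4 * M + 4) + i * (4 * M + 4) + 2 * b - 2 * a
    else if k = 2 then (if a = 0 ∧ i + 1 = j then (4 * M + 4) + j * (4 * M + 4) + (2 * M + 2) - (2 * b + 1)
      else (4 * M + 4) + i * (4 * M + 4) + 2 * b - 2 * a + 1)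
    else (if 0 < a then 2 * a else if i + 1 = j then
      (4 * M + 4) + j * (4 * M + 4) + (2 * M + 2) - 2 * b
      else (4 * M + 4) + j * (4 * M + 4) + (2 * M + 2) + (j - 1 - i))

section

variable {j M : ℕ} {i a b : ℕ}

theorem wh0 : wh ((i, a, b), 0) = i := rfl
theorem wh1 : wh ((i, a, b), 1) = i + 1 := rfl
theorem wh2 : wh ((i, a, b), 2) = i + 2 := rfl
theorem wh3 : wh ((i, a, b), 3) = if 0 < a then -1 else (i : ℤ) + 3 := rfl
theorem wρ0 : wρ j M ((i, a, b), 0) = if i = 0 ∧ b = 0 then 2 * (a : ℤ) + 1 else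
  (4 * M + 4) + i * (4 * M + 4) + 2 * b - 2 * a - 1 := rfl
theorem wρ1 : wρ j M ((i, a, b), 1) = (4 * M + 4) + i * (4 * M + 4) + 2 * b - 2 * a := rfl
theorem wρ2 : wρ j M ((i, a, b), 2) = if a = 0 ∧ i + 1 = j then
  (4 * (M : ℤ) + 4) + j * (4 * M + 4) + (2 * M + 2) - (2 * b + 1)
      else (4 * M + 4) + i * (4 * M + 4) + 2 * b - 2 * a + 1 := rfl
theorem wρ3 : wρ j M ((i, a, b), 3) = if 0 < a then 2 * (a : ℤ) else if i + 1 = j then
      (4 * M + 4) + j * (4 * M + 4) + (2 * M + 2) - 2 * b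
      else (4 * M + 4) + j * (4 * M + 4) + (2 * M + 2) + (j - 1 - i) := rfl

end

theorem rot0 {X : Type} (v : X) : rot (v, 0) = (v, 1) := rfl
theorem rot1 {X : Type} (v : X) : rot (v, 1) = (v, 2) := rfl
theorem rot2 {X : Type} (v : X) : rot (v, 2) = (v, 3) := rfl
theorem rot3 {X : Type} (v : X) : rot (v, 3) = (v, 0) := rfl

/-- predecessor -/
theorem pred_op {X : Type} [DecidableEq X] {G : Glue X} {p y : Dart X}
    (h : G.op G.E y) (hp : G.opp y = p) : G.nx G.E p = rot y ∧ G.dlt G.E p = -1 := by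
  subst hp
  have h1 : G.op G.E (G.opp y) := Glue.op_opp.2 h
  refine ⟨?_, ?_⟩
  · rw [Glue.nx_op h1, G.inv]
  · unfold Glue.dlt; rw [if_pos h1]

theorem pred_cl {X : Type} [DecidableEq X] {G : Glue X} {y : Dart X}
    (h : ¬ G.op G.E y) : G.nx G.E y = rot y ∧ G.dlt G.E y = 1 := by
  refine ⟨Glue.nx_cl h, ?_⟩
  unfold Glue.dlt; rw [if_neg h]

theorem wmul {i j M : ℕ} (h : i < j) :
    (i : ℤ) * (4 * M + 4) + (4 * M + 4) ≤ j * (4 * M + 4) := by
  have h1 : (i : ℤ) + 1 ≤ j := by exact_mod_cast h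
  nlinarith [(Nat.cast_nonneg M : (0 : ℤ) ≤ M)]

theorem wmul0 (i M : ℕ) : (0 : ℤ) ≤ (i : ℤ) * (4 * M + 4) := by positivity

/-- the outer walk -/
theorem wedge_walk {j M : ℕ} {m : ℕ → ℕ} (hM : ∀ i ≤ j, m i ≤ M) :
    ∀ z, wB j m z → z ≠ ((0, 0, 0), 0) → ∃ p, wB j m p ∧
      (wedge j m).nx (wedge j m).E p = z ∧ wρ j M p < wρ j M z ∧
      wh z = wh p + (wedge j m).dlt (wedge j m).E p := by
  have d01 : ¬ ((0 : ZMod 4) = 1) := by decide
  have d02 : ¬ ((0 : ZMod 4) = 2) := by decide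
  have d03 : ¬ ((0 : ZMod 4) = 3) := by decide
  have d10 : ¬ ((1 : ZMod 4) = 0) := by decide
  have d12 : ¬ ((1 : ZMod 4) = 2) := by decide
  have d13 : ¬ ((1 : ZMod 4) = 3) := by decide
  have d20 : ¬ ((2 : ZMod 4) = 0) := by decide
  have d21 : ¬ ((2 : ZMod 4) = 1) := by decide
  have d23 : ¬ ((2 : ZMod 4) = 3) := by decide
  have d30 : ¬ ((3 : ZMod 4) = 0) := by decide
  have d31 : ¬ ((3 : ZMod 4) = 1) := by decide
  have d32 : ¬ ((3 : ZMod 4) = 2) := by decide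
  rintro ⟨⟨i, a, b⟩, k⟩ ⟨hS, h0, h1, h2, h3⟩ hne
  obtain ⟨hi, ha, hb⟩ := hS
  have hmi := hM i hi.le
  have hmi1 := hM (i + 1) (by omega)
  have q1 := wmul (M := M) hi
  have q0 := wmul0 i M
  rcases k_cases k with rfl | rfl | rfl | rfl
  · -- k = 0
    have h0' := h0 rfl
    by_cases hc : b = 0 ∧ i = 0
    · obtain ⟨rfl, rfl⟩ := hc
      have ha0 : 0 < a := by
        rcases Nat.eq_zero_or_pos a with h | h
        · subst h; exact absurd rfl hne
        · exact h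
      have hcl : ¬ (wedge j m).op (wedge j m).E ((0, a, 0), 3) := by
        rw [wop3 ⟨hi, ha, hb⟩]; omega
      obtain ⟨e1, e2⟩ := pred_cl hcl
      refine ⟨((0, a, 0), 3), ⟨⟨hi, ha, hb⟩, fun h => absurd h d30, fun h => absurd h d31,
        fun h => absurd h d32, fun _ => by omega⟩, by rw [e1, rot3], ?_, ?_⟩
      · rw [wρ0, wρ3, if_pos ha0, if_pos ⟨rfl, rfl⟩]; omega
      · rw [wh0, wh3, if_pos ha0, e2]; norm_num
    · have ham : a = m i := by omega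
      have hop : (wedge j m).op (wedge j m).E ((i, a, b), 3) := by
        rw [wop3 ⟨hi, ha, hb⟩]; omega
      rcases Nat.eq_zero_or_pos b with hb0 | hb0
      · subst hb0
        obtain ⟨i', rfl⟩ : ∃ i', i = i' + 1 := ⟨i - 1, by omega⟩
        have hp : (wedge j m).opp ((i' + 1, a, 0), 3) = ((i', 0, a), 2) := wopp3' i' a
        obtain ⟨e1, e2⟩ := pred_op hop hp
        refine ⟨((i', 0, a), 2), ⟨⟨by omega, by omega, ha⟩, fun h => absurd h d20,
          fun h => absurd h d21, fun _ => Or.inl ham, fun h => absurd h d23⟩, by rw [e1, rot3], ?_, ?_⟩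
        · rw [wρ0, wρ2, if_neg (by omega), if_neg (by omega)]
          push_cast
          nlinarith
        · rw [wh0, wh2, e2]; push_cast; ring
      · obtain ⟨b', rfl⟩ : ∃ b', b = b' + 1 := ⟨b - 1, by omega⟩
        have hp : (wedge j m).opp ((i, a, b' + 1), 3) = ((i, a, b'), 1) := wopp3 i a b'
        obtain ⟨e1, e2⟩ := pred_op hop hp
        refine ⟨((i, a, b'), 1), ⟨⟨hi, ha, by omega⟩, fun h => absurd h d10,
          fun _ => Or.inl ham, fun h => absurd h d12, fun h => absurd h d13⟩, by rw [e1, rot3], ?_, ?_⟩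
        · rw [wρ0, wρ1, if_neg (by omega)]
          push_cast
          linarith
        · rw [wh0, wh1, e2]; push_cast; ring
  · -- k = 1
    have h1' := h1 rfl
    by_cases hc : a = m i
    · have hcl : ¬ (wedge j m).op (wedge j m).E ((i, a, b), 0) := by
        rw [wop0 ⟨hi, ha, hb⟩]; omega
      obtain ⟨e1, e2⟩ := pred_cl hcl
      refine ⟨((i, a, b), 0), ⟨⟨hi, ha, hb⟩, fun _ => Or.inl hc, fun h => absurd h d01,
        fun h => absurd h d02, fun h => absurd h d03⟩, by rw [e1, rot0], ?_, ?_⟩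
      · rw [wρ0, wρ1]
        split_ifs
        · omega
        · linarith
      · rw [wh0, wh1, e2]
    · have hbm : b = m (i + 1) := by omega
      have hop : (wedge j m).op (wedge j m).E ((i, a, b), 0) := by
        rw [wop0 ⟨hi, ha, hb⟩]; omega
      have hp : (wedge j m).opp ((i, a, b), 0) = ((i, a + 1, b), 2) := wopp0 i a b
      obtain ⟨e1, e2⟩ := pred_op hop hp
      refine ⟨((i, a + 1, b), 2), ⟨⟨hi, by omega, hb⟩, fun h => absurd h d20,
        fun h => absurd h d21, fun _ => Or.inl hbm, fun h => absurd h d23⟩, by rw [e1, rot0], ?_, ?_⟩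
      · rw [wρ1, wρ2, if_neg (by omega)]
        push_cast
        linarith
      · rw [wh1, wh2, e2]; push_cast; ring
  · -- k = 2
    have h2' := h2 rfl
    by_cases hc : b = m (i + 1)
    · have hcl : ¬ (wedge j m).op (wedge j m).E ((i, a, b), 1) := by
        rw [wop1 ⟨hi, ha, hb⟩]; omega
      obtain ⟨e1, e2⟩ := pred_cl hcl
      refine ⟨((i, a, b), 1), ⟨⟨hi, ha, hb⟩, fun h => absurd h d10, fun _ => Or.inr hc,
        fun h => absurd h d12, fun h => absurd h d13⟩, by rw [e1, rot1], ?_, ?_⟩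
      · rw [wρ1, wρ2]
        split_ifs
        · have : (b : ℤ) ≤ M := by exact_mod_cast hb.trans hmi1
          linarith
        · linarith
      · rw [wh1, wh2, e2]; ring
    · have hc2 : a = 0 ∧ i + 1 = j := by omega
      have hop : (wedge j m).op (wedge j m).E ((i, a, b), 1) := by
        rw [wop1 ⟨hi, ha, hb⟩]; omega
      have hp : (wedge j m).opp ((i, a, b), 1) = ((i, a, b + 1), 3) := wopp1 i a b
      obtain ⟨e1, e2⟩ := pred_op hop hp
      refine ⟨((i, a, b + 1), 3), ⟨⟨hi, ha, by omega⟩, fun h => absurd h d30,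
        fun h => absurd h d31, fun h => absurd h d32, fun _ => Or.inr (Or.inr hc2)⟩,
        by rw [e1, rot1], ?_, ?_⟩
      · rw [wρ2, wρ3, if_pos hc2, if_neg (by omega), if_pos hc2.2]
        push_cast
        linarith
      · rw [wh2, wh3, if_neg (by omega), e2]; ring
  · -- k = 3
    have h3' := h3 rfl
    rcases Nat.eq_zero_or_pos a with ha0 | ha0
    · subst ha0
      by_cases hj : i + 1 = j
      · have hcl : ¬ (wedge j m).op (wedge j m).E ((i, 0, b), 2) := by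
          rw [wop2 ⟨hi, ha, hb⟩]; omega
        obtain ⟨e1, e2⟩ := pred_cl hcl
        refine ⟨((i, 0, b), 2), ⟨⟨hi, ha, hb⟩, fun h => absurd h d20, fun h => absurd h d21,
          fun _ => Or.inr ⟨rfl, hj⟩, fun h => absurd h d23⟩, by rw [e1, rot2], ?_, ?_⟩
        · rw [wρ2, wρ3, if_pos ⟨rfl, hj⟩, if_neg (by omega), if_pos hj]; linarith
        · rw [wh2, wh3, if_neg (by omega), e2]; ring
      · have hb0 : b = 0 := by omega
        subst hb0
        have hop : (wedge j m).op (wedge j m).E ((i, 0, 0), 2) := by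
          rw [wop2 ⟨hi, ha, hb⟩]; omega
        have hp : (wedge j m).opp ((i, 0, 0), 2) = ((i + 1, 0, 0), 3) := wopp2' i 0
        obtain ⟨e1, e2⟩ := pred_op hop hp
        refine ⟨((i + 1, 0, 0), 3), ⟨⟨by omega, by omega, by omega⟩, fun h => absurd h d30,
          fun h => absurd h d31, fun h => absurd h d32, fun _ => Or.inl ⟨rfl, rfl⟩⟩,
          by rw [e1, rot2], ?_, ?_⟩
        · rw [wρ3, wρ3]
          simp only [lt_irrefl, if_false, hj]
          split_ifs with h4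
          · have : (i : ℤ) + 1 + 1 = j := by exact_mod_cast h4
            push_cast
            linarith
          · push_cast
            linarith
        · rw [wh3, wh3, if_neg (by omega), if_neg (by omega), e2]; push_cast; ring
    · obtain ⟨a', rfl⟩ : ∃ a', a = a' + 1 := ⟨a - 1, by omega⟩
      have hc : b = 0 ∧ i = 0 := by omega
      obtain ⟨rfl, rfl⟩ := hc
      have hop : (wedge j m).op (wedge j m).E ((0, a' + 1, 0), 2) := by
        rw [wop2 ⟨hi, ha, hb⟩]; omega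
      have hp : (wedge j m).opp ((0, a' + 1, 0), 2) = ((0, a', 0), 0) := wopp2 0 a' 0
      obtain ⟨e1, e2⟩ := pred_op hop hp
      refine ⟨((0, a', 0), 0), ⟨⟨hi, by omega, hb⟩, fun _ => Or.inr ⟨rfl, rfl⟩,
        fun h => absurd h d01, fun h => absurd h d02, fun h => absurd h d03⟩, by rw [e1, rot2], ?_, ?_⟩
      · rw [wρ0, wρ3, if_pos ha0, if_pos ⟨rfl, rfl⟩]; push_cast; linarith
      · rw [wh0, wh3, if_pos ha0, e2]; norm_num

end FKR
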